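import Mathlib

/-!
The elementary inequality behind the mean value theorem.
-/

set_option autoImplicit false

open Real Finset

namespace Pool.Agent.H4.MVal

/-- the kernel `1/(a-b)^2` off the diagonal -/
noncomputable def kq (a b : ℕ) : ℝ := if a = b then 0 else (((a : ℝ) - b) ^ 2)⁻¹

lemma kq_nonneg (a b : ℕ) : 0 ≤ kq a b := by
  unfold kq; split_ifs <;> positivity

lemma kq_comm (a b : ℕ) : kq a b = kq b a := by
  unfold kq
  by_cases h : a = b
  · rw [if_pos h, if_pos h.symm]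
  · rw [if_neg h, if_neg (fun h' => h h'.symm)]
    congr 1
    ring

lemma sum_inv_sq_le (s : Finset ℕ) (hs : ∀ i ∈ s, 1 ≤ i) : ∑ i ∈ s, (((i : ℕ) : ℝ) ^ 2)⁻¹ ≤ 2 := by
  have h1 : s ⊆ Ioo 0 (s.sup id + 1) := by
    intro i hi
    rw [mem_Ioo]
    have : i ≤ s.sup id := Finset.le_sup (f := id) hi
    have := hs i hi
    omega
  refine (Finset.sum_le_sum_of_subset_of_nonneg h1 fun _ _ _ => by positivity).trans ?_
  refine (sum_Ioo_inv_sq_le (α := ℝ) 0 _).trans ?_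
  norm_num

lemma sum_kq_le (a : ℕ) (s : Finset ℕ) : ∑ b ∈ s, kq a b ≤ 4 := by
  have h1 : ∑ b ∈ s, kq a b = ∑ b ∈ s.filter (· < a), kq a b + ∑ b ∈ s.filter (fun b => ¬ b < a), kq a b :=
    (Finset.sum_filter_add_sum_filter_not s _ _).symm
  have h2 : ∑ b ∈ s.filter (· < a), kq a b ≤ 2 := by
    have e : ∑ b ∈ s.filter (· < a), kq a b = ∑ i ∈ (s.filter (· < a)).image (fun b => a - b), (((i : ℕ) : ℝ) ^ 2)⁻¹ := by
      rw [Finset.sum_image]
      · refine Finset.sum_congr rfl fun b hb => ?_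
        rw [mem_filter] at hb
        rw [kq, if_neg (by omega), Nat.cast_sub hb.2.le]
      · intro x hx y hy hxy
        simp only [coe_filter, Set.mem_setOf_eq] at hx hy
        simp only at hxy
        omega
    rw [e]
    refine sum_inv_sq_le _ fun i hi => ?_
    rw [mem_image] at hi
    obtain ⟨b, hb, rfl⟩ := hi
    rw [mem_filter] at hb
    omega
  have h3 : ∑ b ∈ s.filter (fun b => ¬ b < a), kq a b ≤ 2 := by
    have e0 : ∑ b ∈ s.filter (fun b => ¬ b < a), kq a b = ∑ b ∈ s.filter (fun b => a < b), kq a b := by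
      symm
      refine Finset.sum_subset (fun b hb => ?_) fun b hb hb' => ?_
      · rw [mem_filter] at hb ⊢
        exact ⟨hb.1, by omega⟩
      · rw [mem_filter] at hb hb'
        have : a = b := by
          by_contra h
          exact hb' ⟨hb.1, by omega⟩
        rw [kq, if_pos this]
    have e : ∑ b ∈ s.filter (fun b => a < b), kq a b = ∑ i ∈ (s.filter (fun b => a < b)).image (fun b => b - a), (((i : ℕ) : ℝ) ^ 2)⁻¹ := by
      rw [Finset.sum_image]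
      · refine Finset.sum_congr rfl fun b hb => ?_
        rw [mem_filter] at hb
        rw [kq_comm, kq, if_neg (by omega), Nat.cast_sub hb.2.le]
      · intro x hx y hy hxy
        simp only [coe_filter, Set.mem_setOf_eq] at hx hy
        simp only at hxy
        omega
    rw [e0, e]
    refine sum_inv_sq_le _ fun i hi => ?_
    rw [mem_image] at hi
    obtain ⟨b, hb, rfl⟩ := hi
    rw [mem_filter] at hb
    omega
  linarith

/-- Schur's inequality for the kernel -/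
lemma schur (A B : Finset ℕ) (x y : ℕ → ℝ) :
    ∑ a ∈ A, ∑ b ∈ B, x a * y b * kq a b ≤ 4 * (√(∑ a ∈ A, x a ^ 2) * √(∑ b ∈ B, y b ^ 2)) := by
  have h1 : ∑ a ∈ A, ∑ b ∈ B, x a * y b * kq a b =
      ∑ p ∈ A ×ˢ B, (x p.1 * √(kq p.1 p.2)) * (y p.2 * √(kq p.1 p.2)) := by
    rw [Finset.sum_product]
    refine Finset.sum_congr rfl fun a _ => Finset.sum_congr rfl fun b _ => ?_
    have := Real.mul_self_sqrt (kq_nonneg a b)
    calc x a * y b * kq a b = x a * y b * (√(kq a b) * √(kq a b)) := by rw [this]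
      _ = _ := by ring
  rw [h1]
  refine (Real.sum_mul_le_sqrt_mul_sqrt _ _ _).trans ?_
  have h2 : ∑ p ∈ A ×ˢ B, (x p.1 * √(kq p.1 p.2)) ^ 2 ≤ 4 * ∑ a ∈ A, x a ^ 2 := by
    rw [Finset.sum_product, Finset.mul_sum]
    refine Finset.sum_le_sum fun a _ => ?_
    have : ∀ b ∈ B, (x a * √(kq a b)) ^ 2 = x a ^ 2 * kq a b := by
      intro b _
      rw [mul_pow, Real.sq_sqrt (kq_nonneg a b)]
    rw [Finset.sum_congr rfl this, ← Finset.mul_sum]
    nlinarith [sum_kq_le a B, sq_nonneg (x a)]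
  have h3 : ∑ p ∈ A ×ˢ B, (y p.2 * √(kq p.1 p.2)) ^ 2 ≤ 4 * ∑ b ∈ B, y b ^ 2 := by
    rw [Finset.sum_product_right, Finset.mul_sum]
    refine Finset.sum_le_sum fun b _ => ?_
    have : ∀ a ∈ A, (y b * √(kq a b)) ^ 2 = y b ^ 2 * kq b a := by
      intro a _
      rw [mul_pow, Real.sq_sqrt (kq_nonneg a b), kq_comm]
    rw [Finset.sum_congr rfl this, ← Finset.mul_sum]
    nlinarith [sum_kq_le b A, sq_nonneg (y b)]
  calc √(∑ p ∈ A ×ˢ B, (x p.1 * √(kq p.1 p.2)) ^ 2) * √(∑ p ∈ A ×ˢ B, (y p.2 * √(kq p.1 p.2)) ^ 2)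
      ≤ √(4 * ∑ a ∈ A, x a ^ 2) * √(4 * ∑ b ∈ B, y b ^ 2) :=
        mul_le_mul (Real.sqrt_le_sqrt h2) (Real.sqrt_le_sqrt h3) (Real.sqrt_nonneg _)
          (Real.sqrt_nonneg _)
    _ = 4 * (√(∑ a ∈ A, x a ^ 2) * √(∑ b ∈ B, y b ^ 2)) := by
        rw [Real.sqrt_mul (by norm_num), Real.sqrt_mul (by norm_num)]
        have : √(4 : ℝ) = 2 := by
          rw [show (4 : ℝ) = 2 ^ 2 by norm_num, Real.sqrt_sq (by norm_num)]
        rw [this]
        ring

/-- lower bound for logarithms of ratios -/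
lemma inv_log_sq_le {a b : ℕ} (ha : 1 ≤ a) (hb : 1 ≤ b) (hab : a ≠ b) :
    ((Real.log b - Real.log a) ^ 2)⁻¹ ≤ 3 + 4 * (b : ℝ) ^ 2 * kq a b := by
  have ha0 : (0 : ℝ) < a := by exact_mod_cast ha
  have hb0 : (0 : ℝ) < b := by exact_mod_cast hb
  have hk : 0 ≤ 4 * (b : ℝ) ^ 2 * kq a b := mul_nonneg (by positivity) (kq_nonneg a b)
  have hl2 := Real.log_two_gt_d9
  -- far case
  have far : ∀ x : ℝ, Real.log 2 ≤ |x| → (x ^ 2)⁻¹ ≤ 3 := by
    intro x hx
    rw [← sq_abs]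
    have h1 : (0.6 : ℝ) ≤ |x| := by linarith
    have h2 : (0.36 : ℝ) ≤ |x| ^ 2 := by nlinarith
    rw [inv_le_comm₀ (by linarith) (by norm_num)]
    linarith
  have near : ∀ x : ℝ, |(a : ℝ) - b| / (2 * b) ≤ |x| → (x ^ 2)⁻¹ ≤ 4 * (b : ℝ) ^ 2 * kq a b := by
    intro x hx
    have hne : ((a : ℝ) - b) ≠ 0 := by
      intro h
      apply hab
      exact_mod_cast (sub_eq_zero.1 h)
    have h0 : 0 < |(a : ℝ) - b| := abs_pos.2 hne
    rw [kq, if_neg hab]
    have h1 : (|(a : ℝ) - b| / (2 * b)) ^ 2 ≤ x ^ 2 := by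
      rw [← sq_abs x]
      exact pow_le_pow_left₀ (by positivity) hx 2
    calc (x ^ 2)⁻¹ ≤ ((|(a : ℝ) - b| / (2 * b)) ^ 2)⁻¹ := inv_anti₀ (by positivity) h1
      _ = 4 * (b : ℝ) ^ 2 * (((a : ℝ) - b) ^ 2)⁻¹ := by
          rw [div_pow, sq_abs]
          field_simp
          ring
  by_cases h1 : 2 * b ≤ a
  · refine (far _ ?_).trans (by linarith)
    have h2 : Real.log (2 * b) ≤ Real.log a := Real.log_le_log (by positivity) (by exact_mod_cast h1)
    rw [Real.log_mul (by norm_num) hb0.ne'] at h2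
    rw [abs_sub_comm, abs_of_nonneg (by linarith)]
    linarith
  by_cases h2 : 2 * a ≤ b
  · refine (far _ ?_).trans (by linarith)
    have h2 : Real.log (2 * a) ≤ Real.log b := Real.log_le_log (by positivity) (by exact_mod_cast h2)
    rw [Real.log_mul (by norm_num) ha0.ne'] at h2
    rw [abs_of_nonneg (by linarith)]
    linarith
  push Not at h1 h2
  have h1' : (a : ℝ) < 2 * b := by exact_mod_cast h1
  have h2' : (b : ℝ) < 2 * a := by exact_mod_cast h2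
  refine (near _ ?_).trans (by linarith)
  rcases lt_or_gt_of_ne hab with h | h
  · have h' : (a : ℝ) < b := by exact_mod_cast h
    have e1 : Real.log (a / b) ≤ a / b - 1 := Real.log_le_sub_one_of_pos (by positivity)
    rw [Real.log_div ha0.ne' hb0.ne'] at e1
    rw [abs_of_nonpos (by linarith), abs_of_nonneg (by
      have := Real.log_le_log ha0 h'.le
      linarith)]
    have e2 : -((a : ℝ) - b) / (2 * b) ≤ 1 - a / b := by
      have e3 : 1 - (a : ℝ) / b = (b - a) / b := by field_simp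
      have e4 : -((a : ℝ) - b) / (2 * b) = (b - a) / b / 2 := by field_simp; ring
      rw [e3, e4]
      have : 0 ≤ ((b : ℝ) - a) / b := div_nonneg (by linarith) hb0.le
      linarith
    linarith
  · have h' : (b : ℝ) < a := by exact_mod_cast h
    have e1 : Real.log (b / a) ≤ b / a - 1 := Real.log_le_sub_one_of_pos (by positivity)
    rw [Real.log_div hb0.ne' ha0.ne'] at e1
    rw [abs_of_nonneg (by linarith), abs_of_nonpos (by
      have := Real.log_le_log hb0 h'.le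
      linarith)]
    have e2 : ((a : ℝ) - b) / (2 * b) ≤ 1 - b / a := by
      have e3 : 1 - (b : ℝ) / a = (a - b) / a := by field_simp
      rw [e3]
      exact div_le_div_of_nonneg_left (by linarith) ha0 h1'.le
    linarith

lemma card_le_of_mem {A : Finset ℕ} {N : ℝ} (hN : 0 ≤ N) (h : ∀ a ∈ A, 1 ≤ a ∧ (a : ℝ) ≤ N) : (A.card : ℝ) ≤ N := by
  have h1 : A ⊆ Icc 1 ⌊N⌋₊ := by
    intro a ha
    rw [mem_Icc]
    exact ⟨(h a ha).1, Nat.le_floor (h a ha).2⟩
  have h2 := Finset.card_le_card h1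
  rw [Nat.card_Icc, Nat.add_sub_cancel] at h2
  calc (A.card : ℝ) ≤ (⌊N⌋₊ : ℝ) := by exact_mod_cast h2
    _ ≤ N := Nat.floor_le hN

lemma sum_le_sqrt {A : Finset ℕ} {N : ℝ} (hN : 0 ≤ N) (h : ∀ a ∈ A, 1 ≤ a ∧ (a : ℝ) ≤ N) (x : ℕ → ℝ) :
    ∑ a ∈ A, x a ≤ √N * √(∑ a ∈ A, x a ^ 2) := by
  have h1 := Real.sum_mul_le_sqrt_mul_sqrt A (fun _ => (1 : ℝ)) x
  simp only [one_mul, one_pow, sum_const, nsmul_eq_mul, mul_one] at h1
  refine h1.trans (mul_le_mul_of_nonneg_right (Real.sqrt_le_sqrt (card_le_of_mem hN h))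
    (Real.sqrt_nonneg _))

/-- the off-diagonal sum -/
lemma off_diag {A B : Finset ℕ} {N1 N2 : ℝ} (hN1 : 0 ≤ N1) (hN2 : 0 ≤ N2)
    (hA : ∀ a ∈ A, 1 ≤ a ∧ (a : ℝ) ≤ N1) (hB : ∀ a ∈ B, 1 ≤ a ∧ (a : ℝ) ≤ N2)
    (x y : ℕ → ℝ) (hx : ∀ a, 0 ≤ x a) (hy : ∀ a, 0 ≤ y a) (r : ℕ → ℕ → ℝ)
    (hr : ∀ a ∈ A, ∀ b ∈ B, a ≠ b → r a b ≤ ((Real.log b - Real.log a) ^ 2)⁻¹)
    (hr0 : ∀ a ∈ A, ∀ b ∈ B, a = b → r a b ≤ 0) :
    ∑ a ∈ A, ∑ b ∈ B, x a * y b * r a b ≤
      16 * (√(N1 * N2) + N2 ^ 2) * (√(∑ a ∈ A, x a ^ 2) * √(∑ b ∈ B, y b ^ 2)) := by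
  have h1 : ∀ a ∈ A, ∀ b ∈ B, x a * y b * r a b ≤ 3 * (x a * y b) + 4 * N2 ^ 2 * (x a * y b * kq a b) := by
    intro a ha b hb
    have hxy : 0 ≤ x a * y b := mul_nonneg (hx a) (hy b)
    have hb' := (hB b hb).2
    have hkn := kq_nonneg a b
    have h2 : r a b ≤ 3 + 4 * N2 ^ 2 * kq a b := by
      by_cases hab : a = b
      · exact (hr0 a ha b hb hab).trans (by positivity)
      · refine (hr a ha b hb hab).trans ((inv_log_sq_le (hA a ha).1 (hB b hb).1 hab).trans ?_)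
        have : (b : ℝ) ^ 2 ≤ N2 ^ 2 := pow_le_pow_left₀ (by positivity) hb' 2
        have := mul_le_mul_of_nonneg_right this hkn
        linarith
    calc x a * y b * r a b ≤ x a * y b * (3 + 4 * N2 ^ 2 * kq a b) :=
          mul_le_mul_of_nonneg_left h2 hxy
      _ = _ := by ring
  set X := √(∑ a ∈ A, x a ^ 2) with hX
  set Y := √(∑ b ∈ B, y b ^ 2) with hY
  have hX0 : 0 ≤ X := Real.sqrt_nonneg _
  have hY0 : 0 ≤ Y := Real.sqrt_nonneg _
  calc ∑ a ∈ A, ∑ b ∈ B, x a * y b * r a b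
      ≤ ∑ a ∈ A, ∑ b ∈ B, (3 * (x a * y b) + 4 * N2 ^ 2 * (x a * y b * kq a b)) :=
        Finset.sum_le_sum fun a ha => Finset.sum_le_sum fun b hb => h1 a ha b hb
    _ = 3 * ((∑ a ∈ A, x a) * ∑ b ∈ B, y b) + 4 * N2 ^ 2 * ∑ a ∈ A, ∑ b ∈ B, x a * y b * kq a b := by
        rw [Finset.sum_mul_sum]
        simp only [Finset.sum_add_distrib, Finset.mul_sum]
    _ ≤ 3 * ((√N1 * X) * (√N2 * Y)) + 4 * N2 ^ 2 * (4 * (X * Y)) := by
        gcongr
        · exact Finset.sum_nonneg fun _ _ => hy _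
        · exact sum_le_sqrt hN1 hA x
        · exact sum_le_sqrt hN2 hB y
        · exact schur A B x y
    _ ≤ 16 * (√(N1 * N2) + N2 ^ 2) * (X * Y) := by
        rw [Real.sqrt_mul hN1]
        have h5 : 0 ≤ √N1 * √N2 * (X * Y) := by positivity
        nlinarith

end Pool.Agent.H4.MVal
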