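import Mathlib

/-!
The trapezoid weight and its Fourier transform.
-/

set_option autoImplicit false

open Real MeasureTheory Set

namespace Pool.Agent.H4.MVal

/-- the trapezoid: `0` outside `[a,b]`, `1` on `[a+d,b-d]`, linear in between -/
noncomputable def trap (a b d u : ℝ) : ℝ := max 0 (min 1 (min ((u - a) / d) ((b - u) / d)))

variable {a b d u v : ℝ}

lemma trap_nonneg (a b d u : ℝ) : 0 ≤ trap a b d u := le_max_left _ _

lemma trap_le_one (a b d u : ℝ) : trap a b d u ≤ 1 :=
  max_le zero_le_one (min_le_left _ _)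

lemma abs_trap_le (a b d u : ℝ) : |trap a b d u| ≤ 1 := by
  rw [abs_of_nonneg (trap_nonneg a b d u)]; exact trap_le_one a b d u

lemma trap_left (hd : 0 < d) (h : u ≤ a) : trap a b d u = 0 := by
  unfold trap
  refine max_eq_left ((min_le_right _ _).trans ((min_le_left _ _).trans ?_))
  exact div_nonpos_of_nonpos_of_nonneg (by linarith) hd.le

lemma trap_right (hd : 0 < d) (h : b ≤ u) : trap a b d u = 0 := by
  unfold trap
  refine max_eq_left ((min_le_right _ _).trans ((min_le_right _ _).trans ?_))
  exact div_nonpos_of_nonpos_of_nonneg (by linarith) hd.le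

lemma trap_supp (hd : 0 < d) (h : trap a b d u ≠ 0) : a < u ∧ u < b := by
  constructor
  · by_contra h1
    exact h (trap_left hd (not_lt.1 h1))
  · by_contra h1
    exact h (trap_right hd (not_lt.1 h1))

lemma trap_one (hd : 0 < d) (h1 : a + d ≤ u) (h2 : u ≤ b - d) : trap a b d u = 1 := by
  unfold trap
  have e1 : 1 ≤ (u - a) / d := by rw [le_div_iff₀ hd]; linarith
  have e2 : 1 ≤ (b - u) / d := by rw [le_div_iff₀ hd]; linarith
  rw [min_eq_left (le_min e1 e2), max_eq_right zero_le_one]

lemma trap_up (hd : 0 < d) (hab : 2 * d ≤ b - a) (h1 : a ≤ u) (h2 : u ≤ a + d) :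
    trap a b d u = (u - a) / d := by
  unfold trap
  have e0 : 0 ≤ (u - a) / d := div_nonneg (by linarith) hd.le
  have e1 : (u - a) / d ≤ 1 := by rw [div_le_one hd]; linarith
  have e2 : 1 ≤ (b - u) / d := by rw [le_div_iff₀ hd]; linarith
  rw [min_eq_left (e1.trans e2), min_eq_right e1, max_eq_right e0]

lemma trap_down (hd : 0 < d) (hab : 2 * d ≤ b - a) (h1 : b - d ≤ u) (h2 : u ≤ b) :
    trap a b d u = (b - u) / d := by
  unfold trap
  have e0 : 0 ≤ (b - u) / d := div_nonneg (by linarith) hd.le
  have e1 : (b - u) / d ≤ 1 := by rw [div_le_one hd]; linarith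
  have e2 : 1 ≤ (u - a) / d := by rw [le_div_iff₀ hd]; linarith
  rw [min_eq_right (e1.trans e2), min_eq_right e1, max_eq_right e0]

lemma continuous_trap (a b d : ℝ) : Continuous (trap a b d) := by
  unfold trap
  fun_prop

lemma trap_lip (hd : 0 < d) (a b u v : ℝ) : |trap a b d u - trap a b d v| ≤ |u - v| / d := by
  unfold trap
  have h1 : ∀ x y z : ℝ, |max x y - max x z| ≤ |y - z| := by
    intro x y z
    have := abs_max_sub_max_le_abs y z x
    rw [max_comm x y, max_comm x z]
    exact this
  have h2 : ∀ x y z : ℝ, |min x y - min x z| ≤ |y - z| := by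
    intro x y z
    rcases le_total x y with h | h <;> rcases le_total x z with h' | h'
    · rw [min_eq_left h, min_eq_left h', sub_self, abs_zero]; exact abs_nonneg _
    · rw [min_eq_left h, min_eq_right h', abs_of_nonneg (by linarith), abs_of_nonneg (by linarith)]
      linarith
    · rw [min_eq_right h, min_eq_left h', abs_of_nonpos (by linarith), abs_of_nonpos (by linarith)]
      linarith
    · rw [min_eq_right h, min_eq_right h']
  have h3 : |min ((u - a) / d) ((b - u) / d) - min ((v - a) / d) ((b - v) / d)| ≤ |u - v| / d := by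
    have e1 : (u - a) / d - (v - a) / d = (u - v) / d := by ring
    have e2 : (b - u) / d - (b - v) / d = -((u - v) / d) := by ring
    have e3 : |(u - v) / d| = |u - v| / d := by rw [abs_div, abs_of_pos hd]
    have k1 := abs_le.1 (le_of_eq e3)
    rcases le_total ((u - a) / d) ((b - u) / d) with h | h <;>
      rcases le_total ((v - a) / d) ((b - v) / d) with h' | h'
    · rw [min_eq_left h, min_eq_left h', e1, e3]
    · rw [min_eq_left h, min_eq_right h', abs_le]
      constructor
      · linarith [k1.1, k1.2]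
      · linarith [k1.1, k1.2]
    · rw [min_eq_right h, min_eq_left h', abs_le]
      constructor
      · linarith [k1.1, k1.2]
      · linarith [k1.1, k1.2]
    · rw [min_eq_right h, min_eq_right h', e2, abs_neg, e3]
  exact (h1 _ _ _).trans ((h2 _ _ _).trans h3)

lemma integrable_trap (hd : 0 < d) (a b : ℝ) : Integrable (trap a b d) := by
  have h1 : HasCompactSupport (trap a b d) := by
    refine HasCompactSupport.intro (isCompact_Icc (a := a) (b := b)) fun x hx => ?_
    by_contra h
    have := trap_supp hd h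
    exact hx ⟨this.1.le, this.2.le⟩
  exact (continuous_trap a b d).integrable_of_hasCompactSupport h1

/-- integrals against the trapezoid in three pieces -/
lemma integral_trap_mul (hd : 0 < d) (hab : 2 * d ≤ b - a) {f : ℝ → ℂ} (hf : Continuous f) :
    ∫ x, (trap a b d x : ℂ) * f x = (∫ x in a..(a + d), ((x - a) / d : ℝ) * f x) +
      (∫ x in (a + d)..(b - d), f x) + ∫ x in (b - d)..b, ((b - x) / d : ℝ) * f x := by
  have hc : Continuous fun x => (trap a b d x : ℂ) * f x :=
    (Complex.continuous_ofReal.comp (continuous_trap a b d)).mul hf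
  have h1 : ∫ x, (trap a b d x : ℂ) * f x = ∫ x in a..b, (trap a b d x : ℂ) * f x := by
    rw [intervalIntegral.integral_of_le (by linarith)]
    refine (setIntegral_eq_integral_of_forall_compl_eq_zero fun x hx => ?_).symm
    have : trap a b d x = 0 := by
      by_contra h
      have := trap_supp hd h
      exact hx ⟨this.1, this.2.le⟩
    rw [this]; simp
  rw [h1, ← intervalIntegral.integral_add_adjacent_intervals (hc.intervalIntegrable a (b - d))
    (hc.intervalIntegrable (b - d) b),
    ← intervalIntegral.integral_add_adjacent_intervals (hc.intervalIntegrable a (a + d))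
    (hc.intervalIntegrable (a + d) (b - d))]
  congr 1
  · congr 1
    · refine intervalIntegral.integral_congr fun x hx => ?_
      rw [uIcc_of_le (by linarith)] at hx
      rw [trap_up hd hab hx.1 hx.2]
    · refine intervalIntegral.integral_congr fun x hx => ?_
      rw [uIcc_of_le (by linarith)] at hx
      rw [trap_one hd hx.1 hx.2]
      simp
  · refine intervalIntegral.integral_congr fun x hx => ?_
    rw [uIcc_of_le (by linarith)] at hx
    rw [trap_down hd hab hx.1 hx.2]

/-- the mass of the trapezoid -/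
lemma integral_trap (hd : 0 < d) (hab : 2 * d ≤ b - a) : ∫ x, trap a b d x = b - a - d := by
  have h := integral_trap_mul hd hab (f := fun _ => (1 : ℂ)) continuous_const
  simp only [mul_one] at h
  rw [integral_complex_ofReal] at h
  have e1 : (∫ x in a..(a + d), ((((x - a) / d : ℝ)) : ℂ)) = ((d / 2 : ℝ) : ℂ) := by
    rw [intervalIntegral.integral_ofReal]
    congr 1
    have hderiv : ∀ x ∈ uIcc a (a + d), HasDerivAt (fun x => (x - a) ^ 2 / (2 * d)) ((x - a) / d) x := by
      intro x _
      have h1 : HasDerivAt (fun x => (x - a) ^ 2) (2 * (x - a)) x := by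
        simpa using ((hasDerivAt_id x).sub_const a).fun_pow 2
      refine (h1.div_const (2 * d)).congr_deriv ?_
      field_simp
    rw [intervalIntegral.integral_eq_sub_of_hasDerivAt hderiv
      ((by fun_prop : Continuous fun x : ℝ => (x - a) / d).intervalIntegrable _ _)]
    field_simp
    ring
  have e3 : (∫ x in (b - d)..b, ((((b - x) / d : ℝ)) : ℂ)) = ((d / 2 : ℝ) : ℂ) := by
    rw [intervalIntegral.integral_ofReal]
    congr 1
    have hderiv : ∀ x ∈ uIcc (b - d) b, HasDerivAt (fun x => -((b - x) ^ 2 / (2 * d))) ((b - x) / d) x := by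
      intro x _
      have h1 : HasDerivAt (fun x => (b - x) ^ 2) (2 * (b - x) * (-1)) x := by
        simpa using ((hasDerivAt_id x).const_sub b).fun_pow 2
      refine (h1.div_const (2 * d)).neg.congr_deriv ?_
      field_simp
    rw [intervalIntegral.integral_eq_sub_of_hasDerivAt hderiv
      ((by fun_prop : Continuous fun x : ℝ => (b - x) / d).intervalIntegrable _ _)]
    field_simp
    ring
  have e2 : (∫ x in (a + d)..(b - d), (1 : ℂ)) = ((b - a - 2 * d : ℝ) : ℂ) := by
    rw [intervalIntegral.integral_const]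
    simp only [Complex.real_smul, mul_one]
    congr 1
    ring
  rw [e1, e2, e3] at h
  have h2 : (((∫ x, trap a b d x) : ℝ) : ℂ) = ((b - a - d : ℝ) : ℂ) := by
    rw [h]
    push_cast
    ring
  exact_mod_cast h2

/-- the Fourier transform of the trapezoid decays quadratically -/
lemma trap_fourier (hd : 0 < d) (hab : 2 * d ≤ b - a) {ξ : ℝ} (hξ : ξ ≠ 0) :
    ‖∫ x, (trap a b d x : ℂ) * Complex.exp ((ξ * x : ℝ) * Complex.I)‖ ≤ 4 / (d * ξ ^ 2) := by
  have hξc : (ξ : ℂ) ≠ 0 := by exact_mod_cast hξ
  have hdc : (d : ℂ) ≠ 0 := by exact_mod_cast hd.ne'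
  set E : ℝ → ℂ := fun x => Complex.exp ((ξ * x : ℝ) * Complex.I) with hE
  have hEc : Continuous E := by simp only [hE]; fun_prop
  have hEd : ∀ x, HasDerivAt E (ξ * Complex.I * E x) x := by
    intro x
    have h1 : HasDerivAt (fun x : ℝ => ((ξ * x : ℝ) : ℂ) * Complex.I) (ξ * Complex.I) x := by
      have h2 : HasDerivAt (fun x : ℝ => ((ξ * x : ℝ) : ℂ)) (ξ : ℂ) x := by
        have h3 : HasDerivAt (fun x : ℝ => ξ * x) ξ x := by
          simpa using (hasDerivAt_id x).const_mul ξ
        exact h3.ofReal_comp
      exact h2.mul_const _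
    refine h1.cexp.congr_deriv ?_
    simp only [hE]
    ring
  have hEn : ∀ x, ‖E x‖ = 1 := fun x => Complex.norm_exp_ofReal_mul_I _
  rw [integral_trap_mul hd hab hEc]
  have e1 : (∫ x in a..(a + d), ((x - a) / d : ℝ) * E x) =
      (E (a + d) / (ξ * Complex.I) - E (a + d) / (d * (ξ * Complex.I) ^ 2)) +
        E a / (d * (ξ * Complex.I) ^ 2) := by
    have hderiv : ∀ x ∈ uIcc a (a + d), HasDerivAt
        (fun x : ℝ => (((x - a) / d : ℝ) : ℂ) * E x / (ξ * Complex.I) -
          E x / (d * (ξ * Complex.I) ^ 2)) (((x - a) / d : ℝ) * E x) x := by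
      intro x _
      have h1 : HasDerivAt (fun x : ℝ => (((x - a) / d : ℝ) : ℂ)) (((1 / d : ℝ)) : ℂ) x :=
        (((hasDerivAt_id x).sub_const a).div_const d).ofReal_comp
      refine (((h1.mul (hEd x)).div_const _).sub ((hEd x).div_const _)).congr_deriv ?_
      push_cast
      have hI := Complex.I_ne_zero
      field_simp
      ring
    rw [intervalIntegral.integral_eq_sub_of_hasDerivAt hderiv (Continuous.intervalIntegrable (by
      fun_prop) _ _)]
    simp only [add_sub_cancel_left, div_self hd.ne', sub_self, zero_div, Complex.ofReal_one,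
      Complex.ofReal_zero, one_mul, zero_mul]
    ring
  have e2 : (∫ x in (a + d)..(b - d), E x) =
      E (b - d) / (ξ * Complex.I) - E (a + d) / (ξ * Complex.I) := by
    have hderiv : ∀ x ∈ uIcc (a + d) (b - d), HasDerivAt
        (fun x : ℝ => E x / (ξ * Complex.I)) (E x) x := by
      intro x _
      refine ((hEd x).div_const _).congr_deriv ?_
      have hI := Complex.I_ne_zero
      field_simp
    rw [intervalIntegral.integral_eq_sub_of_hasDerivAt hderiv (hEc.intervalIntegrable _ _)]
  have e3 : (∫ x in (b - d)..b, ((b - x) / d : ℝ) * E x) =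
      E b / (d * (ξ * Complex.I) ^ 2) -
        (E (b - d) / (ξ * Complex.I) + E (b - d) / (d * (ξ * Complex.I) ^ 2)) := by
    have hderiv : ∀ x ∈ uIcc (b - d) b, HasDerivAt
        (fun x : ℝ => (((b - x) / d : ℝ) : ℂ) * E x / (ξ * Complex.I) +
          E x / (d * (ξ * Complex.I) ^ 2)) (((b - x) / d : ℝ) * E x) x := by
      intro x _
      have h1 : HasDerivAt (fun x : ℝ => (((b - x) / d : ℝ) : ℂ)) (((-1 / d : ℝ)) : ℂ) x :=
        (((hasDerivAt_id x).const_sub b).div_const d).ofReal_comp
      refine (((h1.mul (hEd x)).div_const _).add ((hEd x).div_const _)).congr_deriv ?_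
      push_cast
      have hI := Complex.I_ne_zero
      field_simp
      ring
    rw [intervalIntegral.integral_eq_sub_of_hasDerivAt hderiv (Continuous.intervalIntegrable (by
      fun_prop) _ _)]
    simp only [sub_sub_cancel, div_self hd.ne', sub_self, zero_div, Complex.ofReal_one,
      Complex.ofReal_zero, one_mul, zero_mul, zero_add]
  rw [e1, e2, e3]
  have e4 : E (a + d) / (ξ * Complex.I) - E (a + d) / (d * (ξ * Complex.I) ^ 2) +
        E a / (d * (ξ * Complex.I) ^ 2) +
      (E (b - d) / (ξ * Complex.I) - E (a + d) / (ξ * Complex.I)) +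
      (E b / (d * (ξ * Complex.I) ^ 2) -
        (E (b - d) / (ξ * Complex.I) + E (b - d) / (d * (ξ * Complex.I) ^ 2))) =
      (E a - E (a + d) + (E b - E (b - d))) / (d * (ξ * Complex.I) ^ 2) := by ring
  rw [e4, norm_div]
  have e5 : ‖(d : ℂ) * (ξ * Complex.I) ^ 2‖ = d * ξ ^ 2 := by
    rw [norm_mul, norm_pow, norm_mul, Complex.norm_I, mul_one, Complex.norm_real,
      Complex.norm_real, Real.norm_eq_abs, Real.norm_eq_abs, sq_abs, abs_of_pos hd]
  rw [e5]
  refine div_le_div_of_nonneg_right ?_ (by positivity)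
  refine (norm_add_le _ _).trans ?_
  refine (add_le_add (norm_sub_le _ _) (norm_sub_le _ _)).trans ?_
  rw [hEn, hEn, hEn, hEn]
  norm_num

end Pool.Agent.H4.MVal
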