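import Pool.Agent.Lib.MP_f9aece_nt_j4.Stmts
import Pool.Agent.Lib.MP_f9aece_nt_h4.Trap
import Pool.Agent.Lib.MP_f9aece_nt_h4.MVLemma

/-!
The trapezoid weight and the bilinear mean value theorem (module B).
-/

set_option autoImplicit false

namespace Pool.Agent.Lib.J4

open MeasureTheory Set Filter Topology Complex
open scoped ComplexConjugate
open Pool.Agent.Lib.MP_f9aece_nt (DP pair BK K1 ev ev1 evh PP VV Smo expo EE mom ev_apply term_eq
  pair_def continuous_ev)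
open Pool.Agent.H4.MVal (off_diag)

lemma trap_eq_trap (a b δ : ℝ) : trap a b δ = H4.MVal.trap a b δ := rfl

theorem wgtTrap : WgtTrap := by
  intro a b δ ha hδ hab hb
  refine ⟨4 / δ, ?_⟩
  rw [trap_eq_trap]
  have hab' : 2 * δ ≤ b - a := by linarith
  refine ⟨H4.MVal.trap_nonneg a b δ, H4.MVal.trap_le_one a b δ, ?_, ?_, ?_⟩
  · intro u hu
    have := H4.MVal.trap_supp hδ hu
    exact ⟨this.1.le, by linarith [this.2]⟩
  · intro u v
    refine (H4.MVal.trap_lip hδ a b u v).trans ?_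
    rw [div_mul_eq_mul_div]
    refine div_le_div_of_nonneg_right ?_ hδ.le
    linarith [abs_nonneg (u - v)]
  · intro ξ
    rcases eq_or_ne ξ 0 with rfl | hξ
    · simp
      positivity
    · have h1 := H4.MVal.trap_fourier hδ hab' hξ
      have h2 : (∫ u : ℝ, (H4.MVal.trap a b δ u : ℂ) * cexp (I * ξ * u)) =
          ∫ x, (H4.MVal.trap a b δ x : ℂ) * Complex.exp ((ξ * x : ℝ) * Complex.I) := by
        congr 1
        funext x
        congr 2
        push_cast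
        ring
      rw [h2]
      have h3 : 0 < ξ ^ 2 := by positivity
      calc _ ≤ 4 / (δ * ξ ^ 2) * ξ ^ 2 := mul_le_mul_of_nonneg_right h1 h3.le
        _ = 4 / δ := by field_simp

lemma Wgt.C_nonneg {w : ℝ → ℝ} {θ C : ℝ} (hw : Wgt w θ C) : 0 ≤ C := by
  have := hw.four 0
  simpa using this

lemma Wgt.continuous {w : ℝ → ℝ} {θ C : ℝ} (hw : Wgt w θ C) : Continuous w := by
  have hC := hw.C_nonneg
  have : LipschitzWith ⟨C, hC⟩ w := by
    refine LipschitzWith.of_dist_le_mul fun x y => ?_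
    rw [Real.dist_eq, Real.dist_eq]
    exact hw.lip x y
  exact this.continuous

lemma Wgt.zero_of_notMem {w : ℝ → ℝ} {θ C T : ℝ} (hw : Wgt w θ C) (hT : 0 < T) {t : ℝ}
    (ht : t ∉ Icc (θ * T) (2 * T)) : w (t / T) = 0 := by
  by_contra h
  have h1 := hw.supp _ h
  exact ht ⟨(le_div_iff₀ hT).mp h1.1, (div_le_iff₀ hT).mp h1.2⟩

lemma Wgt.hasCompact {w : ℝ → ℝ} {θ C : ℝ} (hw : Wgt w θ C) : HasCompactSupport w := by
  refine HasCompactSupport.intro (isCompact_Icc (a := θ) (b := 2)) fun x hx => ?_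
  by_contra h
  exact hx (hw.supp x h)

lemma Wgt.integrable {w : ℝ → ℝ} {θ C : ℝ} (hw : Wgt w θ C) : Integrable w :=
  hw.continuous.integrable_of_hasCompactSupport hw.hasCompact

/-- the integral of one term -/
lemma Wgt.termInt {w : ℝ → ℝ} {θ C : ℝ} (_hw : Wgt w θ C) {T : ℝ} (hT : 0 < T) {a b : ℕ} (ha : 1 ≤ a)
    (hb : 1 ≤ b) :
    ∫ t : ℝ, (w (t / T) : ℂ) * ((a : ℂ) ^ (-(1 / 2 + I * t : ℂ)) * conj ((b : ℂ) ^ (-(1 / 2 + I * t : ℂ))))
      = (((a : ℝ) ^ (-(1 / 2) : ℝ) * (b : ℝ) ^ (-(1 / 2) : ℝ) : ℝ) : ℂ) *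
        (T * ∫ u : ℝ, (w u : ℂ) * cexp (I * (((Real.log b - Real.log a) * T : ℝ) : ℂ) * u)) := by
  have h1 : ∀ t : ℝ, (w (t / T) : ℂ) * ((a : ℂ) ^ (-(1 / 2 + I * t : ℂ)) *
      conj ((b : ℂ) ^ (-(1 / 2 + I * t : ℂ)))) =
      (((a : ℝ) ^ (-(1 / 2) : ℝ) * (b : ℝ) ^ (-(1 / 2) : ℝ) : ℝ) : ℂ) *
        ((w (t / T) : ℂ) * cexp (I * (((Real.log b - Real.log a) * T : ℝ) : ℂ) * ((t / T : ℝ) : ℂ))) := by
    intro t
    rw [term_eq ha hb]
    have hTc : (T : ℂ) ≠ 0 := by exact_mod_cast hT.ne'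
    have e : (((Real.log b - Real.log a : ℝ) : ℂ) * t * I) =
        I * (((Real.log b - Real.log a) * T : ℝ) : ℂ) * ((t / T : ℝ) : ℂ) := by
      push_cast
      field_simp
    rw [e]
    ring
  simp_rw [h1]
  rw [integral_const_mul]
  congr 1
  have h2 := Measure.integral_comp_div (fun u : ℝ => (w u : ℂ) *
    cexp (I * (((Real.log b - Real.log a) * T : ℝ) : ℂ) * (u : ℂ))) T
  rw [h2, abs_of_pos hT, Complex.real_smul]

lemma rpow_half_sq {n : ℕ} (hn : 1 ≤ n) : ((n : ℝ) ^ (-(1 / 2) : ℝ)) ^ 2 = (n : ℝ)⁻¹ := by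
  rw [← Real.rpow_natCast, ← Real.rpow_mul (Nat.cast_nonneg _), ← Real.rpow_neg_one]
  norm_num

lemma En_eq {P : DP} (hP : ∀ n, P.coeff n ≠ 0 → 1 ≤ n) :
    En P = ∑ a ∈ P.coeff.support, (|P.coeff a| * (a : ℝ) ^ (-(1 / 2) : ℝ)) ^ 2 := by
  unfold En BK
  rw [pair_def]
  refine Finset.sum_congr rfl fun a ha => ?_
  have ha' := Finsupp.mem_support_iff.1 ha
  rw [pair_def, Finset.sum_eq_single a, K1, if_pos rfl, mul_pow, sq_abs, rpow_half_sq (hP a ha')]
  · ring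
  · intro b _ hb
    rw [K1, if_neg (Ne.symm hb), mul_zero]
  · intro h
    exact absurd ha h

theorem mvt : MVT := by
  intro w θ C _hθ hw
  have hC := hw.C_nonneg
  refine ⟨16 * C, by positivity, ?_⟩
  intro T N1 N2 hT hN2 hN12 P Q hP hQ
  have hT0 : 0 < T := by linarith
  have hPs : ∀ a ∈ P.coeff.support, 1 ≤ a ∧ (a : ℝ) ≤ N1 :=
    fun a ha => hP a (Finsupp.mem_support_iff.mp ha)
  have hQs : ∀ a ∈ Q.coeff.support, 1 ≤ a ∧ (a : ℝ) ≤ N2 :=
    fun a ha => hQ a (Finsupp.mem_support_iff.mp ha)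
  have h1 : ∀ t : ℝ, (w (t / T) : ℂ) * (ev t P * conj (ev t Q)) =
      ∑ a ∈ P.coeff.support, ∑ b ∈ Q.coeff.support,
      ((P.coeff a * Q.coeff b : ℝ) : ℂ) * ((w (t / T) : ℂ) *
        ((a : ℂ) ^ (-(1 / 2 + I * t : ℂ)) * conj ((b : ℂ) ^ (-(1 / 2 + I * t : ℂ))))) := by
    intro t
    rw [ev_apply, ev_apply, map_sum, Finset.sum_mul_sum, Finset.mul_sum]
    refine Finset.sum_congr rfl fun a _ => ?_
    rw [Finset.mul_sum]
    refine Finset.sum_congr rfl fun b _ => ?_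
    rw [map_mul, Complex.conj_ofReal]
    push_cast
    ring
  have hint : ∀ a ∈ P.coeff.support, ∀ b ∈ Q.coeff.support, Integrable (fun t : ℝ =>
      ((P.coeff a * Q.coeff b : ℝ) : ℂ) * ((w (t / T) : ℂ) *
        ((a : ℂ) ^ (-(1 / 2 + I * t : ℂ)) * conj ((b : ℂ) ^ (-(1 / 2 + I * t : ℂ)))))) := by
    intro a ha b hb
    refine Integrable.const_mul ?_ _
    refine Continuous.integrable_of_hasCompactSupport ?_ ?_
    · refine Continuous.mul ?_ (Pool.Agent.Lib.MP_f9aece_nt.continuous_term (hPs a ha).1 (hQs b hb).1)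
      exact Complex.continuous_ofReal.comp (hw.continuous.comp (continuous_id.div_const T))
    · refine HasCompactSupport.intro (isCompact_Icc (a := θ * T) (b := 2 * T)) fun x hx => ?_
      have : w (x / T) = 0 := by
        by_contra h
        have h2 := hw.supp _ h
        rw [le_div_iff₀ hT0, div_le_iff₀ hT0] at h2
        exact hx h2
      rw [this]; simp
  have h2 : (∫ t : ℝ, (w (t / T) : ℂ) * (ev t P * conj (ev t Q))) =
      ∑ a ∈ P.coeff.support, ∑ b ∈ Q.coeff.support, ((P.coeff a * Q.coeff b : ℝ) : ℂ) *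
        ((((a : ℝ) ^ (-(1 / 2) : ℝ) * (b : ℝ) ^ (-(1 / 2) : ℝ) : ℝ) : ℂ) *
        (T * ∫ u : ℝ, (w u : ℂ) * cexp (I * (((Real.log b - Real.log a) * T : ℝ) : ℂ) * u))) := by
    simp_rw [h1]
    rw [integral_finsetSum _ (fun a ha => integrable_finsetSum _ (fun b hb => hint a ha b hb))]
    refine Finset.sum_congr rfl fun a ha => ?_
    rw [integral_finsetSum _ (fun b hb => hint a ha b hb)]
    refine Finset.sum_congr rfl fun b hb => ?_
    rw [integral_const_mul, hw.termInt hT0 (hPs a ha).1 (hQs b hb).1]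
  have h3 : ((T * (∫ u, w u) * BK K1 P Q : ℝ) : ℂ) = ∑ a ∈ P.coeff.support, ∑ b ∈ Q.coeff.support,
      ((P.coeff a * Q.coeff b * (T * (∫ u, w u) * K1 a b) : ℝ) : ℂ) := by
    rw [BK, pair_def, Finset.mul_sum, Complex.ofReal_sum]
    refine Finset.sum_congr rfl fun a _ => ?_
    rw [pair_def, Finset.mul_sum, Finset.mul_sum, Complex.ofReal_sum]
    refine Finset.sum_congr rfl fun b _ => ?_
    congr 1
    ring
  rw [h2, h3, ← Finset.sum_sub_distrib]
  simp_rw [← Finset.sum_sub_distrib]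
  set x : ℕ → ℝ := fun a => |P.coeff a| * (a : ℝ) ^ (-(1 / 2) : ℝ) with hx
  set y : ℕ → ℝ := fun a => |Q.coeff a| * (a : ℝ) ^ (-(1 / 2) : ℝ) with hy
  have hx0 : ∀ a, 0 ≤ x a := fun a => by positivity
  have hy0 : ∀ a, 0 ≤ y a := fun a => by positivity
  set r : ℕ → ℕ → ℝ := fun a b => if a = b then 0 else ((Real.log b - Real.log a) ^ 2)⁻¹ with hr
  have h4 : ∀ a ∈ P.coeff.support, ∀ b ∈ Q.coeff.support,
      ‖((P.coeff a * Q.coeff b : ℝ) : ℂ) *
        ((((a : ℝ) ^ (-(1 / 2) : ℝ) * (b : ℝ) ^ (-(1 / 2) : ℝ) : ℝ) : ℂ) *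
        (T * ∫ u : ℝ, (w u : ℂ) * cexp (I * (((Real.log b - Real.log a) * T : ℝ) : ℂ) * u)))
        - ((P.coeff a * Q.coeff b * (T * (∫ u, w u) * K1 a b) : ℝ) : ℂ)‖
      ≤ C / T * (x a * y b * r a b) := by
    intro a ha b hb
    have ha1 := (hPs a ha).1
    have hb1 := (hQs b hb).1
    have ha0 : (0 : ℝ) < a := by exact_mod_cast ha1
    have hb0 : (0 : ℝ) < b := by exact_mod_cast hb1
    by_cases hab : a = b
    · subst hab
      have e : (a : ℝ) ^ (-(1 / 2) : ℝ) * (a : ℝ) ^ (-(1 / 2) : ℝ) = (a : ℝ)⁻¹ := by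
        rw [← Real.rpow_add ha0, ← Real.rpow_neg_one]
        norm_num
      have e2 : (∫ u : ℝ, (w u : ℂ) * cexp (I * (((Real.log a - Real.log a) * T : ℝ) : ℂ) * u)) =
          (((∫ u, w u) : ℝ) : ℂ) := by
        rw [← integral_complex_ofReal]
        congr 1
        funext u
        simp
      rw [e, e2, K1, if_pos rfl]
      simp only [hr, if_true, mul_zero]
      rw [norm_le_zero_iff, sub_eq_zero]
      push_cast
      ring
    · rw [K1, if_neg hab]
      simp only [hr, if_neg hab, mul_zero, Complex.ofReal_zero, sub_zero]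
      set ξ : ℝ := (Real.log b - Real.log a) * T with hξ
      have hl : Real.log b - Real.log a ≠ 0 := by
        intro h
        apply hab
        have := Real.log_injOn_pos (Set.mem_Ioi.2 hb0) (Set.mem_Ioi.2 ha0) (sub_eq_zero.1 h)
        exact_mod_cast this.symm
      have hξ0 : 0 < ξ ^ 2 := by
        have : ξ ≠ 0 := mul_ne_zero hl hT0.ne'
        positivity
      have h5 := hw.four ξ
      rw [norm_mul, norm_mul, norm_mul, Complex.norm_real, Complex.norm_real, Complex.norm_real,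
        Real.norm_eq_abs, Real.norm_eq_abs, Real.norm_eq_abs, abs_mul, abs_of_pos hT0,
        abs_of_nonneg (by positivity : (0:ℝ) ≤ (a : ℝ) ^ (-(1 / 2) : ℝ) * (b : ℝ) ^ (-(1 / 2) : ℝ))]
      have h6 : ‖∫ u : ℝ, (w u : ℂ) * cexp (I * (ξ : ℂ) * u)‖ ≤ C / ξ ^ 2 := by
        rw [le_div_iff₀ hξ0]; exact h5
      calc |P.coeff a| * |Q.coeff b| * ((a : ℝ) ^ (-(1 / 2) : ℝ) * (b : ℝ) ^ (-(1 / 2) : ℝ) *
            (T * ‖∫ u : ℝ, (w u : ℂ) * cexp (I * (ξ : ℂ) * u)‖))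
          ≤ |P.coeff a| * |Q.coeff b| * ((a : ℝ) ^ (-(1 / 2) : ℝ) * (b : ℝ) ^ (-(1 / 2) : ℝ) *
            (T * (C / ξ ^ 2))) := by gcongr
        _ = C / T * (x a * y b * ((Real.log b - Real.log a) ^ 2)⁻¹) := by
            simp only [hx, hy, hξ, mul_pow]
            field_simp
  refine (norm_sum_le _ _).trans ?_
  refine (Finset.sum_le_sum fun a ha => (norm_sum_le _ _).trans
    (Finset.sum_le_sum fun b hb => h4 a ha b hb)).trans ?_
  have h5 := off_diag (by linarith : (0:ℝ) ≤ N1) (by linarith : (0:ℝ) ≤ N2) hPs hQs x y hx0 hy0 r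
    (by intro a _ b _ hab; simp only [hr, if_neg hab]; exact le_rfl)
    (by intro a _ b _ hab; simp only [hr, if_pos hab]; exact le_rfl)
  have h6 : ∑ a ∈ P.coeff.support, ∑ b ∈ Q.coeff.support, C / T * (x a * y b * r a b) =
      C / T * ∑ a ∈ P.coeff.support, ∑ b ∈ Q.coeff.support, x a * y b * r a b := by
    simp only [Finset.mul_sum]
  rw [h6, En_eq (fun n hn => (hP n hn).1), En_eq (fun n hn => (hQ n hn).1)]
  refine (mul_le_mul_of_nonneg_left h5 (by positivity)).trans (le_of_eq ?_)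
  ring

end Pool.Agent.Lib.J4
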