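import Pool.Agent.Lib.MP_f9aece_nt_h4.MVT
import Pool.Agent.Lib.MP_f9aece_nt_h20.ContZeta

/-!
From smooth weights to the shifted moments, upper half near the fourth moment (module M1).
-/

set_option autoImplicit false

namespace Pool.Agent.Lib.J4

open MeasureTheory Set Filter Topology Complex
open scoped ComplexConjugate
open Pool.Agent.Lib.MP_f9aece_nt (DP pair BK K1 ev ev1 evh PP VV Smo expo EE mom)
open Pool.Agent.Lib.MP_f9aece_nt_h20.Cz (continuous_zeta)

namespace M1

/-- an integral over an interval on which the weight is one -/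
lemma int_le_of_one {w : ℝ → ℝ} {θ C T c d : ℝ} (hw : Wgt w θ C) (hT : 0 < T) (hcd : c ≤ d)
    {F : ℝ → ℝ} (hF : Continuous F) (hF0 : ∀ t, 0 ≤ F t) (h1 : ∀ t, c ≤ t → t ≤ d → w (t / T) = 1) :
    ∫ t in c..d, F t ≤ ∫ t : ℝ, w (t / T) * F t := by
  have hcw : Continuous fun t : ℝ => w (t / T) := hw.continuous.comp (continuous_id.div_const T)
  have hcs : HasCompactSupport fun t : ℝ => w (t / T) := by
    refine HasCompactSupport.intro (isCompact_Icc (a := θ * T) (b := 2 * T)) fun x hx => ?_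
    exact hw.zero_of_notMem hT hx
  have hi : Integrable fun t : ℝ => w (t / T) * F t :=
    (hcw.mul hF).integrable_of_hasCompactSupport hcs.mul_right
  rw [intervalIntegral.integral_of_le hcd]
  have e : ∫ t in Ioc c d, F t = ∫ t in Ioc c d, w (t / T) * F t := by
    refine setIntegral_congr_fun measurableSet_Ioc fun t ht => ?_
    rw [h1 t ht.1.le ht.2, one_mul]
  rw [e]
  exact setIntegral_le_integral hi (Eventually.of_forall fun t => mul_nonneg (hw.nonneg _) (hF0 t))

lemma rpow_le_one_add {y β : ℝ} (hy : 0 ≤ y) (hβ0 : 0 ≤ β) (hβ : β ≤ 4) : y ^ β ≤ 1 + y ^ 4 := by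
  rcases le_total y 1 with h5 | h5
  · have := Real.rpow_le_one hy h5 hβ0
    have : 0 ≤ y ^ 4 := by positivity
    linarith
  · have h6 : y ^ β ≤ y ^ (4 : ℝ) := Real.rpow_le_rpow_of_exponent_le h5 hβ
    have h7 : y ^ (4 : ℝ) = y ^ 4 := by exact_mod_cast Real.rpow_natCast y 4
    rw [h7] at h6
    linarith

/-- dyadic summation -/
lemma dyadic {F : ℝ → ℝ} (hF : Continuous F) (hF0 : ∀ t, 0 ≤ F t) {T1 A b : ℝ} (hT1 : 1 ≤ T1)
    (hb : 0 ≤ b) (hA : ∫ t in (0 : ℝ)..T1, F t ≤ A)
    (h : ∀ X : ℝ, T1 ≤ X → ∫ t in (X / 2)..X, F t ≤ 1 / 2 * (X * Real.log X ^ b)) :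
    ∀ n : ℕ, ∀ X : ℝ, T1 ≤ X → X ≤ 2 ^ n * T1 → ∫ t in (0 : ℝ)..X, F t ≤ A + X * Real.log X ^ b := by
  have hint : ∀ x y : ℝ, IntervalIntegrable F volume x y := fun x y => hF.intervalIntegrable x y
  intro n
  induction n with
  | zero =>
    intro X h1 h2
    have : X = T1 := le_antisymm (by simpa using h2) h1
    rw [this]
    have h3 : 0 ≤ T1 * Real.log T1 ^ b :=
      mul_nonneg (by linarith) (Real.rpow_nonneg (Real.log_nonneg hT1) _)
    linarith
  | succ n ih =>
    intro X h1 h2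
    have hX : 0 < X := by linarith
    have hl : 0 ≤ Real.log X := Real.log_nonneg (by linarith)
    rw [← intervalIntegral.integral_add_adjacent_intervals (hint 0 (X / 2)) (hint (X / 2) X)]
    have h3 := h X h1
    have h4 : 0 ≤ X * Real.log X ^ b := mul_nonneg hX.le (Real.rpow_nonneg hl _)
    rcases le_total (X / 2) T1 with h5 | h5
    · have h6 : ∫ t in (0 : ℝ)..(X / 2), F t ≤ ∫ t in (0 : ℝ)..T1, F t := by
        refine intervalIntegral.integral_mono_interval le_rfl (by linarith) h5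
          (Eventually.of_forall fun t => hF0 t) (hint _ _)
      linarith
    · have h6 := ih (X / 2) h5 (by rw [pow_succ] at h2; linarith)
      have h7 : Real.log (X / 2) ^ b ≤ Real.log X ^ b :=
        Real.rpow_le_rpow (Real.log_nonneg (by linarith))
          (Real.log_le_log (by linarith) (by linarith)) hb
      have h8 : X / 2 * Real.log (X / 2) ^ b ≤ X / 2 * Real.log X ^ b :=
        mul_le_mul_of_nonneg_left h7 (by linarith)
      linarith

lemma dyadic' {F : ℝ → ℝ} (hF : Continuous F) (hF0 : ∀ t, 0 ≤ F t) {T1 A b : ℝ} (hT1 : 1 ≤ T1)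
    (hb : 0 ≤ b) (hA : ∫ t in (0 : ℝ)..T1, F t ≤ A)
    (h : ∀ X : ℝ, T1 ≤ X → ∫ t in (X / 2)..X, F t ≤ 1 / 2 * (X * Real.log X ^ b)) (X : ℝ)
    (hX : T1 ≤ X) : ∫ t in (0 : ℝ)..X, F t ≤ A + X * Real.log X ^ b := by
  obtain ⟨n, hn⟩ := pow_unbounded_of_one_lt (X / T1) (by norm_num : (1 : ℝ) < 2)
  refine dyadic hF hF0 hT1 hb hA h n X hX ?_
  rw [div_lt_iff₀ (by linarith)] at hn
  exact hn.le

end M1

open M1

theorem upperFour (hU : UpperW) : UpperFour := by
  intro x ε hε
  set θ : ℝ := min (ε / 6) (1 / 4) with hθ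
  have hθ0 : 0 < θ := lt_min (by positivity) (by norm_num)
  have hθε : θ ≤ ε / 6 := min_le_left _ _
  have hθ4 : θ ≤ 1 / 4 := min_le_right _ _
  obtain ⟨C1, hw1⟩ := wgtTrap (1 / 4) 2 (1 / 4) (by norm_num) (by norm_num) (by norm_num) le_rfl
  obtain ⟨C2, hw2⟩ := wgtTrap (θ / 2) (1 + 2 * θ) (θ / 2) (by positivity) (by positivity)
    (by linarith) (by linarith)
  obtain ⟨a1, ha1, _, T1, hT1, h1⟩ := hU _ _ _ (by norm_num) (by norm_num) hw1 1 one_pos
  obtain ⟨a2, ha2, _, T2, hT2, h2⟩ := hU _ _ _ (by positivity) (by linarith) hw2 θ hθ0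
  have hi1 : ∫ u, trap (1 / 4) 2 (1 / 4) u = 3 / 2 := by
    rw [trap_eq_trap, H4.MVal.integral_trap (by norm_num) (by norm_num)]; norm_num
  have hi2 : ∫ u, trap (θ / 2) (1 + 2 * θ) (θ / 2) u = 1 + θ := by
    rw [trap_eq_trap, H4.MVal.integral_trap (by positivity) (by linarith)]; ring
  have hcz := continuous_zeta
  set A : ℝ := ∫ t in (0 : ℝ)..T1, (1 + ‖riemannZeta (1 / 2 + I * t)‖ ^ 4) with hA
  set B : ℝ := ∫ t in (-|x|)..(0 : ℝ), (1 + ‖riemannZeta (1 / 2 + I * t)‖ ^ 4) with hB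
  have hA0 : 0 ≤ A := intervalIntegral.integral_nonneg (by linarith) fun t _ => by positivity
  have hxa : 0 ≤ |x| := abs_nonneg x
  have hB0 : 0 ≤ B := intervalIntegral.integral_nonneg (by linarith) fun t _ => by positivity
  refine ⟨min (4 * a1) (min (4 * a2) 2), lt_min (by positivity) (lt_min (by positivity) (by norm_num)),
    max (max T1 T2) (max (Real.exp 1) (max (T1 / θ) (max (|x| / θ) ((A + B) / θ)))), ?_⟩
  intro β hβ hβ4 T hT
  have m1 := min_le_left (4 * a1) (min (4 * a2) 2)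
  have m2 := (min_le_right (4 * a1) (min (4 * a2) 2)).trans (min_le_left _ _)
  have m3 := (min_le_right (4 * a1) (min (4 * a2) 2)).trans (min_le_right _ _)
  have hTT1 : T1 ≤ T := ((le_max_left _ _).trans (le_max_left _ _)).trans hT
  have hTT2 : T2 ≤ T := ((le_max_right _ _).trans (le_max_left _ _)).trans hT
  have hTr := (le_max_right _ _).trans hT
  have hTe : Real.exp 1 ≤ T := (le_max_left _ _).trans hTr
  have hTr2 := (le_max_right _ _).trans hTr
  have hT3 : T1 / θ ≤ T := (le_max_left _ _).trans hTr2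
  have hTr3 := (le_max_right _ _).trans hTr2
  have hT4 : |x| / θ ≤ T := (le_max_left _ _).trans hTr3
  have hT5 : (A + B) / θ ≤ T := (le_max_right _ _).trans hTr3
  rw [div_le_iff₀ hθ0] at hT3 hT4 hT5
  have hTpos : 0 < T := lt_of_lt_of_le (Real.exp_pos 1) hTe
  have hlog : 1 ≤ Real.log T := by rwa [Real.le_log_iff_exp_le hTpos]
  have hβ2 : 2 ≤ β := by linarith
  set a := 1 - β / 4 with ha
  have hβa : β = 4 * (1 - a) := by rw [ha]; ring
  have hb : β ^ 2 / 4 = 4 * (1 - a) ^ 2 := by rw [hβa]; ring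
  have ha0 : 0 ≤ a := by linarith
  set b : ℝ := 4 * (1 - a) ^ 2 with hbdef
  have hb0 : 0 ≤ b := by positivity
  set F : ℝ → ℝ := fun t => ‖riemannZeta (1 / 2 + I * t)‖ ^ β with hFdef
  have hF : Continuous F := hcz.norm.rpow_const fun _ => Or.inr (by linarith)
  have hF0 : ∀ t, 0 ≤ F t := fun t => by rw [hFdef]; positivity
  have hF4 : ∀ t, F t ≤ 1 + ‖riemannZeta (1 / 2 + I * t)‖ ^ 4 :=
    fun t => rpow_le_one_add (norm_nonneg _) (by linarith) hβ4
  have hint : ∀ y z : ℝ, IntervalIntegrable F volume y z := fun y z => hF.intervalIntegrable y z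
  have hint4 : ∀ y z : ℝ, IntervalIntegrable (fun t : ℝ => 1 + ‖riemannZeta (1 / 2 + I * t)‖ ^ 4) volume y z :=
    fun y z => (continuous_const.add (hcz.norm.pow 4)).intervalIntegrable y z
  have hmom : mom β x T = (∫ t in x..(x + T), F t) / T := by
    have h2 := intervalIntegral.integral_comp_mul_add (a := 0) (b := 1) F hTpos.ne' x
    simp only [mul_zero, zero_add, mul_one, smul_eq_mul] at h2
    unfold mom
    rw [add_comm T x] at h2
    rw [div_eq_inv_mul (∫ t in x..(x + T), F t) T, ← h2]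
    refine intervalIntegral.integral_congr fun u _ => ?_
    simp only [hFdef]
    congr 3
    push_cast
    ring
  have hpi : 1 / (2 * Real.pi ^ 2) ≤ 1 / 18 := by
    refine one_div_le_one_div_of_le (by norm_num) ?_
    have h9 : (3 : ℝ) ^ 2 ≤ Real.pi ^ 2 := pow_le_pow_left₀ (by norm_num) Real.pi_gt_three.le 2
    linarith only [h9]
  have hpi0 : 0 < 1 / (2 * Real.pi ^ 2) := by have := Real.pi_pos; positivity
  -- the block estimate
  have hblock : ∀ X : ℝ, T1 ≤ X → ∫ t in (X / 2)..X, F t ≤ 1 / 2 * (X * Real.log X ^ b) := by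
    intro X hX
    have hX0 : 0 < X := by linarith
    have h3 := h1 a ha0 (by linarith) X hX
    rw [← hβa, hi1] at h3
    have h4 := int_le_of_one hw1 hX0 (by linarith : X / 2 ≤ X) hF hF0 (by
      intro t ht1 ht2
      rw [trap_eq_trap]
      refine H4.MVal.trap_one (by norm_num) ?_ ?_
      · rw [le_div_iff₀ hX0]; linarith
      · rw [div_le_iff₀ hX0]; linarith)
    have h5 : 0 ≤ X * Real.log X ^ b :=
      mul_nonneg hX0.le (Real.rpow_nonneg (Real.log_nonneg (by linarith)) _)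
    refine (h4.trans h3).trans ?_
    refine mul_le_mul_of_nonneg_right ?_ h5
    linarith
  have hAF : ∫ t in (0 : ℝ)..T1, F t ≤ A :=
    intervalIntegral.integral_mono_on (by linarith) (hint _ _) (hint4 _ _) fun t _ => hF4 t
  have hBF : ∫ t in (-|x|)..(0 : ℝ), F t ≤ B :=
    intervalIntegral.integral_mono_on (by linarith) (hint _ _) (hint4 _ _) fun t _ => hF4 t
  have hθT : 0 < θ * T := by positivity
  have h3 := dyadic' hF hF0 hT1 hb0 hAF hblock (θ * T) (by linarith)
  have h4 : Real.log (θ * T) ^ b ≤ Real.log T ^ b := by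
    refine Real.rpow_le_rpow (Real.log_nonneg (by linarith)) (Real.log_le_log hθT ?_) hb0
    exact mul_le_of_le_one_left hTpos.le (hθ4.trans (by norm_num))
  set lb := Real.log T ^ b with hlb
  have hlb1 : 1 ≤ lb := Real.one_le_rpow hlog hb0
  have h5 : ∫ t in (θ * T)..((1 + θ) * T), F t ≤ (1 + 2 * θ) * (1 / (2 * Real.pi ^ 2)) * (T * lb) := by
    have h6 := h2 a ha0 (by linarith) T hTT2
    rw [← hβa, hi2] at h6
    have hc : θ * T ≤ (1 + θ) * T := mul_le_mul_of_nonneg_right (by linarith only) hTpos.le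
    have hone : ∀ t : ℝ, θ * T ≤ t → t ≤ (1 + θ) * T →
        trap (θ / 2) (1 + 2 * θ) (θ / 2) (t / T) = 1 := by
      intro t ht1 ht2
      rw [trap_eq_trap]
      refine H4.MVal.trap_one (half_pos hθ0) ?_ ?_
      · rw [le_div_iff₀ hTpos, add_halves]
        exact ht1
      · rw [div_le_iff₀ hTpos]
        exact ht2.trans (mul_le_mul_of_nonneg_right (by linarith only [hθ0]) hTpos.le)
    have h7 := int_le_of_one hw2 hTpos hc hF hF0 hone
    refine (h7.trans h6).trans (le_of_eq ?_)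
    ring
  have h6 : ∫ t in x..(x + T), F t ≤ ∫ t in (-|x|)..((1 + θ) * T), F t := by
    refine intervalIntegral.integral_mono_interval (neg_abs_le x) (by linarith) ?_
      (Eventually.of_forall fun t => hF0 t) (hint _ _)
    have := le_abs_self x
    linarith
  have h7 : ∫ t in (-|x|)..((1 + θ) * T), F t = (∫ t in (-|x|)..(0 : ℝ), F t) +
      (∫ t in (0 : ℝ)..(θ * T), F t) + ∫ t in (θ * T)..((1 + θ) * T), F t := by
    rw [intervalIntegral.integral_add_adjacent_intervals (hint _ _) (hint _ _),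
      intervalIntegral.integral_add_adjacent_intervals (hint _ _) (hint _ _)]
  rw [hmom, hb, div_le_iff₀ hTpos, ← hlb]
  have h8 : θ * T * Real.log (θ * T) ^ b ≤ θ * T * lb := mul_le_mul_of_nonneg_left h4 hθT.le
  have h9 : A + B ≤ θ * (T * lb) := by
    calc A + B ≤ T * θ := hT5
      _ = θ * (T * 1) := by ring
      _ ≤ θ * (T * lb) := by gcongr
  have h10 : 0 ≤ T * lb := by positivity
  have h11 : (1 + 2 * θ) * (1 / (2 * Real.pi ^ 2)) * (T * lb) ≤
      (1 / (2 * Real.pi ^ 2) + θ) * (T * lb) := by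
    refine mul_le_mul_of_nonneg_right ?_ h10
    have e1 : θ * (1 / (2 * Real.pi ^ 2)) ≤ θ * (1 / 18) := mul_le_mul_of_nonneg_left hpi hθ0.le
    have e2 : (1 + 2 * θ) * (1 / (2 * Real.pi ^ 2)) =
        1 / (2 * Real.pi ^ 2) + 2 * (θ * (1 / (2 * Real.pi ^ 2))) := by ring
    rw [e2]
    linarith only [e1, hθ0]
  have k1 : ∫ t in (0 : ℝ)..(θ * T), F t ≤ A + θ * T * lb := h3.trans (add_le_add le_rfl h8)
  have k2 : ∫ t in x..(x + T), F t ≤ B + (A + θ * T * lb) + (1 / (2 * Real.pi ^ 2) + θ) * (T * lb) := by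
    refine h6.trans ?_
    rw [h7]
    exact add_le_add (add_le_add hBF k1) (h5.trans h11)
  clear_value F A B lb
  refine k2.trans ?_
  have k3 : B + (A + θ * T * lb) + (1 / (2 * Real.pi ^ 2) + θ) * (T * lb) =
      (A + B) + (1 / (2 * Real.pi ^ 2) + 2 * θ) * (T * lb) := by ring
  have k4 : (1 / (2 * Real.pi ^ 2) + ε) * lb * T = (1 / (2 * Real.pi ^ 2) + ε) * (T * lb) := by ring
  rw [k3, k4]
  calc (A + B) + (1 / (2 * Real.pi ^ 2) + 2 * θ) * (T * lb)
      ≤ θ * (T * lb) + (1 / (2 * Real.pi ^ 2) + 2 * θ) * (T * lb) := add_le_add h9 le_rfl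
    _ = (1 / (2 * Real.pi ^ 2) + 3 * θ) * (T * lb) := by ring
    _ ≤ (1 / (2 * Real.pi ^ 2) + ε) * (T * lb) := by
        refine mul_le_mul_of_nonneg_right ?_ h10
        have : 3 * θ ≤ ε := by linarith only [hθε, hθ0, hε]
        exact add_le_add le_rfl this

end Pool.Agent.Lib.J4
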