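import Pool.Agent.Lib.MP_f9aece_nt_h4.MVT

/-!
Supports, lengths and coefficient sums for the mean values with the short polynomial.
-/

set_option autoImplicit false

namespace Pool.Agent.Lib.J4.NInt

open MeasureTheory Set Filter Topology Complex
open scoped ComplexConjugate
open Pool.Agent.Lib.MP_f9aece_nt (DP pair BK K1 ev ev1 evh PP VV Smo expo EE mom ev_apply
  pair_def continuous_ev)
open Pool.Agent.H20.Chi (chi norm_chi continuous_chi)

lemma coeff_mul_ne {f g : DP} {n : ℕ} (h : (f * g).coeff n ≠ 0) :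
    ∃ a b, f.coeff a ≠ 0 ∧ g.coeff b ≠ 0 ∧ a * b = n := by
  classical
  by_contra hc
  push Not at hc
  apply h
  rw [MonoidAlgebra.coeff_mul]
  refine Finset.sum_eq_zero fun a ha => Finset.sum_eq_zero fun b hb => ?_
  simp only
  rw [if_neg]
  exact hc a b (Finsupp.mem_support_iff.1 ha) (Finsupp.mem_support_iff.1 hb)

lemma DF_coeff (f : ℝ → ℝ) (N n : ℕ) :
    (DF f N).coeff n = if n ∈ Finset.Icc 1 N then dv n * f (Real.log n) else 0 := by
  classical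
  unfold DF
  have h1 : (∑ n ∈ Finset.Icc 1 N, (MonoidAlgebra.single n (dv n * f (Real.log n)) : DP)).coeff n =
      ∑ m ∈ Finset.Icc 1 N, (MonoidAlgebra.single m (dv m * f (Real.log m)) : DP).coeff n := by
    induction (Finset.Icc 1 N) using Finset.induction_on with
    | empty => simp
    | insert a s ha ih =>
      rw [Finset.sum_insert ha, Finset.sum_insert ha, MonoidAlgebra.coeff_add, Finsupp.add_apply, ih]
  rw [h1]
  simp only [MonoidAlgebra.coeff_single, Finsupp.single_apply]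
  rw [Finset.sum_ite_eq']

lemma cu_nonneg (c w x : ℝ) : 0 ≤ cu c w x := Real.smoothTransition.nonneg _
lemma cu_le_one (c w x : ℝ) : cu c w x ≤ 1 := Real.smoothTransition.le_one _

lemma dv_nonneg (n : ℕ) : 0 ≤ dv n := Nat.cast_nonneg _

/-- support of the short polynomial -/
lemma Dm_supp {σ T : ℝ} (hσ : 0 < σ) (hT : 1 < T) {n : ℕ} (h : (Dm σ T).coeff n ≠ 0) :
    1 ≤ n ∧ (n : ℝ) ≤ T ^ (1 - σ) := by
  unfold Dm at h
  rw [DF_coeff] at h
  have hL : 0 < Real.log T := Real.log_pos hT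
  have h1 : n ∈ Finset.Icc 1 ⌊T⌋₊ := by
    by_contra h'
    rw [if_neg h'] at h
    exact h rfl
  rw [if_pos h1] at h
  have hn := (Finset.mem_Icc.1 h1).1
  refine ⟨hn, ?_⟩
  have h2 : cu (Real.log T - σ * Real.log T) (σ * Real.log T) (Real.log n) ≠ 0 := right_ne_zero_of_mul h
  have h3 : Real.log n < Real.log T - σ * Real.log T := by
    by_contra h'
    push Not at h'
    apply h2
    unfold cu
    refine Real.smoothTransition.zero_of_nonpos (div_nonpos_of_nonpos_of_nonneg (by linarith) ?_)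
    positivity
  have hn0 : (0 : ℝ) < n := by exact_mod_cast hn
  rw [← Real.exp_log hn0, Real.rpow_def_of_pos (by linarith)]
  exact Real.exp_le_exp.2 (by linarith)

lemma En_nonneg {P : DP} (hP : ∀ n, P.coeff n ≠ 0 → 1 ≤ n) : 0 ≤ En P := by
  rw [En_eq hP]
  exact Finset.sum_nonneg fun _ _ => sq_nonneg _

lemma evha_nonneg (P : DP) : 0 ≤ evha P := Finset.sum_nonneg fun _ _ => by positivity

/-- `evha` against the energy -/
lemma evha_sq_le {P : DP} {N : ℝ} (hN : 0 ≤ N) (hP : ∀ n, P.coeff n ≠ 0 → 1 ≤ n ∧ (n : ℝ) ≤ N) :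
    evha P ^ 2 ≤ N * En P := by
  have hs : ∀ a ∈ P.coeff.support, 1 ≤ a ∧ (a : ℝ) ≤ N :=
    fun a ha => hP a (Finsupp.mem_support_iff.mp ha)
  rw [En_eq fun n hn => (hP n hn).1]
  have h1 : evha P = ∑ a ∈ P.coeff.support, |P.coeff a| * (a : ℝ) ^ (-(1 / 2) : ℝ) := by
    refine Finset.sum_congr rfl fun a _ => ?_
    rw [Real.rpow_neg (Nat.cast_nonneg _), ← Real.sqrt_eq_rpow, div_eq_mul_inv]
  have h2 := H4.MVal.sum_le_sqrt hN hs (fun a => |P.coeff a| * (a : ℝ) ^ (-(1 / 2) : ℝ))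
  rw [← h1] at h2
  have h3 := pow_le_pow_left₀ (evha_nonneg P) h2 2
  refine h3.trans (le_of_eq ?_)
  rw [mul_pow, Real.sq_sqrt hN, Real.sq_sqrt (Finset.sum_nonneg fun _ _ => sq_nonneg _)]

/-- energy of the short polynomial -/
lemma En_Dm_le (hD : D2Sum) : ∃ K : ℝ, 0 ≤ K ∧ ∀ σ T : ℝ, 0 < σ → 1 < T →
    En (Dm σ T) ≤ K * (1 + Real.log T) ^ 4 := by
  obtain ⟨C, hC, h⟩ := hD
  refine ⟨1 + C, by linarith, fun σ T hσ hT => ?_⟩
  have hL : 0 < Real.log T := Real.log_pos hT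
  rw [En_eq fun n hn => (Dm_supp hσ hT hn).1]
  have hN : 1 ≤ ⌊T⌋₊ := Nat.le_floor (by push_cast; exact hT.le)
  have h1 : ∑ a ∈ (Dm σ T).coeff.support, (|(Dm σ T).coeff a| * (a : ℝ) ^ (-(1 / 2) : ℝ)) ^ 2 ≤
      ∑ n ∈ Finset.Icc 1 ⌊T⌋₊, dv n ^ 2 / (n : ℝ) := by
    have hsub : (Dm σ T).coeff.support ⊆ Finset.Icc 1 ⌊T⌋₊ := by
      intro a ha
      have h2 := Finsupp.mem_support_iff.1 ha
      by_contra h'
      apply h2
      unfold Dm
      rw [DF_coeff, if_neg h']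
    refine (Finset.sum_le_sum fun a ha => ?_).trans
      (Finset.sum_le_sum_of_subset_of_nonneg hsub fun _ _ _ => by positivity)
    have ha' := hsub ha
    rw [mul_pow, rpow_half_sq (Finset.mem_Icc.1 ha').1, sq_abs, div_eq_mul_inv]
    refine mul_le_mul_of_nonneg_right ?_ (by positivity)
    unfold Dm
    rw [DF_coeff, if_pos ha', mul_pow]
    have h3 : cu (Real.log T - σ * Real.log T) (σ * Real.log T) (Real.log a) ^ 2 ≤ 1 := by
      rw [sq_le_one_iff₀ (cu_nonneg _ _ _)]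
      exact cu_le_one _ _ _
    nlinarith [sq_nonneg (dv a)]
  have h2 := (abs_le.1 (h ⌊T⌋₊ hN)).2
  have h3 : Real.log ⌊T⌋₊ ≤ Real.log T :=
    Real.log_le_log (by exact_mod_cast hN) (Nat.floor_le (by linarith))
  have h4 : 0 ≤ Real.log (⌊T⌋₊ : ℝ) := Real.log_natCast_nonneg _
  have h5 : Real.log (⌊T⌋₊ : ℝ) ^ 4 / (4 * Real.pi ^ 2) ≤ (1 + Real.log T) ^ 4 := by
    have hpi : 1 ≤ 4 * Real.pi ^ 2 := by nlinarith [Real.pi_gt_three]
    calc Real.log (⌊T⌋₊ : ℝ) ^ 4 / (4 * Real.pi ^ 2) ≤ Real.log (⌊T⌋₊ : ℝ) ^ 4 / 1 :=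
          div_le_div_of_nonneg_left (by positivity) (by norm_num) hpi
      _ ≤ (1 + Real.log T) ^ 4 := by
          rw [div_one]
          exact pow_le_pow_left₀ h4 (by linarith) 4
  have h6 : (1 + Real.log (⌊T⌋₊ : ℝ)) ^ 3 ≤ (1 + Real.log T) ^ 4 := by
    calc (1 + Real.log (⌊T⌋₊ : ℝ)) ^ 3 ≤ (1 + Real.log T) ^ 3 := pow_le_pow_left₀ (by linarith) (by linarith) 3
      _ ≤ (1 + Real.log T) ^ 4 := pow_le_pow_right₀ (by linarith) (by norm_num)
  calc _ ≤ ∑ n ∈ Finset.Icc 1 ⌊T⌋₊, dv n ^ 2 / (n : ℝ) := h1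
    _ ≤ Real.log (⌊T⌋₊ : ℝ) ^ 4 / (4 * Real.pi ^ 2) + C * (1 + Real.log (⌊T⌋₊ : ℝ)) ^ 3 := by linarith
    _ ≤ (1 + Real.log T) ^ 4 + C * (1 + Real.log T) ^ 4 := by
        gcongr
    _ = _ := by ring

/-- support of the block products -/
lemma Bt_supp (hB : BtLen) {v p0 : ℕ} (hv : 2 ≤ v) (hp : 2 ≤ p0) {T Λ τ : ℝ} (hT : 1 < T)
    (hΛ : 0 < Λ) (hτ : 200000 * v ≤ τ * Λ) {J : ℕ} {c : ℝ} {s : Finset ℕ}
    (hs : s ∈ (Finset.range J).powerset) {n : ℕ}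
    (hn : (Bt c v p0 (Real.log T / Λ) 0 J s).coeff n ≠ 0) : 1 ≤ n ∧ (n : ℝ) ≤ T ^ τ := by
  have hL : 0 < Real.log T := Real.log_pos hT
  rw [Finset.range_eq_Ico] at hs
  have h1 := hB v p0 hv hp (Real.log T / Λ) (by positivity) 0 J c s hs n hn
  refine ⟨h1.1, ?_⟩
  have hn0 : (0 : ℝ) < n := by exact_mod_cast h1.1
  rw [← Real.exp_log hn0, Real.rpow_def_of_pos (by linarith)]
  refine Real.exp_le_exp.2 (h1.2.trans ?_)
  have h2 : Yg v (Real.log T / Λ) 0 = Real.log T / Λ := by simp [Yg]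
  rw [h2]
  push_cast
  have h3 : 200000 * (v : ℝ) * (0 + 1) * (Real.log T / Λ) = 200000 * v * Real.log T / Λ := by ring
  rw [h3, div_le_iff₀ hΛ]
  nlinarith

/-- `∫ w |P|^2` from above -/
lemma int_sq_le (hM : MVT) {w : ℝ → ℝ} {θ C : ℝ} (hθ : 0 < θ) (hw : Wgt w θ C) :
    ∃ C1 : ℝ, 0 ≤ C1 ∧ ∀ T N : ℝ, 1 ≤ T → 1 ≤ N → ∀ P : DP,
    (∀ n, P.coeff n ≠ 0 → 1 ≤ n ∧ (n : ℝ) ≤ N) →
    ∫ t : ℝ, w (t / T) * ‖ev t P‖ ^ 2 ≤ (T * (∫ u, w u) + C1 / T * N ^ 2) * En P := by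
  obtain ⟨C1, hC1, h⟩ := hM w θ C hθ hw
  refine ⟨2 * C1, by positivity, fun T N hT hN P hP => ?_⟩
  have h1 := h T N N hT hN le_rfl P P hP hP
  have hE := En_nonneg fun n hn => (hP n hn).1
  have e1 : (∫ t : ℝ, (w (t / T) : ℂ) * (ev t P * conj (ev t P))) =
      (((∫ t : ℝ, w (t / T) * ‖ev t P‖ ^ 2) : ℝ) : ℂ) := by
    rw [← integral_complex_ofReal]
    congr 1
    funext t
    rw [Complex.mul_conj, Complex.normSq_eq_norm_sq]
    push_cast
    ring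
  rw [e1, ← Complex.ofReal_sub, Complex.norm_real, Real.norm_eq_abs] at h1
  have h2 := (abs_le.1 h1).2
  have h3 : Real.sqrt (N * N) = N := Real.sqrt_mul_self (by linarith)
  have h4 : Real.sqrt (En P) * Real.sqrt (En P) = En P := Real.mul_self_sqrt hE
  rw [h3] at h2
  have h5 : C1 / T * (N + N ^ 2) * Real.sqrt (En P) * Real.sqrt (En P) ≤ 2 * C1 / T * N ^ 2 * En P := by
    rw [mul_assoc, h4]
    have h6 : N + N ^ 2 ≤ 2 * N ^ 2 := by nlinarith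
    have h7 : 0 ≤ C1 / T := by positivity
    calc C1 / T * (N + N ^ 2) * En P ≤ C1 / T * (2 * N ^ 2) * En P := by gcongr
      _ = _ := by ring
  have h8 : BK K1 P P = En P := rfl
  rw [h8] at h2
  nlinarith

end Pool.Agent.Lib.J4.NInt
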