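import Pool.Agent.Lib.MP_f9aece_nt_h4.Inc

/-!
Two-dimensional partial summation for products `p₁(x) p(y) q(x + y)`.
-/

set_option autoImplicit false

open Finset

namespace Pool.Agent.H4.Crux

/-- truncation to `[lo, hi]` -/
noncomputable def clip (lo hi x : ℝ) : ℝ := max lo (min x hi)

lemma clip_mono (lo hi : ℝ) : Monotone (clip lo hi) := fun _ _ h =>
  max_le_max le_rfl (min_le_min h le_rfl)

lemma clip_nonneg_sub {lo hi s t : ℝ} (h : s ≤ t) : 0 ≤ clip lo hi t - clip lo hi s :=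
  sub_nonneg.2 (clip_mono lo hi h)

lemma clip_sub_le {lo hi : ℝ} (h : lo ≤ hi) (s t : ℝ) :
    clip lo hi t - clip lo hi s ≤ hi - lo := by
  unfold clip
  have h1 : max lo (min t hi) ≤ hi := max_le h (min_le_right _ _)
  have h2 : lo ≤ max lo (min s hi) := le_max_left _ _
  linarith

lemma clip_sub_le' (lo hi : ℝ) {s t : ℝ} (h : s ≤ t) :
    clip lo hi t - clip lo hi s ≤ t - s := by
  unfold clip
  rcases le_total t hi with h1 | h1
  · rcases le_total s hi with h2 | h2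
    · rw [min_eq_left h1, min_eq_left h2]
      rcases le_total lo s with h3 | h3
      · rw [max_eq_right h3, max_eq_right (h3.trans h)]
      · rw [max_eq_left h3]
        rcases le_total lo t with h4 | h4
        · rw [max_eq_right h4]; linarith
        · rw [max_eq_left h4]; linarith
    · rw [min_eq_left h1, min_eq_right h2]
      have : t = hi := le_antisymm h1 (h2.trans h)
      rw [this]; linarith
  · rw [min_eq_right h1]
    rcases le_total s hi with h2 | h2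
    · rw [min_eq_left h2]
      rcases le_total lo s with h3 | h3
      · rw [max_eq_right h3]
        rcases le_total lo hi with h4 | h4
        · rw [max_eq_right h4]; linarith
        · rw [max_eq_left h4]; linarith
      · rw [max_eq_left h3]
        rcases le_total lo hi with h4 | h4
        · rw [max_eq_right h4]; linarith
        · rw [max_eq_left h4]; linarith
    · rw [min_eq_right h2]; linarith

/-- a differentiable function vanishing outside `[lo, hi]` with derivative bounded by `K` -/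
lemma lip_supp {f f' : ℝ → ℝ} {K lo hi : ℝ} (hlo : lo ≤ hi)
    (hd : ∀ x, HasDerivAt f (f' x) x) (hK : ∀ x, |f' x| ≤ K)
    (hs : ∀ x, x < lo ∨ hi < x → f x = 0) {s t : ℝ} (hst : s ≤ t) :
    |f t - f s| ≤ K * (clip lo hi t - clip lo hi s) := by
  have hcont : Continuous f := continuous_iff_continuousAt.2 fun x => (hd x).continuousAt
  -- `f` vanishes at the end points
  have hlo0 : f lo = 0 := by
    have h1 : Filter.Tendsto f (nhdsWithin lo (Set.Iio lo)) (nhds (f lo)) :=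
      (hcont.tendsto lo).mono_left nhdsWithin_le_nhds
    have h2 : Filter.Tendsto f (nhdsWithin lo (Set.Iio lo)) (nhds 0) := by
      refine tendsto_const_nhds.congr' ?_
      filter_upwards [self_mem_nhdsWithin] with x hx
      exact (hs x (Or.inl hx)).symm
    exact tendsto_nhds_unique h1 h2
  have hhi0 : f hi = 0 := by
    have h1 : Filter.Tendsto f (nhdsWithin hi (Set.Ioi hi)) (nhds (f hi)) :=
      (hcont.tendsto hi).mono_left nhdsWithin_le_nhds
    have h2 : Filter.Tendsto f (nhdsWithin hi (Set.Ioi hi)) (nhds 0) := by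
      refine tendsto_const_nhds.congr' ?_
      filter_upwards [self_mem_nhdsWithin] with x hx
      exact (hs x (Or.inr hx)).symm
    exact tendsto_nhds_unique h1 h2
  have hclip : ∀ x, f (clip lo hi x) = f x := by
    intro x
    unfold clip
    rcases lt_or_ge hi x with h | h
    · rw [min_eq_right h.le, max_eq_right hlo, hhi0, hs x (Or.inr h)]
    · rw [min_eq_left h]
      rcases lt_or_ge x lo with h' | h'
      · rw [max_eq_left h'.le, hlo0, hs x (Or.inl h')]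
      · rw [max_eq_right h']
  rw [← hclip t, ← hclip s]
  have hle := clip_mono lo hi hst
  have := (convex_univ (𝕜 := ℝ) (E := ℝ)).norm_image_sub_le_of_norm_hasDerivWithin_le
    (f := f) (f' := f') (C := K) (fun x _ => (hd x).hasDerivWithinAt)
    (fun x _ => hK x) (Set.mem_univ (clip lo hi s)) (Set.mem_univ (clip lo hi t))
  rw [Real.norm_eq_abs, Real.norm_eq_abs, abs_of_nonneg (sub_nonneg.2 hle)] at this
  exact this

/-- mixed second difference -/
lemma mixed {p₁ p₁' p p' q q' q'' : ℝ → ℝ} {M₁ M₂ M₃ lo₁ hi₁ lo₂ hi₂ : ℝ}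
    (h₁ : lo₁ ≤ hi₁) (h₂ : lo₂ ≤ hi₂)
    (dp₁ : ∀ x, HasDerivAt p₁ (p₁' x) x) (dp : ∀ x, HasDerivAt p (p' x) x)
    (dq : ∀ x, HasDerivAt q (q' x) x) (dq' : ∀ x, HasDerivAt q' (q'' x) x)
    (b₁ : ∀ x, |p₁ x| ≤ M₁) (b₁' : ∀ x, |p₁' x| ≤ M₁)
    (b₂ : ∀ x, |p x| ≤ M₂) (b₂' : ∀ x, |p' x| ≤ M₂)
    (b₃ : ∀ x, |q x| ≤ M₃) (b₃' : ∀ x, |q' x| ≤ M₃) (b₃'' : ∀ x, |q'' x| ≤ M₃)
    (s₁ : ∀ x, x < lo₁ ∨ hi₁ < x → p₁ x = 0) (s₂ : ∀ x, x < lo₂ ∨ hi₂ < x → p x = 0)
    {x x' y y' : ℝ} (hx : x ≤ x') (hy : y ≤ y') :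
    |p₁ x' * p y' * q (x' + y') - p₁ x * p y' * q (x + y') - p₁ x' * p y * q (x' + y) +
      p₁ x * p y * q (x + y)| ≤
      4 * (M₁ * M₂ * M₃) * ((clip lo₁ hi₁ x' - clip lo₁ hi₁ x) *
        (clip lo₂ hi₂ y' - clip lo₂ hi₂ y)) := by
  have hM₁ : 0 ≤ M₁ := (abs_nonneg _).trans (b₁ 0)
  have hM₂ : 0 ≤ M₂ := (abs_nonneg _).trans (b₂ 0)
  have hM₃ : 0 ≤ M₃ := (abs_nonneg _).trans (b₃ 0)
  set K := 4 * (M₁ * M₂ * M₃) * (clip lo₂ hi₂ y' - clip lo₂ hi₂ y) with hK
  -- the derivative in `x` is small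
  have hψ : ∀ z, |(p₁' z * p y' * q (z + y') + p₁ z * p y' * q' (z + y')) -
      (p₁' z * p y * q (z + y) + p₁ z * p y * q' (z + y))| ≤ K := by
    intro z
    have hd : ∀ u, HasDerivAt (fun u => p₁' z * p u * q (z + u) + p₁ z * p u * q' (z + u))
        (p₁' z * (p' u * q (z + u) + p u * q' (z + u)) +
          p₁ z * (p' u * q' (z + u) + p u * q'' (z + u))) u := by
      intro u
      have e1 : HasDerivAt (fun u => q (z + u)) (q' (z + u)) u :=
        HasDerivAt.comp_const_add z u (dq (z + u))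
      have e2 : HasDerivAt (fun u => q' (z + u)) (q'' (z + u)) u :=
        HasDerivAt.comp_const_add z u (dq' (z + u))
      have e3 := (((dp u).const_mul (p₁' z)).mul e1).add (((dp u).const_mul (p₁ z)).mul e2)
      refine e3.congr_deriv ?_
      ring
    have hb : ∀ u, |p₁' z * (p' u * q (z + u) + p u * q' (z + u)) +
          p₁ z * (p' u * q' (z + u) + p u * q'' (z + u))| ≤ 4 * (M₁ * M₂ * M₃) := by
      intro u
      have i1 : |p' u * q (z + u)| ≤ M₂ * M₃ := by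
        rw [abs_mul]; exact mul_le_mul (b₂' u) (b₃ _) (abs_nonneg _) hM₂
      have i2 : |p u * q' (z + u)| ≤ M₂ * M₃ := by
        rw [abs_mul]; exact mul_le_mul (b₂ u) (b₃' _) (abs_nonneg _) hM₂
      have i3 : |p' u * q' (z + u)| ≤ M₂ * M₃ := by
        rw [abs_mul]; exact mul_le_mul (b₂' u) (b₃' _) (abs_nonneg _) hM₂
      have i4 : |p u * q'' (z + u)| ≤ M₂ * M₃ := by
        rw [abs_mul]; exact mul_le_mul (b₂ u) (b₃'' _) (abs_nonneg _) hM₂
      have j1 : |p₁' z * (p' u * q (z + u) + p u * q' (z + u))| ≤ M₁ * (M₂ * M₃ + M₂ * M₃) := by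
        rw [abs_mul]
        exact mul_le_mul (b₁' z) ((abs_add_le _ _).trans (add_le_add i1 i2)) (abs_nonneg _) hM₁
      have j2 : |p₁ z * (p' u * q' (z + u) + p u * q'' (z + u))| ≤ M₁ * (M₂ * M₃ + M₂ * M₃) := by
        rw [abs_mul]
        exact mul_le_mul (b₁ z) ((abs_add_le _ _).trans (add_le_add i3 i4)) (abs_nonneg _) hM₁
      refine (abs_add_le _ _).trans ((add_le_add j1 j2).trans (le_of_eq ?_))
      ring
    have hs : ∀ u, u < lo₂ ∨ hi₂ < u →
        (fun u => p₁' z * p u * q (z + u) + p₁ z * p u * q' (z + u)) u = 0 := by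
      intro u hu
      simp only [s₂ u hu]
      ring
    exact lip_supp h₂ hd hb hs hy
  have hD : ∀ z, HasDerivAt (fun z => p₁ z * p y' * q (z + y') - p₁ z * p y * q (z + y))
      ((p₁' z * p y' * q (z + y') + p₁ z * p y' * q' (z + y')) -
      (p₁' z * p y * q (z + y) + p₁ z * p y * q' (z + y))) z := by
    intro z
    have e1 : HasDerivAt (fun z => q (z + y')) (q' (z + y')) z :=
      HasDerivAt.comp_add_const z y' (dq (z + y'))
    have e2 : HasDerivAt (fun z => q (z + y)) (q' (z + y)) z :=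
      HasDerivAt.comp_add_const z y (dq (z + y))
    exact (((dp₁ z).mul_const (p y')).mul e1).sub (((dp₁ z).mul_const (p y)).mul e2)
  have hsD : ∀ z, z < lo₁ ∨ hi₁ < z →
      (fun z => p₁ z * p y' * q (z + y') - p₁ z * p y * q (z + y)) z = 0 := by
    intro z hz
    simp only [s₁ z hz]
    ring
  have := lip_supp h₁ hD hψ hsD hx
  refine le_trans (le_of_eq ?_) (this.trans (le_of_eq ?_))
  · congr 1
    ring
  · rw [hK]
    ring

/-- two-dimensional partial summation -/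
theorem abel2 (Φ : ℕ → ℕ → ℝ) (X Y : ℕ → ℂ) (K₁ K₂ V : ℝ) (n₁ n₂ : ℕ)
    (hX : ∀ j ≤ n₁ + 1, ‖∑ i ∈ range j, X i‖ ≤ K₁)
    (hY : ∀ j ≤ n₂ + 1, ‖∑ i ∈ range j, Y i‖ ≤ K₂)
    (hl₁ : ∀ j, Φ n₁ j = 0) (hl₂ : ∀ i, Φ i n₂ = 0)
    (hV : ∑ i ∈ range n₁, ∑ j ∈ range n₂,
      |Φ (i + 1) (j + 1) - Φ i (j + 1) - Φ (i + 1) j + Φ i j| ≤ V) :
    ‖∑ i ∈ range (n₁ + 1), X i * ∑ j ∈ range (n₂ + 1), (Φ i j : ℂ) * Y j‖ ≤ K₁ * K₂ * V := by
  have hK₁ : 0 ≤ K₁ := (norm_nonneg _).trans (hX 0 (Nat.zero_le _))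
  have hK₂ : 0 ≤ K₂ := (norm_nonneg _).trans (hY 0 (Nat.zero_le _))
  set f : ℕ → ℂ := fun i => ∑ j ∈ range (n₂ + 1), (Φ i j : ℂ) * Y j with hf
  have h1 : ∀ i, ‖f (i + 1) - f i‖ ≤ K₂ * ∑ j ∈ range n₂,
      |Φ (i + 1) (j + 1) - Φ i (j + 1) - Φ (i + 1) j + Φ i j| := by
    intro i
    have e1 : f (i + 1) - f i = ∑ j ∈ range (n₂ + 1), ((Φ (i + 1) j - Φ i j : ℝ) : ℂ) * Y j := by
      rw [hf]
      simp only
      rw [← Finset.sum_sub_distrib]
      refine Finset.sum_congr rfl fun j _ => ?_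
      push_cast
      ring
    rw [e1]
    refine Inc.abel _ _ _ _ n₂ hY (le_of_eq ?_)
    rw [hl₂, hl₂, sub_zero, Complex.ofReal_zero, norm_zero, zero_add]
    refine Finset.sum_congr rfl fun j _ => ?_
    rw [← Complex.ofReal_sub, Complex.norm_real, Real.norm_eq_abs]
    congr 1
    ring
  have h2 : f n₁ = 0 := by
    rw [hf]
    simp [hl₁]
  have h3 : ∑ i ∈ range (n₁ + 1), X i * ∑ j ∈ range (n₂ + 1), (Φ i j : ℂ) * Y j =
      ∑ i ∈ range (n₁ + 1), f i * X i := Finset.sum_congr rfl fun i _ => mul_comm _ _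
  rw [h3]
  have h4 := Inc.abel f X K₁ (K₂ * V) n₁ hX (by
    rw [h2, norm_zero, zero_add]
    calc ∑ i ∈ range n₁, ‖f (i + 1) - f i‖
        ≤ ∑ i ∈ range n₁, K₂ * ∑ j ∈ range n₂,
          |Φ (i + 1) (j + 1) - Φ i (j + 1) - Φ (i + 1) j + Φ i j| :=
          Finset.sum_le_sum fun i _ => h1 i
      _ = K₂ * ∑ i ∈ range n₁, ∑ j ∈ range n₂,
          |Φ (i + 1) (j + 1) - Φ i (j + 1) - Φ (i + 1) j + Φ i j| := by rw [Finset.mul_sum]
      _ ≤ K₂ * V := mul_le_mul_of_nonneg_left hV hK₂)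
  rw [mul_assoc]
  exact h4

end Pool.Agent.H4.Crux
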