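import Pool.Agent.Lib.MP_f9aece_nt_h4.Weight

/-!
Fourier transform of the weight, mean values of Dirichlet polynomials against it, and the
function `G`.
-/

set_option autoImplicit false

open Real MeasureTheory

namespace Pool.Agent.H4.Crux

lemma integrable_gauss (T : ℝ) (hT : 0 < T) (b : ℝ) (hb : 0 < b) (l : ℝ) :
    Integrable (fun t : ℝ => Complex.exp (-(t * l) * Complex.I) *
      ((exp (-(b * (t / T) ^ 2)) : ℝ) : ℂ)) := by
  have h1 : Integrable (fun t : ℝ => exp (-(b / T ^ 2) * t ^ 2)) :=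
    integrable_exp_neg_mul_sq (by positivity)
  have h2 : Integrable (fun t : ℝ => ((exp (-(b * (t / T) ^ 2)) : ℝ) : ℂ)) := by
    refine (h1.ofReal (𝕜 := ℂ)).congr (Filter.Eventually.of_forall fun t => ?_)
    simp only
    congr 2
    field_simp
  refine h2.bdd_mul (c := 1) ?_ ?_
  · exact (Complex.continuous_exp.comp (by fun_prop)).aestronglyMeasurable
  · refine Filter.Eventually.of_forall fun t => ?_
    have : -(↑t * ↑l) * Complex.I = ((-(t * l) : ℝ) : ℂ) * Complex.I := by push_cast; ring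
    rw [this, Complex.norm_exp_ofReal_mul_I]

lemma integral_gauss (T : ℝ) (hT : 0 < T) (b : ℝ) (hb : 0 < b) (l : ℝ) :
    ∫ t : ℝ, Complex.exp (-(t * l) * Complex.I) * ((exp (-(b * (t / T) ^ 2)) : ℝ) : ℂ) =
      ((T * (√(π / b) * exp (-((T * l / 2) ^ 2 / b))) : ℝ) : ℂ) := by
  have hre : 0 < (((b / T ^ 2 : ℝ)) : ℂ).re := by
    rw [Complex.ofReal_re]; positivity
  have h := fourierIntegral_gaussian hre (-(l : ℂ))
  have e1 : ∀ t : ℝ, Complex.exp (-(t * l) * Complex.I) *
      ((exp (-(b * (t / T) ^ 2)) : ℝ) : ℂ) =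
      Complex.exp (Complex.I * (-(l : ℂ)) * t) *
        Complex.exp (-((b / T ^ 2 : ℝ) : ℂ) * (t : ℂ) ^ 2) := by
    intro t
    push_cast
    congr 2
    · ring
    · field_simp
  rw [integral_congr_ae (Filter.Eventually.of_forall e1), h]
  have e2 : ((π : ℂ) / ((b / T ^ 2 : ℝ) : ℂ)) ^ (1 / 2 : ℂ) = ((T * √(π / b) : ℝ) : ℂ) := by
    have e3 : (π : ℂ) / ((b / T ^ 2 : ℝ) : ℂ) = ((T ^ 2 * (π / b) : ℝ) : ℂ) := by
      push_cast
      field_simp
    have hnn : (0 : ℝ) ≤ T ^ 2 * (π / b) := by positivity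
    rw [e3]
    have e4 : (1 / 2 : ℂ) = ((1 / 2 : ℝ) : ℂ) := by push_cast; rfl
    rw [e4, ← Complex.ofReal_cpow hnn, ← Real.sqrt_eq_rpow, Real.sqrt_mul (by positivity),
      Real.sqrt_sq hT.le]
  rw [e2]
  have e5 : -(-(l : ℂ)) ^ 2 / (4 * ((b / T ^ 2 : ℝ) : ℂ)) = ((-((T * l / 2) ^ 2 / b) : ℝ) : ℂ) := by
    push_cast
    field_simp
    ring
  rw [e5, ← Complex.ofReal_exp, ← Complex.ofReal_mul]
  congr 1
  ring

lemma integrable_w (T : ℝ) (hT : 0 < T) (l : ℝ) :
    Integrable (fun t : ℝ => Complex.exp (-(t * l) * Complex.I) * ((w (t / T) : ℝ) : ℂ)) := by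
  have h := (integrable_gauss T hT 1 one_pos l).sub (integrable_gauss T hT 2 two_pos l)
  refine h.congr (Filter.Eventually.of_forall fun t => ?_)
  simp only [w, Pi.sub_apply, one_mul]
  push_cast
  ring

/-- the Fourier transform of the weight -/
lemma integral_w (T : ℝ) (hT : 0 < T) (l : ℝ) :
    ∫ t : ℝ, Complex.exp (-(t * l) * Complex.I) * ((w (t / T) : ℝ) : ℂ) =
      ((T * W (T * l / (2 * π)) : ℝ) : ℂ) := by
  have h : ∀ t : ℝ, Complex.exp (-(t * l) * Complex.I) * ((w (t / T) : ℝ) : ℂ) =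
      Complex.exp (-(t * l) * Complex.I) * ((exp (-(1 * (t / T) ^ 2)) : ℝ) : ℂ) -
      Complex.exp (-(t * l) * Complex.I) * ((exp (-(2 * (t / T) ^ 2)) : ℝ) : ℂ) := by
    intro t
    simp only [w, one_mul]
    push_cast
    ring
  rw [integral_congr_ae (Filter.Eventually.of_forall h),
    integral_sub (integrable_gauss T hT 1 one_pos l) (integrable_gauss T hT 2 two_pos l),
    integral_gauss T hT 1 one_pos l, integral_gauss T hT 2 two_pos l, ← Complex.ofReal_sub]
  congr 1
  unfold W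
  have hpi : π ≠ 0 := Real.pi_ne_zero
  have e1 : π * (T * l / (2 * π)) = T * l / 2 := by field_simp
  rw [e1, div_one, div_one]
  ring

/-- mean value of a Dirichlet polynomial against the weight -/
theorem integral_norm_sq {ι : Type} (s : Finset ι) (c : ι → ℝ) (l : ι → ℝ) (T : ℝ)
    (hT : 0 < T) :
    ∫ t : ℝ, w (t / T) * ‖∑ j ∈ s, (c j : ℂ) * Complex.exp (-(t * l j) * Complex.I)‖ ^ 2 =
      T * ∑ j ∈ s, ∑ k ∈ s, c j * c k * W (T * (l j - l k) / (2 * π)) := by
  have hconj : ∀ t x : ℝ, (starRingEnd ℂ) (Complex.exp (-(t * x) * Complex.I)) =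
      Complex.exp (t * x * Complex.I) := by
    intro t x
    rw [← Complex.exp_conj]
    congr 1
    simp
  have h1 : ∀ t : ℝ, ((w (t / T) * ‖∑ j ∈ s, (c j : ℂ) *
      Complex.exp (-(t * l j) * Complex.I)‖ ^ 2 : ℝ) : ℂ) =
      ∑ j ∈ s, ∑ k ∈ s, ((c j * c k : ℝ) : ℂ) *
        (Complex.exp (-(t * (l j - l k : ℝ)) * Complex.I) * ((w (t / T) : ℝ) : ℂ)) := by
    intro t
    have h2 : ((‖∑ j ∈ s, (c j : ℂ) * Complex.exp (-(t * l j) * Complex.I)‖ ^ 2 : ℝ) : ℂ) =
        ∑ j ∈ s, ∑ k ∈ s, ((c j * c k : ℝ) : ℂ) *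
          Complex.exp (-(t * (l j - l k : ℝ)) * Complex.I) := by
      rw [Complex.ofReal_pow, ← Complex.mul_conj', map_sum, Finset.sum_mul_sum]
      refine Finset.sum_congr rfl fun j _ => Finset.sum_congr rfl fun k _ => ?_
      rw [map_mul, hconj, Complex.conj_ofReal]
      have : Complex.exp (-(t * (l j - l k : ℝ)) * Complex.I) =
          Complex.exp (-(t * l j) * Complex.I) * Complex.exp (t * l k * Complex.I) := by
        rw [← Complex.exp_add]
        congr 1
        push_cast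
        ring
      rw [this]
      push_cast
      ring
    rw [Complex.ofReal_mul, h2, Finset.mul_sum]
    refine Finset.sum_congr rfl fun j _ => ?_
    rw [Finset.mul_sum]
    refine Finset.sum_congr rfl fun k _ => ?_
    ring
  have h3 : ((∫ t : ℝ, w (t / T) * ‖∑ j ∈ s, (c j : ℂ) *
      Complex.exp (-(t * l j) * Complex.I)‖ ^ 2 : ℝ) : ℂ) =
      ((T * ∑ j ∈ s, ∑ k ∈ s, c j * c k * W (T * (l j - l k) / (2 * π)) : ℝ) : ℂ) := by
    rw [← integral_complex_ofReal, integral_congr_ae (Filter.Eventually.of_forall h1),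
      integral_finsetSum]
    · rw [Finset.mul_sum, Complex.ofReal_sum]
      refine Finset.sum_congr rfl fun j _ => ?_
      rw [integral_finsetSum]
      · rw [Finset.mul_sum, Complex.ofReal_sum]
        refine Finset.sum_congr rfl fun k _ => ?_
        rw [integral_const_mul, integral_w T hT, ← Complex.ofReal_mul]
        congr 1
        ring
      · intro k _
        exact (integrable_w T hT _).const_mul _
    · intro j _
      exact integrable_finsetSum _ fun k _ => (integrable_w T hT _).const_mul _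
  exact_mod_cast h3

end Pool.Agent.H4.Crux
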