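import Pool.Agent.Lib.MP_f9aece_nt_h4.Weight

/-!
The function `G y = sum_{h ≠ 0} W (h y)`: bounded, and well approximated by finite sums.
-/

set_option autoImplicit false

open Real Filter

namespace Pool.Agent.H4.Crux

/-- `sum_{h ≠ 0} 1 / h^2` -/
noncomputable def Z2 : ℝ := ∑' h : ℤ, 1 / (h : ℝ) ^ 2

lemma summable_Z2 : Summable fun h : ℤ => 1 / (h : ℝ) ^ 2 :=
  Real.summable_one_div_int_pow.2 one_lt_two

lemma Z2_nonneg : 0 ≤ Z2 := tsum_nonneg fun h => by positivity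

/-- `sum_{h ≠ 0} W (h y)` -/
noncomputable def G (y : ℝ) : ℝ := ∑' h : ℤ, if h = 0 then 0 else W (h * y)

lemma W_abs_le (k : ℕ) (y : ℝ) (hy : y ≠ 0) : |W y| ≤ CW k / y ^ (2 * k) := by
  have h1 := W_decay k y
  have hy2 : 0 < y ^ 2 := by positivity
  rw [pow_mul, le_div_iff₀ (by positivity), mul_comm]
  refine le_trans ?_ h1
  gcongr
  linarith

lemma term_le (k : ℕ) (y : ℝ) (hy : 0 < y) (h : ℤ) :
    ‖(if h = 0 then 0 else W (h * y) : ℝ)‖ ≤ CW 1 / y ^ 2 * (1 / (h : ℝ) ^ 2) := by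
  split_ifs with h0
  · subst h0; simp
  · have hh : (h : ℝ) ≠ 0 := Int.cast_ne_zero.2 h0
    rw [Real.norm_eq_abs]
    refine (W_abs_le 1 _ (mul_ne_zero hh hy.ne')).trans (le_of_eq ?_)
    field_simp
    ring

lemma summable_G (y : ℝ) (hy : 0 < y) :
    Summable fun h : ℤ => (if h = 0 then 0 else W (h * y) : ℝ) :=
  Summable.of_norm_bounded (summable_Z2.mul_left _) (term_le 1 y hy)

lemma summable_exp_sq (c : ℝ) (hc : 0 < c) : Summable fun h : ℤ => exp (-(c * (h : ℝ) ^ 2)) := by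
  refine Summable.of_norm_bounded_eventually (g := fun h : ℤ => 1 / c * (1 / (h : ℝ) ^ 2))
    (summable_Z2.mul_left _) ?_
  have : ∀ᶠ h : ℤ in cofinite, h ≠ 0 := by
    rw [eventually_cofinite]
    simp
  filter_upwards [this] with h hh
  have hh' : (0 : ℝ) < (h : ℝ) ^ 2 := by
    have : (h : ℝ) ≠ 0 := Int.cast_ne_zero.2 hh
    positivity
  rw [norm_of_nonneg (exp_pos _).le, exp_neg]
  have h1 : c * (h : ℝ) ^ 2 ≤ exp (c * (h : ℝ) ^ 2) := by
    have := add_one_le_exp (c * (h : ℝ) ^ 2)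
    linarith
  calc (exp (c * (h : ℝ) ^ 2))⁻¹ ≤ (c * (h : ℝ) ^ 2)⁻¹ := inv_anti₀ (by positivity) h1
    _ = 1 / c * (1 / (h : ℝ) ^ 2) := by field_simp

/-- Poisson summation for the weight -/
lemma poisson (y : ℝ) (hy : 0 < y) :
    ∑' h : ℤ, W (h * y) = 1 / y * ∑' h : ℤ, w (h / y) := by
  have hpi := Real.pi_pos
  have h1 := Real.tsum_exp_neg_mul_int_sq (a := π * y ^ 2) (by positivity)
  have h2 := Real.tsum_exp_neg_mul_int_sq (a := π * y ^ 2 / 2) (by positivity)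
  have s1 : Summable fun h : ℤ => exp (-(π * ((h : ℝ) * y)) ^ 2) := by
    refine (summable_exp_sq (π ^ 2 * y ^ 2) (by positivity)).congr fun h => ?_
    congr 1; ring
  have s2 : Summable fun h : ℤ => exp (-((π * ((h : ℝ) * y)) ^ 2 / 2)) := by
    refine (summable_exp_sq (π ^ 2 * y ^ 2 / 2) (by positivity)).congr fun h => ?_
    congr 1; ring
  have s3 : Summable fun h : ℤ => exp (-((h : ℝ) / y) ^ 2) := by
    refine (summable_exp_sq (1 / y ^ 2) (by positivity)).congr fun h => ?_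
    congr 1; field_simp
  have s4 : Summable fun h : ℤ => exp (-(2 * ((h : ℝ) / y) ^ 2)) := by
    refine (summable_exp_sq (2 / y ^ 2) (by positivity)).congr fun h => ?_
    congr 1; field_simp
  have e1 : ∑' h : ℤ, W (h * y) = √π * ∑' h : ℤ, exp (-(π * ((h : ℝ) * y)) ^ 2) -
      √(π / 2) * ∑' h : ℤ, exp (-((π * ((h : ℝ) * y)) ^ 2 / 2)) := by
    rw [← tsum_mul_left, ← tsum_mul_left, ← (s1.mul_left _).tsum_sub (s2.mul_left _)]
    rfl
  have e2 : ∑' h : ℤ, w (h / y) = ∑' h : ℤ, exp (-((h : ℝ) / y) ^ 2) -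
      ∑' h : ℤ, exp (-(2 * ((h : ℝ) / y) ^ 2)) := by
    rw [← s3.tsum_sub s4]
    rfl
  have e3 : ∑' h : ℤ, exp (-(π * ((h : ℝ) * y)) ^ 2) =
      ∑' h : ℤ, exp (-π * (π * y ^ 2) * (h : ℝ) ^ 2) := by
    congr 1; funext h; congr 1; ring
  have e4 : ∑' h : ℤ, exp (-((π * ((h : ℝ) * y)) ^ 2 / 2)) =
      ∑' h : ℤ, exp (-π * (π * y ^ 2 / 2) * (h : ℝ) ^ 2) := by
    congr 1; funext h; congr 1; ring
  have e5 : ∑' h : ℤ, exp (-((h : ℝ) / y) ^ 2) =
      ∑' h : ℤ, exp (-π / (π * y ^ 2) * (h : ℝ) ^ 2) := by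
    congr 1; funext h; congr 1; field_simp
  have e6 : ∑' h : ℤ, exp (-(2 * ((h : ℝ) / y) ^ 2)) =
      ∑' h : ℤ, exp (-π / (π * y ^ 2 / 2) * (h : ℝ) ^ 2) := by
    congr 1; funext h; congr 1; field_simp
  rw [e1, e2, e3, e4, e5, e6, h1, h2, ← Real.sqrt_eq_rpow, ← Real.sqrt_eq_rpow]
  have r1 : √(π * y ^ 2) = √π * y := by
    rw [Real.sqrt_mul hpi.le, Real.sqrt_sq hy.le]
  have r2 : √(π * y ^ 2 / 2) = √(π / 2) * y := by
    have : π * y ^ 2 / 2 = π / 2 * y ^ 2 := by ring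
    rw [this, Real.sqrt_mul (by positivity), Real.sqrt_sq hy.le]
  rw [r1, r2]
  have p1 : √π ≠ 0 := by positivity
  have p2 : √(π / 2) ≠ 0 := by positivity
  field_simp

lemma G_eq (y : ℝ) (hy : 0 < y) : G y = ∑' h : ℤ, W (h * y) - W 0 := by
  have hs := summable_G y hy
  have h1 : Summable fun h : ℤ => W (h * y) := by
    refine hs.congr_cofinite ?_
    have : ∀ᶠ h : ℤ in cofinite, h ≠ 0 := by
      rw [eventually_cofinite]
      simp
    filter_upwards [this] with h hh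
    rw [if_neg hh]
  have h2 := h1.tsum_eq_add_tsum_ite 0
  rw [h2, G]
  simp

/-- `G` is bounded -/
theorem G_bound (y : ℝ) (hy : 0 < y) : |G y| ≤ CW 1 * Z2 + Z2 + CW 0 := by
  have hZ := Z2_nonneg
  have hC1 := CW_pos 1
  have hC0 := CW_pos 0
  rcases le_total 1 y with h1 | h1
  · have h2 : |G y| ≤ CW 1 / y ^ 2 * Z2 := by
      have := tsum_of_norm_bounded ((summable_Z2.mul_left (CW 1 / y ^ 2)).hasSum)
        (term_le 1 y hy)
      rw [tsum_mul_left] at this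
      exact this
    have h3 : CW 1 / y ^ 2 ≤ CW 1 := div_le_self hC1.le (by nlinarith)
    have h4 := mul_le_mul_of_nonneg_right h3 hZ
    linarith
  · rw [G_eq y hy, poisson y hy]
    have h2 : |∑' h : ℤ, w (h / y)| ≤ y ^ 2 * Z2 := by
      have := tsum_of_norm_bounded (f := fun h : ℤ => w (h / y))
        ((summable_Z2.mul_left (y ^ 2)).hasSum) (fun h => by
          by_cases h0 : h = 0
          · subst h0; simp [w_zero]
          · have hh : (h : ℝ) ≠ 0 := Int.cast_ne_zero.2 h0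
            rw [norm_of_nonneg (w_nonneg _)]
            refine (w_le _ (div_ne_zero hh hy.ne')).trans (le_of_eq ?_)
            field_simp)
      rw [tsum_mul_left] at this
      exact this
    have h3 : |1 / y * ∑' h : ℤ, w (h / y)| ≤ Z2 := by
      rw [abs_mul, abs_of_pos (by positivity)]
      calc 1 / y * |∑' h : ℤ, w (h / y)| ≤ 1 / y * (y ^ 2 * Z2) := by gcongr
        _ = y * Z2 := by field_simp
        _ ≤ 1 * Z2 := by gcongr
        _ = Z2 := one_mul _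
    calc |1 / y * ∑' h : ℤ, w (h / y) - W 0| ≤ |1 / y * ∑' h : ℤ, w (h / y)| + |W 0| := abs_sub _ _
      _ ≤ Z2 + CW 0 := add_le_add h3 (W_bound 0)
      _ ≤ _ := by nlinarith

/-- finite sums approximate `G` -/
theorem G_approx (k : ℕ) (y : ℝ) (hy : 0 < y) (H : ℕ) (hH : 1 ≤ H) (s : Finset ℤ)
    (hs : ∀ h : ℤ, h ∈ s ↔ h ≠ 0 ∧ |h| ≤ H) :
    |∑ h ∈ s, W (h * y) - G y| ≤ CW (k + 1) * Z2 / (y ^ (2 * (k + 1)) * (H : ℝ) ^ (2 * k)) := by
  have hsum := summable_G y hy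
  have h1 : ∑ h ∈ s, W (h * y) = ∑ h ∈ s, (if h = 0 then 0 else W (h * y) : ℝ) := by
    refine Finset.sum_congr rfl fun h hh => ?_
    rw [if_neg ((hs h).1 hh).1]
  have h2 := hsum.sum_add_tsum_compl (s := s)
  have h3 : ∑ h ∈ s, W (h * y) - G y =
      -∑' h : {h : ℤ // h ∉ s}, (if (h : ℤ) = 0 then 0 else W (h * y) : ℝ) := by
    rw [h1, G, ← h2, sub_add_cancel_left]
    rfl
  have hHpos : (0 : ℝ) < H := Nat.cast_pos.2 (by omega)
  set K := CW (k + 1) / (y ^ (2 * (k + 1)) * (H : ℝ) ^ (2 * k)) with hK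
  have hK0 : 0 ≤ K := by
    have := CW_pos (k + 1)
    positivity
  have h4 : ∀ h : {h : ℤ // h ∉ s}, ‖(if (h : ℤ) = 0 then 0 else W (h * y) : ℝ)‖ ≤
      K * (1 / ((h : ℤ) : ℝ) ^ 2) := by
    rintro ⟨h, hh⟩
    simp only
    split_ifs with h0
    · subst h0; simp
    · have hne : (h : ℝ) ≠ 0 := Int.cast_ne_zero.2 h0
      have hgt : (H : ℤ) < |h| := by
        by_contra hcon
        push Not at hcon
        exact hh ((hs h).2 ⟨h0, hcon⟩)
      have hgt' : (H : ℝ) ≤ |(h : ℝ)| := by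
        have : ((H : ℤ) : ℝ) ≤ ((|h| : ℤ) : ℝ) := Int.cast_le.2 hgt.le
        simpa using this
      rw [Real.norm_eq_abs]
      refine (W_abs_le (k + 1) _ (mul_ne_zero hne hy.ne')).trans ?_
      have e1 : ((h : ℝ) * y) ^ (2 * (k + 1)) = y ^ (2 * (k + 1)) * (|(h : ℝ)| ^ (2 * k) *
          (h : ℝ) ^ 2) := by
        rw [mul_pow, show 2 * (k + 1) = 2 * k + 2 from by ring, pow_add (h : ℝ),
          (even_two_mul k).pow_abs]
        ring
      rw [e1, hK, div_mul_div_comm, mul_one]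
      have hC := CW_pos (k + 1)
      have hp : (H : ℝ) ^ (2 * k) ≤ |(h : ℝ)| ^ (2 * k) := pow_le_pow_left₀ hHpos.le hgt' _
      have hsq : 0 < (h : ℝ) ^ 2 := by positivity
      apply div_le_div_of_nonneg_left hC.le (by positivity)
      rw [mul_assoc]
      gcongr
  have hsub : Summable fun h : {h : ℤ // h ∉ s} => 1 / ((h : ℤ) : ℝ) ^ 2 :=
    summable_Z2.comp_injective Subtype.val_injective
  have h5 := tsum_of_norm_bounded ((hsub.mul_left K).hasSum) h4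
  rw [h3, abs_neg]
  rw [Real.norm_eq_abs] at h5
  refine h5.trans ?_
  rw [tsum_mul_left]
  have h6 : ∑' h : {h : ℤ // h ∉ s}, 1 / ((h : ℤ) : ℝ) ^ 2 ≤ Z2 :=
    summable_Z2.tsum_subtype_le _ _ (fun h => by positivity)
  calc K * ∑' h : {h : ℤ // h ∉ s}, 1 / ((h : ℤ) : ℝ) ^ 2 ≤ K * Z2 := by gcongr
    _ = _ := by rw [hK]; ring

end Pool.Agent.H4.Crux
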