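import Pool.Agent.Lib.MP_f9aece_nt_h4.Inc

/-!
The sum `∑ gcd(κ, B) / ‖κ‖` over the nonzero residues.
-/

set_option autoImplicit false

open Finset

namespace Pool.Agent.H4.Crux

lemma harmonic_le (b : ℕ) : ∑ k ∈ range b, 1 / ((k : ℝ) + 1) ≤ 1 + Real.log b := by
  have h5 := harmonic_le_one_add_log b
  have h6 : ((harmonic b : ℚ) : ℝ) = ∑ k ∈ range b, 1 / ((k : ℝ) + 1) := by
    rw [harmonic]
    push_cast
    refine Finset.sum_congr rfl fun k _ => ?_
    rw [one_div]
  rw [← h6]
  exact h5

lemma gcd_sum_aux (B : ℕ) (hB : 0 < B) :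
    ∑ k ∈ range B with k ≠ 0, (Nat.gcd k B : ℝ) / k ≤ B.divisors.card * (1 + Real.log B) := by
  have h1 : ∀ k ∈ range B, k ≠ 0 → (Nat.gcd k B : ℝ) / k ≤
      ∑ d ∈ B.divisors, if d ∣ k then (d : ℝ) / k else 0 := by
    intro k _ hk
    have hmem : Nat.gcd k B ∈ B.divisors :=
      Nat.mem_divisors.2 ⟨Nat.gcd_dvd_right _ _, hB.ne'⟩
    refine le_trans ?_ (Finset.single_le_sum (f := fun d : ℕ => if d ∣ k then (d : ℝ) / k else 0)
      (fun d _ => ?_) hmem)
    · rw [if_pos (Nat.gcd_dvd_left _ _)]
    · split_ifs <;> positivity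
  calc ∑ k ∈ range B with k ≠ 0, (Nat.gcd k B : ℝ) / k
      ≤ ∑ k ∈ range B with k ≠ 0, ∑ d ∈ B.divisors, (if d ∣ k then (d : ℝ) / k else 0) := by
        refine Finset.sum_le_sum fun k hk => ?_
        rw [Finset.mem_filter] at hk
        exact h1 k hk.1 hk.2
    _ = ∑ d ∈ B.divisors, ∑ k ∈ range B with k ≠ 0, (if d ∣ k then (d : ℝ) / k else 0) :=
        Finset.sum_comm
    _ ≤ ∑ _d ∈ B.divisors, (1 + Real.log B) := by
        refine Finset.sum_le_sum fun d hd => ?_
        have hd0 : 0 < d := Nat.pos_of_mem_divisors hd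
        rw [← Finset.sum_filter]
        calc ∑ k ∈ ((range B).filter (fun k => k ≠ 0)).filter (fun k => d ∣ k), (d : ℝ) / k
            = ∑ k ∈ ((range B).filter (fun k => k ≠ 0)).filter (fun k => d ∣ k),
              1 / (((k / d - 1 : ℕ) : ℝ) + 1) := by
              refine Finset.sum_congr rfl fun k hk => ?_
              rw [Finset.mem_filter, Finset.mem_filter] at hk
              obtain ⟨⟨_, hk0⟩, j, rfl⟩ := hk
              have hj : 0 < j := Nat.pos_of_ne_zero fun h => hk0 (by rw [h, mul_zero])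
              rw [Nat.mul_div_cancel_left j hd0]
              have : ((j - 1 : ℕ) : ℝ) + 1 = j := by
                rw [Nat.cast_sub hj]; push_cast; ring
              rw [this]
              have hd' : (0 : ℝ) < d := Nat.cast_pos.2 hd0
              have hj' : (0 : ℝ) < j := Nat.cast_pos.2 hj
              push_cast
              field_simp
          _ ≤ ∑ j ∈ range B, 1 / ((j : ℝ) + 1) := by
              rw [← Finset.sum_image (f := fun j : ℕ => 1 / ((j : ℝ) + 1))
                (g := fun k : ℕ => k / d - 1)]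
              · refine Finset.sum_le_sum_of_subset_of_nonneg ?_ (fun j _ _ => by positivity)
                intro j hj
                rw [Finset.mem_image] at hj
                obtain ⟨k, hk, rfl⟩ := hj
                rw [Finset.mem_filter, Finset.mem_filter, Finset.mem_range] at hk
                rw [Finset.mem_range]
                have := Nat.div_le_self k d
                omega
              · intro k hk k' hk' h
                simp only [Finset.coe_filter, Finset.mem_filter, Set.mem_ofPred_eq] at hk hk'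
                obtain ⟨⟨_, hk0⟩, j, rfl⟩ := hk
                obtain ⟨⟨_, hk0'⟩, j', rfl⟩ := hk'
                have hj : 0 < j := Nat.pos_of_ne_zero fun h => hk0 (by rw [h, mul_zero])
                have hj' : 0 < j' := Nat.pos_of_ne_zero fun h => hk0' (by rw [h, mul_zero])
                simp only [Nat.mul_div_cancel_left _ hd0] at h
                have : j = j' := by omega
                rw [this]
          _ ≤ 1 + Real.log B := harmonic_le B
    _ = B.divisors.card * (1 + Real.log B) := by rw [Finset.sum_const, nsmul_eq_mul]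

lemma gcd_sum (B : ℕ) [NeZero B] :
    ∑ m : ZMod B with m ≠ 0, (Nat.gcd m.val B : ℝ) * (1 / (m.val : ℝ) + 1 / ((B : ℝ) - m.val)) ≤
      2 * (B.divisors.card * (1 + Real.log B)) := by
  have hB : 0 < B := NeZero.pos B
  have h1 : ∑ m : ZMod B with m ≠ 0,
      (Nat.gcd m.val B : ℝ) * (1 / (m.val : ℝ) + 1 / ((B : ℝ) - m.val)) =
      ∑ k ∈ range B with k ≠ 0, (Nat.gcd k B : ℝ) * (1 / (k : ℝ) + 1 / ((B : ℝ) - k)) := by
    rw [Finset.sum_filter, Finset.sum_filter, ← Inc.sum_zmod_val (B := B)
      (fun k => if k ≠ 0 then (Nat.gcd k B : ℝ) * (1 / (k : ℝ) + 1 / ((B : ℝ) - k)) else 0)]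
    refine Finset.sum_congr rfl fun m _ => ?_
    by_cases hm : m = 0
    · simp [hm]
    · rw [if_pos hm, if_pos ((ZMod.val_ne_zero m).2 hm)]
  rw [h1]
  have h2 : ∑ k ∈ range B with k ≠ 0, (Nat.gcd k B : ℝ) / ((B : ℝ) - k) =
      ∑ k ∈ range B with k ≠ 0, (Nat.gcd k B : ℝ) / k := by
    refine Finset.sum_bij' (fun k _ => B - k) (fun k _ => B - k) ?_ ?_ ?_ ?_ ?_
    · intro k hk
      rw [Finset.mem_filter, Finset.mem_range] at hk ⊢
      omega
    · intro k hk
      rw [Finset.mem_filter, Finset.mem_range] at hk ⊢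
      omega
    · intro k hk
      rw [Finset.mem_filter, Finset.mem_range] at hk
      omega
    · intro k hk
      rw [Finset.mem_filter, Finset.mem_range] at hk
      omega
    · intro k hk
      rw [Finset.mem_filter, Finset.mem_range] at hk
      rw [Nat.cast_sub hk.1.le]
      congr 2
      rw [Nat.gcd_comm, Nat.gcd_comm (B - k) B]
      exact (Nat.gcd_self_sub_right hk.1.le).symm
  have h3 := gcd_sum_aux B hB
  calc ∑ k ∈ range B with k ≠ 0, (Nat.gcd k B : ℝ) * (1 / (k : ℝ) + 1 / ((B : ℝ) - k))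
      = ∑ k ∈ range B with k ≠ 0, (Nat.gcd k B : ℝ) / k +
        ∑ k ∈ range B with k ≠ 0, (Nat.gcd k B : ℝ) / ((B : ℝ) - k) := by
        rw [← Finset.sum_add_distrib]
        refine Finset.sum_congr rfl fun k _ => ?_
        ring
    _ ≤ _ := by rw [h2]; linarith

end Pool.Agent.H4.Crux
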