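import Pool.Agent.Lib.MP_f9aece_nt_h20.Kloosterman

/-!
Incomplete Kloosterman sums: completion of `kl_bound` (helper20) and partial summation.
-/

set_option autoImplicit false

open Finset

namespace Pool.Agent.H4.Inc

open Pool.Agent.H20.Kloo

section Geom

variable {B : ℕ} [NeZero B]

lemma norm_char_sub_one (m : ZMod B) (hm : m ≠ 0) :
    4 * min (m.val : ℝ) ((B : ℝ) - m.val) / B ≤ ‖ZMod.stdAddChar m - 1‖ := by
  have hB : (0 : ℝ) < B := Nat.cast_pos.2 (NeZero.pos B)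
  have hx0 : 0 < m.val := Nat.pos_of_ne_zero ((ZMod.val_ne_zero m).2 hm)
  have hx0' : (0 : ℝ) < m.val := Nat.cast_pos.2 hx0
  have hxB : (m.val : ℝ) < B := Nat.cast_lt.2 (ZMod.val_lt m)
  have h1 : ZMod.stdAddChar m
      = Complex.exp (Complex.I * ((2 * Real.pi * m.val / B : ℝ) : ℂ)) := by
    conv_lhs => rw [← ZMod.natCast_zmod_val m]
    have := ZMod.stdAddChar_coe (N := B) (m.val : ℤ)
    push_cast at this ⊢
    rw [this]
    congr 1
    ring
  rw [h1, Complex.norm_exp_I_mul_ofReal_sub_one]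
  have h2 : 2 * Real.pi * m.val / B / 2 = Real.pi * (m.val / B) := by ring
  rw [h2]
  set t : ℝ := m.val / B with ht
  have ht0 : 0 < t := div_pos hx0' hB
  have ht1 : t < 1 := (div_lt_one hB).2 hxB
  have hpi := Real.pi_pos
  have h3 : 2 * min t (1 - t) ≤ Real.sin (Real.pi * t) := by
    rcases le_total t (1 - t) with h | h
    · rw [min_eq_left h]
      have h4 : 2 / Real.pi * (Real.pi * t) ≤ Real.sin (Real.pi * t) := by
        apply Real.mul_le_sin
        · positivity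
        · nlinarith
      have h5 : 2 / Real.pi * (Real.pi * t) = 2 * t := by field_simp
      linarith
    · rw [min_eq_right h]
      have h4 : 2 / Real.pi * (Real.pi * (1 - t)) ≤ Real.sin (Real.pi * (1 - t)) := by
        apply Real.mul_le_sin
        · exact mul_nonneg hpi.le (by linarith)
        · nlinarith
      have h5 : 2 / Real.pi * (Real.pi * (1 - t)) = 2 * (1 - t) := by field_simp
      have h6 : Real.sin (Real.pi * (1 - t)) = Real.sin (Real.pi * t) := by
        rw [mul_sub, mul_one, Real.sin_pi_sub]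
      linarith
  have h7 : 4 * min (m.val : ℝ) ((B : ℝ) - m.val) / B = 2 * (2 * min t (1 - t)) := by
    have : min t (1 - t) = min (m.val : ℝ) ((B : ℝ) - m.val) / B := by
      rw [← min_div_div_right hB.le, ht]
      congr 1
      rw [sub_div, div_self hB.ne']
    rw [this]
    ring
  rw [h7, Real.norm_eq_abs, abs_mul, abs_two]
  exact mul_le_mul_of_nonneg_left (h3.trans (le_abs_self _)) (by norm_num)

lemma geom_bound (m : ZMod B) (hm : m ≠ 0) (N : ℕ) :
    ‖∑ u ∈ range N, ZMod.stdAddChar (m * (u : ZMod B))‖ ≤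
      (B : ℝ) / 2 * (1 / (m.val : ℝ) + 1 / ((B : ℝ) - m.val)) := by
  have hB : (0 : ℝ) < B := Nat.cast_pos.2 (NeZero.pos B)
  have hx0 : 0 < m.val := Nat.pos_of_ne_zero ((ZMod.val_ne_zero m).2 hm)
  have hx0' : (0 : ℝ) < m.val := Nat.cast_pos.2 hx0
  have hxB : (m.val : ℝ) < B := Nat.cast_lt.2 (ZMod.val_lt m)
  have hxB' : (0 : ℝ) < (B : ℝ) - m.val := sub_pos.2 hxB
  set z := ZMod.stdAddChar m with hz
  have h1 := norm_char_sub_one m hm
  have hmin : 0 < min (m.val : ℝ) ((B : ℝ) - m.val) := lt_min hx0' hxB'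
  have hpos : 0 < 4 * min (m.val : ℝ) ((B : ℝ) - m.val) / B := by positivity
  have hzne : z ≠ 1 := by
    intro h
    rw [← hz, h, sub_self, norm_zero] at h1
    linarith
  have h2 : ∀ u : ℕ, ZMod.stdAddChar (m * (u : ZMod B)) = z ^ u := by
    intro u
    rw [hz, ← AddChar.map_nsmul_eq_pow, nsmul_eq_mul, mul_comm]
  rw [Finset.sum_congr rfl (fun u _ => h2 u), geom_sum_eq hzne, norm_div]
  have hz1 : ‖z‖ = 1 := by rw [hz]; exact AddChar.norm_apply _ _
  have h3 : ‖z ^ N - 1‖ ≤ 2 := by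
    refine (norm_sub_le _ _).trans ?_
    rw [norm_pow, hz1, one_pow, norm_one]
    norm_num
  calc ‖z ^ N - 1‖ / ‖z - 1‖ ≤ 2 / (4 * min (m.val : ℝ) ((B : ℝ) - m.val) / B) := by
        gcongr
    _ = (B : ℝ) / 2 * (1 / min (m.val : ℝ) ((B : ℝ) - m.val)) := by
        field_simp
        ring
    _ ≤ _ := by
        gcongr
        rcases le_total (m.val : ℝ) ((B : ℝ) - m.val) with h | h
        · rw [min_eq_left h]
          have : 0 < 1 / ((B : ℝ) - m.val) := by positivity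
          linarith
        · rw [min_eq_right h]
          have : 0 < 1 / (m.val : ℝ) := by positivity
          linarith

lemma sum_zmod_val (f : ℕ → ℝ) : ∑ m : ZMod B, f m.val = ∑ j ∈ range B, f j := by
  refine Finset.sum_bij' (fun m _ => m.val) (fun j _ => (j : ZMod B)) ?_ ?_ ?_ ?_ ?_
  · intro m _
    exact Finset.mem_range.2 (ZMod.val_lt m)
  · intro j _
    exact Finset.mem_univ _
  · intro m _
    exact ZMod.natCast_zmod_val m
  · intro j hj
    exact ZMod.val_cast_of_lt (Finset.mem_range.1 hj)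
  · intro m _
    rfl

lemma sum_inv_le : ∑ m : ZMod B with m ≠ 0, (1 / (m.val : ℝ) + 1 / ((B : ℝ) - m.val)) ≤
    2 * (1 + Real.log B) := by
  have hB0 : 0 < B := NeZero.pos B
  have h1 : ∑ m : ZMod B with m ≠ 0, (1 / (m.val : ℝ) + 1 / ((B : ℝ) - m.val))
      = ∑ j ∈ range B, (if j = 0 then 0 else (1 / (j : ℝ) + 1 / ((B : ℝ) - j))) := by
    rw [Finset.sum_filter, ← sum_zmod_val (B := B)
      (fun j => if j = 0 then (0 : ℝ) else (1 / (j : ℝ) + 1 / ((B : ℝ) - j)))]
    refine Finset.sum_congr rfl fun m _ => ?_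
    by_cases hm : m = 0
    · simp [hm]
    · rw [if_pos hm, if_neg ((ZMod.val_ne_zero m).2 hm)]
  rw [h1]
  obtain ⟨b, rfl⟩ : ∃ b, B = b + 1 := ⟨B - 1, by omega⟩
  rw [Finset.sum_range_succ', if_pos rfl, add_zero]
  have h2 : ∑ k ∈ range b, (if k + 1 = 0 then (0 : ℝ) else
      (1 / ((k + 1 : ℕ) : ℝ) + 1 / (((b + 1 : ℕ) : ℝ) - ((k + 1 : ℕ) : ℝ))))
      = ∑ k ∈ range b, 1 / ((k : ℝ) + 1) + ∑ k ∈ range b, 1 / ((k : ℝ) + 1) := by
    have h3 : ∀ k ∈ range b, (if k + 1 = 0 then (0 : ℝ) else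
        (1 / ((k + 1 : ℕ) : ℝ) + 1 / (((b + 1 : ℕ) : ℝ) - ((k + 1 : ℕ) : ℝ))))
        = 1 / ((k : ℝ) + 1) + 1 / (((b - 1 - k : ℕ) : ℝ) + 1) := by
      intro k hk
      have hk' : k < b := Finset.mem_range.1 hk
      rw [if_neg (Nat.succ_ne_zero k)]
      have : ((b - 1 - k : ℕ) : ℝ) + 1 = (b : ℝ) - k := by
        rw [Nat.sub_sub, Nat.cast_sub (by omega)]
        push_cast
        ring
      rw [this]
      push_cast
      congr 2
      ring
    rw [Finset.sum_congr rfl h3, Finset.sum_add_distrib]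
    congr 1
    exact Finset.sum_range_reflect (fun k => 1 / ((k : ℝ) + 1)) b
  rw [h2]
  have h4 : ∑ k ∈ range b, 1 / ((k : ℝ) + 1) ≤ 1 + Real.log (b + 1 : ℕ) := by
    have h5 := harmonic_le_one_add_log b
    have h6 : ((harmonic b : ℚ) : ℝ) = ∑ k ∈ range b, 1 / ((k : ℝ) + 1) := by
      rw [harmonic]
      push_cast
      refine Finset.sum_congr rfl fun k _ => ?_
      rw [one_div]
    rw [← h6]
    refine h5.trans ?_
    rcases Nat.eq_zero_or_pos b with hb | hb
    · subst hb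
      simp
    · have : Real.log b ≤ Real.log (b + 1 : ℕ) := by
        apply Real.log_le_log (Nat.cast_pos.2 hb)
        exact Nat.cast_le.2 (Nat.le_succ b)
      linarith
  linarith

end Geom

section Complete

variable {B : ℕ} [NeZero B]

/-- Completion identity. -/
lemma completion (c : ZMod B) (N : ℕ) :
    (B : ℂ) * ∑ u ∈ range N with Nat.Coprime u B, ZMod.stdAddChar (c * (u : ZMod B)⁻¹)
      = ∑ m : ZMod B, kl B m c * ∑ u ∈ range N, ZMod.stdAddChar (-m * (u : ZMod B)) := by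
  have hprim := ZMod.isPrimitive_stdAddChar B
  have horth : ∀ b : ZMod B, ∑ m : ZMod B, ZMod.stdAddChar (m * b)
      = if b = 0 then (B : ℂ) else 0 := by
    intro b
    have := AddChar.sum_mulShift (ψ := (ZMod.stdAddChar (N := B))) b hprim
    rw [this, ZMod.card]
    split_ifs <;> simp
  have h1 : ∑ m : ZMod B, kl B m c * ∑ u ∈ range N, ZMod.stdAddChar (-m * (u : ZMod B))
      = ∑ u ∈ range N, ∑ x : (ZMod B)ˣ, ZMod.stdAddChar (c * ((x⁻¹ : (ZMod B)ˣ) : ZMod B)) *
        ∑ m : ZMod B, ZMod.stdAddChar (m * ((x : ZMod B) - (u : ZMod B))) := by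
    simp_rw [kl, Finset.mul_sum, Finset.sum_mul]
    rw [Finset.sum_comm]
    refine Finset.sum_congr rfl fun u _ => ?_
    rw [Finset.sum_comm]
    refine Finset.sum_congr rfl fun x _ => Finset.sum_congr rfl fun m _ => ?_
    rw [← AddChar.map_add_eq_mul, ← AddChar.map_add_eq_mul]
    congr 1
    ring
  rw [h1, Finset.sum_filter, Finset.mul_sum]
  refine Finset.sum_congr rfl fun u _ => ?_
  simp_rw [horth]
  by_cases hu : Nat.Coprime u B
  · rw [if_pos hu]
    rw [Finset.sum_eq_single (ZMod.unitOfCoprime u hu)]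
    · rw [ZMod.coe_unitOfCoprime, sub_self, if_pos rfl, mul_comm]
      congr 3
    · intro x _ hx
      rw [if_neg, mul_zero]
      intro h
      apply hx
      apply Units.ext
      rw [ZMod.coe_unitOfCoprime]
      exact sub_eq_zero.1 h
    · intro h
      exact absurd (Finset.mem_univ _) h
  · rw [if_neg hu, mul_zero]
    symm
    refine Finset.sum_eq_zero fun x _ => ?_
    rw [if_neg, mul_zero]
    intro h
    apply hu
    rw [← ZMod.isUnit_iff_coprime]
    rw [← sub_eq_zero.1 h]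
    exact x.isUnit

/-- `B ≤ φ(B) τ(B)`. -/
lemma le_totient_mul_card (B : ℕ) (hB : 0 < B) : B ≤ B.totient * B.divisors.card := by
  calc B = ∑ d ∈ B.divisors, d.totient := (Nat.sum_totient B).symm
    _ ≤ ∑ _d ∈ B.divisors, B.totient := by
        refine Finset.sum_le_sum fun d hd => ?_
        exact Nat.le_of_dvd (Nat.totient_pos.2 hB)
          (Nat.totient_dvd_of_dvd (Nat.dvd_of_mem_divisors hd))
    _ = B.totient * B.divisors.card := by rw [Finset.sum_const, smul_eq_mul, mul_comm]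

/-- The constant in the incomplete Kloosterman bound. -/
noncomputable def KK (B : ℕ) (c : ZMod B) : ℝ :=
  (2 * (Nat.gcd c.val B : ℝ) * (B.divisors.card : ℝ) ^ 3 * (B : ℝ) ^ 3) ^ (1 / 4 : ℝ)

omit [NeZero B] in
lemma KK_nonneg (c : ZMod B) : 0 ≤ KK B c := Real.rpow_nonneg (by positivity) _

lemma kl_le (m c : ZMod B) : ‖kl B m c‖ ≤ KK B c := by
  have hB : 0 < B := NeZero.pos B
  have hphi : (0 : ℝ) < B.totient := Nat.cast_pos.2 (Nat.totient_pos.2 hB)
  have h1 := kl_bound m c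
  have h2 : ((B : ℕ) : ℝ) ≤ (B.totient : ℝ) * B.divisors.card := by
    exact_mod_cast le_totient_mul_card B hB
  have h3 : (Nat.gcd (Nat.gcd m.val c.val) B : ℝ) ≤ (Nat.gcd c.val B : ℝ) := by
    refine Nat.cast_le.2 (Nat.le_of_dvd (Nat.gcd_pos_of_pos_right _ hB) ?_)
    exact Nat.gcd_dvd_gcd_of_dvd_left _ (Nat.gcd_dvd_right _ _)
  have h4 : ‖kl B m c‖ ^ 4 ≤
      2 * (Nat.gcd c.val B : ℝ) * (B.divisors.card : ℝ) ^ 3 * (B : ℝ) ^ 3 := by
    rw [← mul_le_mul_iff_left₀ hphi]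
    calc ‖kl B m c‖ ^ 4 * (B.totient : ℝ)
        ≤ 2 * (Nat.gcd (Nat.gcd m.val c.val) B : ℝ) * (B.divisors.card : ℝ) ^ 2 * (B : ℝ) ^ 4 := h1
      _ ≤ 2 * (Nat.gcd c.val B : ℝ) * (B.divisors.card : ℝ) ^ 2 * (B : ℝ) ^ 4 := by gcongr
      _ = 2 * (Nat.gcd c.val B : ℝ) * (B.divisors.card : ℝ) ^ 2 * (B : ℝ) ^ 3 * B := by ring
      _ ≤ 2 * (Nat.gcd c.val B : ℝ) * (B.divisors.card : ℝ) ^ 2 * (B : ℝ) ^ 3 *
          ((B.totient : ℝ) * B.divisors.card) := by gcongr
      _ = _ := by ring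
  have h5 : ‖kl B m c‖ = (‖kl B m c‖ ^ 4) ^ (1 / 4 : ℝ) := by
    rw [← Real.rpow_natCast, ← Real.rpow_mul (norm_nonneg _)]
    norm_num
  rw [h5, KK]
  exact Real.rpow_le_rpow (by positivity) h4 (by norm_num)

/-- Incomplete Kloosterman sums. -/
theorem inc_range (c : ZMod B) (N : ℕ) :
    ‖∑ u ∈ range N with Nat.Coprime u B, ZMod.stdAddChar (c * (u : ZMod B)⁻¹)‖ ≤
      KK B c * ((N : ℝ) / B + 1 + Real.log B) := by
  classical
  have hB : (0 : ℝ) < B := Nat.cast_pos.2 (NeZero.pos B)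
  have h1 := completion c N
  have h2 : (B : ℝ) * ‖∑ u ∈ range N with Nat.Coprime u B,
      ZMod.stdAddChar (c * (u : ZMod B)⁻¹)‖ ≤ KK B c * (N + B * (1 + Real.log B)) := by
    have h3 : (B : ℝ) * ‖∑ u ∈ range N with Nat.Coprime u B,
        ZMod.stdAddChar (c * (u : ZMod B)⁻¹)‖
        = ‖(B : ℂ) * ∑ u ∈ range N with Nat.Coprime u B,
          ZMod.stdAddChar (c * (u : ZMod B)⁻¹)‖ := by
      rw [norm_mul]
      simp
    rw [h3, h1]
    calc ‖∑ m : ZMod B, kl B m c * ∑ u ∈ range N, ZMod.stdAddChar (-m * (u : ZMod B))‖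
        ≤ ∑ m : ZMod B, ‖kl B m c * ∑ u ∈ range N, ZMod.stdAddChar (-m * (u : ZMod B))‖ :=
          norm_sum_le _ _
      _ ≤ ∑ m : ZMod B, KK B c * ‖∑ u ∈ range N, ZMod.stdAddChar (-m * (u : ZMod B))‖ := by
          refine Finset.sum_le_sum fun m _ => ?_
          rw [norm_mul]
          exact mul_le_mul_of_nonneg_right (kl_le m c) (norm_nonneg _)
      _ = KK B c * ∑ m : ZMod B, ‖∑ u ∈ range N, ZMod.stdAddChar (-m * (u : ZMod B))‖ := by
          rw [Finset.mul_sum]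
      _ = KK B c * ∑ m : ZMod B, ‖∑ u ∈ range N, ZMod.stdAddChar (m * (u : ZMod B))‖ := by
          congr 1
          exact Fintype.sum_equiv (Equiv.neg _) _ _ (fun m => rfl)
      _ ≤ KK B c * (N + B * (1 + Real.log B)) := by
          refine mul_le_mul_of_nonneg_left ?_ (KK_nonneg c)
          rw [← Finset.sum_filter_add_sum_filter_not Finset.univ (fun m : ZMod B => m = 0)]
          have h4 : ∑ m : ZMod B with m = 0,
              ‖∑ u ∈ range N, ZMod.stdAddChar (m * (u : ZMod B))‖ = N := by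
            rw [Finset.filter_eq' Finset.univ (0 : ZMod B), if_pos (Finset.mem_univ _),
              Finset.sum_singleton]
            simp
          have h5 : ∑ m : ZMod B with ¬ m = 0,
              ‖∑ u ∈ range N, ZMod.stdAddChar (m * (u : ZMod B))‖ ≤ B * (1 + Real.log B) := by
            calc ∑ m : ZMod B with ¬ m = 0,
                ‖∑ u ∈ range N, ZMod.stdAddChar (m * (u : ZMod B))‖
                ≤ ∑ m : ZMod B with m ≠ 0,
                  (B : ℝ) / 2 * (1 / (m.val : ℝ) + 1 / ((B : ℝ) - m.val)) := by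
                  refine Finset.sum_le_sum fun m hm => ?_
                  exact geom_bound m (Finset.mem_filter.1 hm).2 N
              _ = (B : ℝ) / 2 * ∑ m : ZMod B with m ≠ 0,
                  (1 / (m.val : ℝ) + 1 / ((B : ℝ) - m.val)) := by rw [Finset.mul_sum]
              _ ≤ (B : ℝ) / 2 * (2 * (1 + Real.log B)) := by
                  gcongr
                  exact sum_inv_le
              _ = _ := by ring
          rw [h4]
          linarith
  rw [← mul_le_mul_iff_right₀ hB]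
  refine h2.trans (le_of_eq ?_)
  field_simp
  ring

/-- multiplication by the inverse of a unit does not increase the gcd with the modulus -/
lemma gcd_unit (c : ZMod B) (a : ℕ) (ha : Nat.Coprime a B) :
    Nat.gcd (c * (a : ZMod B)⁻¹).val B ≤ Nat.gcd c.val B := by
  have hB : 0 < B := NeZero.pos B
  refine Nat.le_of_dvd (Nat.gcd_pos_of_pos_right _ hB) (Nat.dvd_gcd ?_ (Nat.gcd_dvd_right _ _))
  set d := Nat.gcd (c * (a : ZMod B)⁻¹).val B with hd
  have hdB : d ∣ B := Nat.gcd_dvd_right _ _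
  rw [← castHom_eq_zero_iff hdB]
  have h1 : ZMod.castHom hdB (ZMod d) (c * (a : ZMod B)⁻¹) = 0 := by
    rw [castHom_eq_zero_iff hdB]
    exact Nat.gcd_dvd_left _ _
  have h2 : c = c * (a : ZMod B)⁻¹ * (a : ZMod B) := by
    rw [mul_assoc, mul_comm ((a : ZMod B)⁻¹), ZMod.coe_mul_inv_eq_one a ha, mul_one]
  rw [h2, map_mul, h1, zero_mul]

lemma KK_unit (c : ZMod B) (a : ℕ) (ha : Nat.Coprime a B) :
    KK B (c * (a : ZMod B)⁻¹) ≤ KK B c := by
  unfold KK
  refine Real.rpow_le_rpow (by positivity) ?_ (by norm_num)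
  have : (Nat.gcd (c * (a : ZMod B)⁻¹).val B : ℝ) ≤ (Nat.gcd c.val B : ℝ) :=
    Nat.cast_le.2 (gcd_unit c a ha)
  gcongr

end Complete

section Abel

/-- Abel summation. -/
lemma abel (f g : ℕ → ℂ) (K V : ℝ) (n : ℕ)
    (hK : ∀ j ≤ n + 1, ‖∑ i ∈ range j, g i‖ ≤ K)
    (hV : ‖f n‖ + ∑ i ∈ range n, ‖f (i + 1) - f i‖ ≤ V) :
    ‖∑ i ∈ range (n + 1), f i * g i‖ ≤ K * V := by
  have hK0 : 0 ≤ K := (norm_nonneg _).trans (hK 0 (Nat.zero_le _))
  have h1 : ∑ i ∈ range (n + 1), f i * g i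
      = f n * (∑ i ∈ range (n + 1), g i) -
        ∑ i ∈ range n, (f (i + 1) - f i) * ∑ j ∈ range (i + 1), g j := by
    have := Finset.sum_range_by_parts f g (n + 1)
    simpa [smul_eq_mul] using this
  rw [h1]
  calc ‖f n * (∑ i ∈ range (n + 1), g i) -
        ∑ i ∈ range n, (f (i + 1) - f i) * ∑ j ∈ range (i + 1), g j‖
      ≤ ‖f n * (∑ i ∈ range (n + 1), g i)‖ +
        ‖∑ i ∈ range n, (f (i + 1) - f i) * ∑ j ∈ range (i + 1), g j‖ := norm_sub_le _ _
    _ ≤ ‖f n‖ * K + ∑ i ∈ range n, ‖f (i + 1) - f i‖ * K := by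
        refine add_le_add ?_ ?_
        · rw [norm_mul]
          exact mul_le_mul_of_nonneg_left (hK _ le_rfl) (norm_nonneg _)
        · refine (norm_sum_le _ _).trans (Finset.sum_le_sum fun i hi => ?_)
          rw [norm_mul]
          exact mul_le_mul_of_nonneg_left
            (hK _ (Nat.succ_le_succ (Finset.mem_range.1 hi).le)) (norm_nonneg _)
    _ = K * (‖f n‖ + ∑ i ∈ range n, ‖f (i + 1) - f i‖) := by
        rw [← Finset.sum_mul]
        ring
    _ ≤ K * V := mul_le_mul_of_nonneg_left hV hK0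

/-- Total variation bound for functions with integrable derivative. -/
lemma variation_le (φ φ' : ℝ → ℂ) (X : ℝ) (hX : 0 ≤ X)
    (hd : ∀ x, 0 ≤ x → HasDerivAt φ (φ' x) x)
    (hint : ∀ a b, 0 ≤ a → 0 ≤ b → IntervalIntegrable φ' MeasureTheory.volume a b)
    (hsupp : ∀ x, X ≤ x → φ x = 0) (s : ℕ → ℝ) (hs : Monotone s) (hs0 : ∀ i, 0 ≤ s i) (n : ℕ) :
    ‖φ (s n)‖ + ∑ i ∈ range n, ‖φ (s (i + 1)) - φ (s i)‖ ≤ ∫ x in (0 : ℝ)..X, ‖φ' x‖ := by
  have hstep : ∀ a b, 0 ≤ a → a ≤ b → ‖φ b - φ a‖ ≤ ∫ x in a..b, ‖φ' x‖ := by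
    intro a b ha hab
    have h1 : ∫ x in a..b, φ' x = φ b - φ a := by
      refine intervalIntegral.integral_eq_sub_of_hasDerivAt (fun x hx => hd x ?_)
        (hint a b ha (ha.trans hab))
      rw [Set.uIcc_of_le hab] at hx
      exact ha.trans hx.1
    rw [← h1]
    exact intervalIntegral.norm_integral_le_integral_norm hab
  have hintn : ∀ a b, 0 ≤ a → 0 ≤ b →
      IntervalIntegrable (fun x => ‖φ' x‖) MeasureTheory.volume a b :=
    fun a b ha hb => (hint a b ha hb).norm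
  -- a bound with upper end `Y = max X (s n)`
  set Y := max X (s n) with hY
  have hY0 : 0 ≤ Y := hX.trans (le_max_left _ _)
  have h2 : ∑ i ∈ range n, ‖φ (s (i + 1)) - φ (s i)‖ ≤ ∫ x in (s 0)..(s n), ‖φ' x‖ := by
    have h3 : ∑ i ∈ range n, ∫ x in (s i)..(s (i + 1)), ‖φ' x‖ = ∫ x in (s 0)..(s n), ‖φ' x‖ :=
      intervalIntegral.sum_integral_adjacent_intervals fun i _ => hintn _ _ (hs0 _) (hs0 _)
    rw [← h3]
    exact Finset.sum_le_sum fun i _ => hstep _ _ (hs0 _) (hs (Nat.le_succ i))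
  have h4 : ‖φ (s n)‖ ≤ ∫ x in (s n)..Y, ‖φ' x‖ := by
    have h5 := hstep (s n) Y (hs0 n) (le_max_right _ _)
    rw [hsupp Y (le_max_left _ _), zero_sub, norm_neg] at h5
    exact h5
  have h6 : ∀ x, X < x → φ' x = 0 := by
    intro x hx
    have h7 : HasDerivAt φ 0 x := by
      refine (hasDerivAt_const x (0 : ℂ)).congr_of_eventuallyEq ?_
      filter_upwards [lt_mem_nhds hx] with y hy
      exact hsupp y hy.le
    exact (hd x (hX.trans hx.le)).unique h7
  have h8 : ∫ x in X..Y, ‖φ' x‖ = 0 := by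
    have h9 : ∫ x in X..Y, ‖φ' x‖ = ∫ x in X..Y, (0 : ℝ) := by
      refine intervalIntegral.integral_congr_ae (Filter.Eventually.of_forall fun x hx => ?_)
      rw [Set.uIoc_of_le (le_max_left _ _)] at hx
      rw [h6 x hx.1, norm_zero]
    rw [h9, intervalIntegral.integral_zero]
  have h10 : ∫ x in (0 : ℝ)..X, ‖φ' x‖ = (∫ x in (0 : ℝ)..(s 0), ‖φ' x‖) +
      ((∫ x in (s 0)..(s n), ‖φ' x‖) + ∫ x in (s n)..Y, ‖φ' x‖) := by
    rw [intervalIntegral.integral_add_adjacent_intervals (hintn _ _ (hs0 _) (hs0 _))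
      (hintn _ _ (hs0 _) hY0), intervalIntegral.integral_add_adjacent_intervals
      (hintn _ _ le_rfl (hs0 _)) (hintn _ _ (hs0 _) hY0),
      ← intervalIntegral.integral_add_adjacent_intervals (hintn _ _ le_rfl hX)
      (hintn _ _ hX hY0), h8, add_zero]
  have h11 : 0 ≤ ∫ x in (0 : ℝ)..(s 0), ‖φ' x‖ :=
    intervalIntegral.integral_nonneg (hs0 0) fun x _ => norm_nonneg _
  rw [h10]
  linarith

/-- Smooth incomplete Kloosterman sums over the multiples of `a`. -/
theorem inc_smooth {B : ℕ} [NeZero B] (c : ZMod B) (a : ℕ) (ha : 1 ≤ a) (φ : ℝ → ℂ) (V : ℝ)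
    (n : ℕ) (hV : ‖φ ((a * n : ℕ) : ℝ)‖ +
      ∑ i ∈ range n, ‖φ ((a * (i + 1) : ℕ) : ℝ) - φ ((a * i : ℕ) : ℝ)‖ ≤ V) :
    ‖∑ A ∈ range (a * n + 1) with (Nat.Coprime A B ∧ a ∣ A),
      φ (A : ℝ) * ZMod.stdAddChar (c * (A : ZMod B)⁻¹)‖ ≤
      KK B c * (((n + 1 : ℕ) : ℝ) / B + 1 + Real.log B) * V := by
  classical
  have hB : (0 : ℝ) < B := Nat.cast_pos.2 (NeZero.pos B)
  have hV0 : 0 ≤ V := le_trans (by positivity) hV
  have hlog : 0 ≤ Real.log B := Real.log_natCast_nonneg B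
  by_cases hab : Nat.Coprime a B
  · -- substitute `A = a u`
    have h1 : ∑ A ∈ range (a * n + 1) with (Nat.Coprime A B ∧ a ∣ A),
        φ (A : ℝ) * ZMod.stdAddChar (c * (A : ZMod B)⁻¹)
        = ∑ u ∈ range (n + 1), φ ((a * u : ℕ) : ℝ) *
          (if Nat.Coprime u B then
            ZMod.stdAddChar (c * (a : ZMod B)⁻¹ * (u : ZMod B)⁻¹) else 0) := by
      have h2 : ∑ u ∈ range (n + 1), φ ((a * u : ℕ) : ℝ) *
          (if Nat.Coprime u B then
            ZMod.stdAddChar (c * (a : ZMod B)⁻¹ * (u : ZMod B)⁻¹) else 0)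
          = ∑ u ∈ range (n + 1) with Nat.Coprime u B, φ ((a * u : ℕ) : ℝ) *
            ZMod.stdAddChar (c * (a : ZMod B)⁻¹ * (u : ZMod B)⁻¹) := by
        rw [Finset.sum_filter]
        refine Finset.sum_congr rfl fun u _ => ?_
        split_ifs <;> simp
      rw [h2]
      symm
      refine Finset.sum_bij (fun u _ => a * u) ?_ ?_ ?_ ?_
      · intro u hu
        rw [Finset.mem_filter, Finset.mem_range] at hu ⊢
        refine ⟨?_, Nat.Coprime.mul_left hab hu.2, Dvd.intro _ rfl⟩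
        have := Nat.mul_le_mul_left a (Nat.lt_succ_iff.1 hu.1)
        omega
      · intro u _ u' _ h
        exact Nat.eq_of_mul_eq_mul_left (by omega) h
      · intro A hA
        rw [Finset.mem_filter, Finset.mem_range] at hA
        obtain ⟨hA1, hA2, u, rfl⟩ := hA
        refine ⟨u, ?_, rfl⟩
        rw [Finset.mem_filter, Finset.mem_range]
        refine ⟨?_, Nat.Coprime.coprime_mul_left hA2⟩
        have : a * u ≤ a * n := by omega
        have := Nat.le_of_mul_le_mul_left this (by omega)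
        omega
      · intro u hu
        rw [Finset.mem_filter] at hu
        congr 2
        have e1 : (((a * u : ℕ) : ZMod B))⁻¹ = (a : ZMod B)⁻¹ * (u : ZMod B)⁻¹ := by
          have hc : Nat.Coprime (a * u) B := Nat.Coprime.mul_left hab hu.2
          have e2 := ZMod.coe_mul_inv_eq_one (a * u) hc
          have e3 := ZMod.coe_mul_inv_eq_one a hab
          have e4 := ZMod.coe_mul_inv_eq_one u hu.2
          push_cast at e2 ⊢
          linear_combination ((a : ZMod B)⁻¹ * (u : ZMod B)⁻¹) * e2 -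
            ((a : ZMod B) * (u : ZMod B))⁻¹ * e3 -
            ((a : ZMod B) * (u : ZMod B))⁻¹ * (a : ZMod B) * (a : ZMod B)⁻¹ * e4
        rw [e1, mul_assoc]
    rw [h1]
    refine abel _ _ _ _ n ?_ hV
    intro j hj
    rw [← Finset.sum_filter]
    refine (inc_range (c * (a : ZMod B)⁻¹) j).trans ?_
    have h4 : (j : ℝ) ≤ ((n + 1 : ℕ) : ℝ) := Nat.cast_le.2 hj
    have h5 := KK_unit c a hab
    have h6 := KK_nonneg (B := B) c
    gcongr
  · rw [Finset.filter_false_of_mem, Finset.sum_empty, norm_zero]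
    · have := KK_nonneg c
      positivity
    · intro A _ h
      exact hab (Nat.Coprime.coprime_dvd_left h.2 h.1)

/-- Smooth incomplete Kloosterman sums over the multiples of `a`, for a `C^1` weight supported in
`[0, X]`. -/
theorem inc_smooth_deriv {B : ℕ} [NeZero B] (c : ZMod B) (a : ℕ) (ha : 1 ≤ a) (φ φ' : ℝ → ℂ)
    (X : ℝ) (hX : 0 ≤ X) (hd : ∀ x, 0 ≤ x → HasDerivAt φ (φ' x) x)
    (hint : ∀ a b, 0 ≤ a → 0 ≤ b → IntervalIntegrable φ' MeasureTheory.volume a b)
    (hsupp : ∀ x, X ≤ x → φ x = 0) (s : Finset ℕ)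
    (hs : ∀ A : ℕ, A ∉ s → φ A ≠ 0 → Nat.Coprime A B → ¬ a ∣ A) :
    ‖∑ A ∈ s with (Nat.Coprime A B ∧ a ∣ A),
      φ (A : ℝ) * ZMod.stdAddChar (c * (A : ZMod B)⁻¹)‖ ≤
      KK B c * ((X / a + 2) / B + 1 + Real.log B) * ∫ x in (0 : ℝ)..X, ‖φ' x‖ := by
  classical
  have hB : (0 : ℝ) < B := Nat.cast_pos.2 (NeZero.pos B)
  have ha' : (0 : ℝ) < a := Nat.cast_pos.2 (by omega)
  set n : ℕ := ⌊X / a⌋₊ + 1 with hn
  have hXn : X < ((a * n : ℕ) : ℝ) := by
    have := Nat.lt_floor_add_one (X / a)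
    rw [div_lt_iff₀ ha'] at this
    rw [hn]
    push_cast
    linarith
  have hV := variation_le φ φ' X hX hd hint hsupp (fun i => ((a * i : ℕ) : ℝ))
    (fun i j hij => Nat.cast_le.2 (Nat.mul_le_mul_left a hij)) (fun i => Nat.cast_nonneg _) n
  have h1 := inc_smooth c a ha φ _ n hV
  have h2 : ∑ A ∈ s with (Nat.Coprime A B ∧ a ∣ A),
      φ (A : ℝ) * ZMod.stdAddChar (c * (A : ZMod B)⁻¹)
      = ∑ A ∈ range (a * n + 1) with (Nat.Coprime A B ∧ a ∣ A),
        φ (A : ℝ) * ZMod.stdAddChar (c * (A : ZMod B)⁻¹) := by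
    refine (Finset.sum_subset (Finset.subset_union_left
      (s₁ := s.filter fun A => Nat.Coprime A B ∧ a ∣ A)
      (s₂ := (range (a * n + 1)).filter fun A => Nat.Coprime A B ∧ a ∣ A)) ?_).trans
      (Finset.sum_subset (Finset.subset_union_right
      (s₁ := s.filter fun A => Nat.Coprime A B ∧ a ∣ A)
      (s₂ := (range (a * n + 1)).filter fun A => Nat.Coprime A B ∧ a ∣ A)) ?_).symm
    · intro A hA hA'
      rw [Finset.mem_union, Finset.mem_filter, Finset.mem_filter] at hA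
      rw [Finset.mem_filter] at hA'
      have hA2 : Nat.Coprime A B ∧ a ∣ A := hA.elim (fun h => h.2) (fun h => h.2)
      have hAs : A ∉ s := fun h => hA' ⟨h, hA2⟩
      have : φ (A : ℝ) = 0 := by
        by_contra hne
        exact hs A hAs hne hA2.1 hA2.2
      rw [this, zero_mul]
    · intro A hA hA'
      rw [Finset.mem_union, Finset.mem_filter, Finset.mem_filter] at hA
      rw [Finset.mem_filter, Finset.mem_range] at hA'
      have hA2 : Nat.Coprime A B ∧ a ∣ A := hA.elim (fun h => h.2) (fun h => h.2)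
      have hlt : a * n + 1 ≤ A := by
        by_contra hcon
        exact hA' ⟨by omega, hA2⟩
      have : φ (A : ℝ) = 0 := by
        apply hsupp
        have : ((a * n : ℕ) : ℝ) ≤ (A : ℝ) := Nat.cast_le.2 (by omega)
        linarith
      rw [this, zero_mul]
  rw [h2]
  refine h1.trans ?_
  have h3 : ((n + 1 : ℕ) : ℝ) ≤ X / a + 2 := by
    have := Nat.floor_le (div_nonneg hX ha'.le)
    rw [hn]
    push_cast
    linarith
  have h4 := KK_nonneg (B := B) c
  have h5 : 0 ≤ ∫ x in (0 : ℝ)..X, ‖φ' x‖ :=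
    intervalIntegral.integral_nonneg hX fun x _ => norm_nonneg _
  gcongr

end Abel

end Pool.Agent.H4.Inc
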