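import Pool.Agent.Lib.MP_f9aece_nt_h4.GcdSum
import Pool.Agent.Lib.MP_f9aece_nt_h4.Abel2

/-!
Averaged over `A = a₁ i`, the sum of a smooth function over the `v` with `B ∣ A v - h` is close
to `1 / B` times the full sum.
-/

set_option autoImplicit false

open Finset

namespace Pool.Agent.H4.Crux

open Pool.Agent.H20.Kloo Pool.Agent.H4.Inc

section

variable {B : ℕ} [NeZero B]

lemma one_le_card_divisors (B : ℕ) (hB : 0 < B) : 1 ≤ B.divisors.card :=
  Finset.card_pos.2 ⟨1, Nat.mem_divisors.2 ⟨one_dvd _, hB.ne'⟩⟩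

/-- the gcd of `κ h` with the modulus -/
lemma gcd_mul_int (κ : ZMod B) (h : ℤ) (hh : h ≠ 0) :
    (Nat.gcd (κ * (h : ZMod B)).val B : ℝ) ≤ |(h : ℝ)| * Nat.gcd κ.val B := by
  have hB : 0 < B := NeZero.pos B
  have h1 : (κ * (h : ZMod B)) = (((κ.val : ℤ) * h : ℤ) : ZMod B) := by
    push_cast
    rw [ZMod.natCast_zmod_val]
  have h2 : Nat.gcd (κ * (h : ZMod B)).val B ∣ h.natAbs * Nat.gcd κ.val B := by
    set d := Nat.gcd (κ * (h : ZMod B)).val B with hd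
    have hdB : d ∣ B := Nat.gcd_dvd_right _ _
    have hdv : d ∣ (κ * (h : ZMod B)).val := Nat.gcd_dvd_left _ _
    have h3 : (d : ℤ) ∣ (κ.val : ℤ) * h := by
      have h4 : ((((κ.val : ℤ) * h : ℤ)) : ZMod d) = 0 := by
        have h5 : ZMod.castHom hdB (ZMod d) (κ * (h : ZMod B)) = 0 :=
          (castHom_eq_zero_iff hdB _).2 hdv
        rw [h1, map_intCast] at h5
        exact h5
      exact (ZMod.intCast_zmod_eq_zero_iff_dvd _ _).1 h4
    have h6 : d ∣ κ.val * h.natAbs := by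
      have := Int.natAbs_dvd_natAbs.2 h3
      rwa [Int.natAbs_mul, Int.natAbs_natCast, Int.natAbs_natCast] at this
    have h7 : d ∣ Nat.gcd (h.natAbs * κ.val) (h.natAbs * B) :=
      Nat.dvd_gcd (by rwa [mul_comm] at h6) (hdB.mul_left _)
    rwa [Nat.gcd_mul_left] at h7
  have h8 : Nat.gcd (κ * (h : ZMod B)).val B ≤ h.natAbs * Nat.gcd κ.val B :=
    Nat.le_of_dvd (Nat.mul_pos (Int.natAbs_pos.2 hh) (Nat.gcd_pos_of_pos_right _ hB)) h2
  have h9 : ((h.natAbs : ℕ) : ℝ) = |(h : ℝ)| := by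
    rw [← Int.cast_abs, ← Int.natCast_natAbs, Int.cast_natCast]
  rw [← h9]
  exact_mod_cast h8

lemma KK_le (κ : ZMod B) (h : ℤ) (hh : h ≠ 0) :
    KK B (κ * (h : ZMod B)) ≤
      2 * |(h : ℝ)| * Nat.gcd κ.val B * (B.divisors.card * (B : ℝ) ^ (3 / 4 : ℝ)) := by
  have hB : 0 < B := NeZero.pos B
  have hB' : (0 : ℝ) < B := Nat.cast_pos.2 hB
  have hh1 : (1 : ℝ) ≤ |(h : ℝ)| := by
    have := Int.one_le_abs hh
    exact_mod_cast this
  have hg1 : (1 : ℝ) ≤ (Nat.gcd κ.val B : ℝ) :=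
    Nat.one_le_cast.2 (Nat.gcd_pos_of_pos_right _ hB)
  have ht1 : (1 : ℝ) ≤ (B.divisors.card : ℝ) := Nat.one_le_cast.2 (one_le_card_divisors B hB)
  unfold KK
  set x : ℝ := 2 * |(h : ℝ)| * Nat.gcd κ.val B with hx
  have hx1 : 1 ≤ x := by
    rw [hx]
    nlinarith [mul_le_mul hh1 hg1 zero_le_one (abs_nonneg (h : ℝ))]
  calc (2 * (Nat.gcd (κ * (h : ZMod B)).val B : ℝ) * (B.divisors.card : ℝ) ^ 3 * (B : ℝ) ^ 3) ^
        (1 / 4 : ℝ)
      ≤ (x * (B.divisors.card : ℝ) ^ 3 * (B : ℝ) ^ 3) ^ (1 / 4 : ℝ) := by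
        refine Real.rpow_le_rpow (by positivity) ?_ (by norm_num)
        have := gcd_mul_int κ h hh
        gcongr
        rw [hx]
        linarith
    _ = x ^ (1 / 4 : ℝ) * ((B.divisors.card : ℝ) ^ 3) ^ (1 / 4 : ℝ) *
        ((B : ℝ) ^ 3) ^ (1 / 4 : ℝ) := by
        rw [Real.mul_rpow (by positivity) (by positivity),
          Real.mul_rpow (by positivity) (by positivity)]
    _ ≤ x * B.divisors.card * (B : ℝ) ^ (3 / 4 : ℝ) := by
        have e1 : x ^ (1 / 4 : ℝ) ≤ x := by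
          calc x ^ (1 / 4 : ℝ) ≤ x ^ (1 : ℝ) :=
                Real.rpow_le_rpow_of_exponent_le hx1 (by norm_num)
            _ = x := Real.rpow_one x
        have e2 : ((B.divisors.card : ℝ) ^ 3) ^ (1 / 4 : ℝ) ≤ B.divisors.card := by
          rw [← Real.rpow_natCast, ← Real.rpow_mul (by positivity)]
          calc (B.divisors.card : ℝ) ^ (((3 : ℕ) : ℝ) * (1 / 4)) ≤
                (B.divisors.card : ℝ) ^ (1 : ℝ) :=
                Real.rpow_le_rpow_of_exponent_le ht1 (by norm_num)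
            _ = _ := Real.rpow_one _
        have e3 : ((B : ℝ) ^ 3) ^ (1 / 4 : ℝ) = (B : ℝ) ^ (3 / 4 : ℝ) := by
          rw [← Real.rpow_natCast, ← Real.rpow_mul hB'.le]
          norm_num
        rw [e3]
        gcongr
    _ = _ := by ring

/-- orthogonality -/
lemma orth (b : ZMod B) : ∑ m : ZMod B, ZMod.stdAddChar (m * b) = if b = 0 then (B : ℂ) else 0 := by
  have := AddChar.sum_mulShift (ψ := (ZMod.stdAddChar (N := B))) b (ZMod.isPrimitive_stdAddChar B)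
  rw [this, ZMod.card]
  split_ifs <;> simp

/-- the divisibility condition and its expansion -/
lemma expand_cond (A : ℕ) (hA : Nat.Coprime A B) (h : ℤ) (n : ℕ) (F : ℕ → ℂ) :
    ∑ v ∈ (range n).filter (fun v : ℕ => (B : ℤ) ∣ (A : ℤ) * (v : ℤ) - h), F v - 1 / (B : ℂ) *
      ∑ v ∈ range n, F v = 1 / (B : ℂ) * ∑ κ : ZMod B with κ ≠ 0,
        ZMod.stdAddChar (κ * (h : ZMod B) * (A : ZMod B)⁻¹) *
          ∑ v ∈ range n, F v * ZMod.stdAddChar (-κ * (v : ZMod B)) := by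
  have hB : (B : ℂ) ≠ 0 := Nat.cast_ne_zero.2 (NeZero.ne B)
  have h1 : ∀ v : ℕ, ((B : ℤ) ∣ (A : ℤ) * (v : ℤ) - h) ↔
      (h : ZMod B) * (A : ZMod B)⁻¹ - (v : ZMod B) = 0 := by
    intro v
    rw [← ZMod.intCast_zmod_eq_zero_iff_dvd]
    push_cast
    have e := ZMod.coe_mul_inv_eq_one A hA
    constructor
    · intro h2
      have : (h : ZMod B) = (A : ZMod B) * v := (sub_eq_zero.1 h2).symm
      rw [this]
      linear_combination (v : ZMod B) * e
    · intro h2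
      have h3 : (v : ZMod B) = (h : ZMod B) * (A : ZMod B)⁻¹ := (sub_eq_zero.1 h2).symm
      rw [h3]
      linear_combination (h : ZMod B) * e
  have h2 : ∑ v ∈ (range n).filter (fun v : ℕ => (B : ℤ) ∣ (A : ℤ) * (v : ℤ) - h), F v =
      1 / (B : ℂ) * ∑ κ : ZMod B, ZMod.stdAddChar (κ * (h : ZMod B) * (A : ZMod B)⁻¹) *
          ∑ v ∈ range n, F v * ZMod.stdAddChar (-κ * (v : ZMod B)) := by
    have h3 : ∑ κ : ZMod B, ZMod.stdAddChar (κ * (h : ZMod B) * (A : ZMod B)⁻¹) *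
          ∑ v ∈ range n, F v * ZMod.stdAddChar (-κ * (v : ZMod B)) =
        ∑ v ∈ range n, F v * ∑ κ : ZMod B,
          ZMod.stdAddChar (κ * ((h : ZMod B) * (A : ZMod B)⁻¹ - (v : ZMod B))) := by
      simp_rw [Finset.mul_sum]
      rw [Finset.sum_comm]
      refine Finset.sum_congr rfl fun v _ => Finset.sum_congr rfl fun κ _ => ?_
      have : ZMod.stdAddChar (κ * ((h : ZMod B) * (A : ZMod B)⁻¹ - (v : ZMod B))) =
          ZMod.stdAddChar (κ * (h : ZMod B) * (A : ZMod B)⁻¹) *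
            ZMod.stdAddChar (-κ * (v : ZMod B)) := by
        rw [← AddChar.map_add_eq_mul]
        congr 1
        ring
      rw [this]
      ring
    rw [h3, Finset.sum_filter, Finset.mul_sum]
    refine Finset.sum_congr rfl fun v _ => ?_
    rw [orth]
    by_cases hv : (B : ℤ) ∣ (A : ℤ) * (v : ℤ) - h
    · rw [if_pos hv, if_pos ((h1 v).1 hv)]
      field_simp
    · rw [if_neg hv, if_neg (fun h' => hv ((h1 v).2 h'))]
      ring
  rw [h2, ← Finset.sum_filter_add_sum_filter_not Finset.univ (fun κ : ZMod B => κ = 0)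
    (fun κ => ZMod.stdAddChar (κ * (h : ZMod B) * (A : ZMod B)⁻¹) *
          ∑ v ∈ range n, F v * ZMod.stdAddChar (-κ * (v : ZMod B))), mul_add]
  have h4 : ∑ κ : ZMod B with κ = 0, ZMod.stdAddChar (κ * (h : ZMod B) * (A : ZMod B)⁻¹) *
          ∑ v ∈ range n, F v * ZMod.stdAddChar (-κ * (v : ZMod B)) = ∑ v ∈ range n, F v := by
    rw [Finset.filter_eq' Finset.univ (0 : ZMod B), if_pos (Finset.mem_univ _),
      Finset.sum_singleton]
    simp
  rw [h4]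
  ring

lemma log_nat_mono {i j : ℕ} (h : i ≤ j) : Real.log i ≤ Real.log j := by
  rcases Nat.eq_zero_or_pos i with h0 | h0
  · subst h0
    rw [Nat.cast_zero, Real.log_zero]
    exact Real.log_natCast_nonneg j
  · exact Real.log_le_log (Nat.cast_pos.2 h0) (Nat.cast_le.2 h)

/-- partial sums of the incomplete Kloosterman sum over the multiples of `a₁` -/
lemma inc_mult (c : ZMod B) (a₁ : ℕ) (j n : ℕ) (hj : j ≤ n) :
    ‖∑ i ∈ range j, (if Nat.Coprime (a₁ * i) B then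
      ZMod.stdAddChar (c * ((a₁ * i : ℕ) : ZMod B)⁻¹) else 0)‖ ≤
      KK B c * ((n : ℝ) / B + 1 + Real.log B) := by
  have hB : (0 : ℝ) < B := Nat.cast_pos.2 (NeZero.pos B)
  have hlog : 0 ≤ Real.log B := Real.log_natCast_nonneg B
  have hK := KK_nonneg (B := B) c
  by_cases hab : Nat.Coprime a₁ B
  · have h1 : ∑ i ∈ range j, (if Nat.Coprime (a₁ * i) B then
        ZMod.stdAddChar (c * ((a₁ * i : ℕ) : ZMod B)⁻¹) else 0) =
        ∑ u ∈ range j with Nat.Coprime u B,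
          ZMod.stdAddChar (c * (a₁ : ZMod B)⁻¹ * (u : ZMod B)⁻¹) := by
      rw [Finset.sum_filter]
      refine Finset.sum_congr rfl fun i _ => ?_
      by_cases hi : Nat.Coprime i B
      · have hc : Nat.Coprime (a₁ * i) B := Nat.Coprime.mul_left hab hi
        rw [if_pos hi, if_pos hc, mul_assoc]
        congr 2
        have e2 := ZMod.coe_mul_inv_eq_one (a₁ * i) hc
        have e3 := ZMod.coe_mul_inv_eq_one a₁ hab
        have e4 := ZMod.coe_mul_inv_eq_one i hi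
        push_cast at e2 ⊢
        linear_combination ((a₁ : ZMod B)⁻¹ * (i : ZMod B)⁻¹) * e2 -
          ((a₁ : ZMod B) * (i : ZMod B))⁻¹ * e3 -
          ((a₁ : ZMod B) * (i : ZMod B))⁻¹ * (a₁ : ZMod B) * (a₁ : ZMod B)⁻¹ * e4
      · rw [if_neg hi, if_neg (fun hc => hi (Nat.Coprime.coprime_mul_left hc))]
    rw [h1]
    refine (inc_range (c * (a₁ : ZMod B)⁻¹) j).trans ?_
    have h4 : (j : ℝ) ≤ (n : ℝ) := Nat.cast_le.2 hj
    have h5 := KK_unit c a₁ hab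
    gcongr
  · have h1 : ∑ i ∈ range j, (if Nat.Coprime (a₁ * i) B then
        ZMod.stdAddChar (c * ((a₁ * i : ℕ) : ZMod B)⁻¹) else 0) = (0 : ℂ) := by
      refine Finset.sum_eq_zero fun i _ => ?_
      rw [if_neg (fun hc => hab (Nat.Coprime.coprime_mul_right hc))]
    rw [h1, norm_zero]
    positivity

/-- **The Kloosterman estimate.** -/
theorem kloo_main (a₁ g₁ : ℕ) (h : ℤ) (hh : h ≠ 0)
    {p p' q q' q'' : ℝ → ℝ} {M₂ M₃ lo hi : ℝ} (hlohi : lo ≤ hi)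
    (dp : ∀ x, HasDerivAt p (p' x) x)
    (dq : ∀ x, HasDerivAt q (q' x) x) (dq' : ∀ x, HasDerivAt q' (q'' x) x)
    (b₂ : ∀ x, |p x| ≤ M₂) (b₂' : ∀ x, |p' x| ≤ M₂)
    (b₃ : ∀ x, |q x| ≤ M₃) (b₃' : ∀ x, |q' x| ≤ M₃) (b₃'' : ∀ x, |q'' x| ≤ M₃)
    (s₂ : ∀ x, x < lo ∨ hi < x → p x = 0)
    (n₁ n₂ : ℕ) (hn₁ : hi < Real.log g₁ + Real.log n₁) (hn₂ : hi < Real.log n₂) :
    ‖∑ i ∈ (range (n₁ + 1)).filter (fun i => Nat.Coprime (a₁ * i) B),
      (p (Real.log g₁ + Real.log i) : ℂ) *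
      (∑ v ∈ (range (n₂ + 1)).filter (fun v : ℕ => (B : ℤ) ∣ ((a₁ * i : ℕ) : ℤ) * (v : ℤ) - h),
        ((p (Real.log v) * q (Real.log a₁ + Real.log i + Real.log v) : ℝ) : ℂ) -
        1 / (B : ℂ) * ∑ v ∈ range (n₂ + 1),
          ((p (Real.log v) * q (Real.log a₁ + Real.log i + Real.log v) : ℝ) : ℂ))‖ ≤
      2 * |(h : ℝ)| * (B.divisors.card : ℝ) ^ 2 * (B : ℝ) ^ (3 / 4 : ℝ) *
        (((n₁ + 1 : ℕ) : ℝ) / B + 1 + Real.log B) * (1 + Real.log B) *
        (4 * (M₂ * M₂ * M₃) * (hi - lo) ^ 2) := by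
  classical
  have hB0 : 0 < B := NeZero.pos B
  have hB : (0 : ℝ) < B := Nat.cast_pos.2 hB0
  have hlog : 0 ≤ Real.log B := Real.log_natCast_nonneg B
  have hM₂ : 0 ≤ M₂ := (abs_nonneg _).trans (b₂ 0)
  have hM₃ : 0 ≤ M₃ := (abs_nonneg _).trans (b₃ 0)
  set Φ : ℕ → ℕ → ℝ := fun i v => p (Real.log g₁ + Real.log i) * p (Real.log v) *
    q (Real.log a₁ + Real.log i + Real.log v) with hΦ
  set V : ℝ := 4 * (M₂ * M₂ * M₃) * (hi - lo) ^ 2 with hVdef
  have hV0 : 0 ≤ V := by positivity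
  -- the total variation of `Φ`
  have hV : ∑ i ∈ range n₁, ∑ j ∈ range n₂,
      |Φ (i + 1) (j + 1) - Φ i (j + 1) - Φ (i + 1) j + Φ i j| ≤ V := by
    set c₁ : ℝ → ℝ := clip (lo - Real.log g₁) (hi - Real.log g₁)
    set c₂ : ℝ → ℝ := clip lo hi
    have h1 : ∀ i j : ℕ, |Φ (i + 1) (j + 1) - Φ i (j + 1) - Φ (i + 1) j + Φ i j| ≤
        4 * (M₂ * M₂ * M₃) * ((c₁ (Real.log (i + 1 : ℕ)) - c₁ (Real.log i)) *
          (c₂ (Real.log (j + 1 : ℕ)) - c₂ (Real.log j))) := by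
      intro i j
      have := mixed (p₁ := fun x => p (Real.log g₁ + x)) (p₁' := fun x => p' (Real.log g₁ + x))
        (q := fun x => q (Real.log a₁ + x)) (q' := fun x => q' (Real.log a₁ + x))
        (q'' := fun x => q'' (Real.log a₁ + x)) (p := p) (p' := p')
        (M₁ := M₂) (M₂ := M₂) (M₃ := M₃) (lo₁ := lo - Real.log g₁) (hi₁ := hi - Real.log g₁)
        (lo₂ := lo) (hi₂ := hi) (by linarith) hlohi
        (fun x => HasDerivAt.comp_const_add _ x (dp _)) dp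
        (fun x => HasDerivAt.comp_const_add _ x (dq _))
        (fun x => HasDerivAt.comp_const_add _ x (dq' _))
        (fun x => b₂ _) (fun x => b₂' _) b₂ b₂' (fun x => b₃ _) (fun x => b₃' _)
        (fun x => b₃'' _) (fun x hx => s₂ _ (by
          rcases hx with hx | hx
          · left; linarith
          · right; linarith)) s₂
        (log_nat_mono (Nat.le_succ i)) (log_nat_mono (Nat.le_succ j))
      refine le_trans (le_of_eq ?_) this
      simp only [hΦ, add_assoc]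
    calc ∑ i ∈ range n₁, ∑ j ∈ range n₂,
          |Φ (i + 1) (j + 1) - Φ i (j + 1) - Φ (i + 1) j + Φ i j|
        ≤ ∑ i ∈ range n₁, ∑ j ∈ range n₂,
          4 * (M₂ * M₂ * M₃) * ((c₁ (Real.log (i + 1 : ℕ)) - c₁ (Real.log i)) *
          (c₂ (Real.log (j + 1 : ℕ)) - c₂ (Real.log j))) :=
          Finset.sum_le_sum fun i _ => Finset.sum_le_sum fun j _ => h1 i j
      _ = 4 * (M₂ * M₂ * M₃) * ((∑ i ∈ range n₁, (c₁ (Real.log (i + 1 : ℕ)) - c₁ (Real.log i))) *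
          ∑ j ∈ range n₂, (c₂ (Real.log (j + 1 : ℕ)) - c₂ (Real.log j))) := by
          rw [Finset.sum_mul_sum, Finset.mul_sum]
          refine Finset.sum_congr rfl fun i _ => ?_
          rw [Finset.mul_sum]
      _ = 4 * (M₂ * M₂ * M₃) * ((c₁ (Real.log (n₁ : ℕ)) - c₁ (Real.log (0 : ℕ))) *
          (c₂ (Real.log (n₂ : ℕ)) - c₂ (Real.log (0 : ℕ)))) := by
          rw [Finset.sum_range_sub (fun i : ℕ => c₁ (Real.log i)),
            Finset.sum_range_sub (fun i : ℕ => c₂ (Real.log i))]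
      _ ≤ 4 * (M₂ * M₂ * M₃) * ((hi - lo) * (hi - lo)) := by
          have e1 : c₁ (Real.log (n₁ : ℕ)) - c₁ (Real.log (0 : ℕ)) ≤ hi - lo := by
            refine (clip_sub_le (by linarith) _ _).trans (le_of_eq ?_)
            ring
          have e2 : c₂ (Real.log (n₂ : ℕ)) - c₂ (Real.log (0 : ℕ)) ≤ hi - lo :=
            clip_sub_le hlohi _ _
          have e3 : 0 ≤ c₂ (Real.log (n₂ : ℕ)) - c₂ (Real.log (0 : ℕ)) :=
            clip_nonneg_sub (log_nat_mono (Nat.zero_le _))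
          have e4 : 0 ≤ hi - lo := by linarith
          gcongr
      _ = V := by rw [hVdef]; ring
  set N : ℝ := ((n₁ + 1 : ℕ) : ℝ) / B + 1 + Real.log B with hN
  have hN0 : 0 ≤ N := by positivity
  -- the identity
  have hid : ∑ i ∈ (range (n₁ + 1)).filter (fun i => Nat.Coprime (a₁ * i) B),
      (p (Real.log g₁ + Real.log i) : ℂ) *
      (∑ v ∈ (range (n₂ + 1)).filter (fun v : ℕ => (B : ℤ) ∣ ((a₁ * i : ℕ) : ℤ) * (v : ℤ) - h),
        ((p (Real.log v) * q (Real.log a₁ + Real.log i + Real.log v) : ℝ) : ℂ) -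
        1 / (B : ℂ) * ∑ v ∈ range (n₂ + 1),
          ((p (Real.log v) * q (Real.log a₁ + Real.log i + Real.log v) : ℝ) : ℂ)) =
      1 / (B : ℂ) * ∑ κ : ZMod B with κ ≠ 0, ∑ i ∈ range (n₁ + 1),
        (if Nat.Coprime (a₁ * i) B then
          ZMod.stdAddChar (κ * (h : ZMod B) * ((a₁ * i : ℕ) : ZMod B)⁻¹) else 0) *
        ∑ v ∈ range (n₂ + 1), (Φ i v : ℂ) * ZMod.stdAddChar (-κ * (v : ZMod B)) := by
    rw [Finset.sum_filter, Finset.sum_comm, Finset.mul_sum]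
    refine Finset.sum_congr rfl fun i _ => ?_
    by_cases hc : Nat.Coprime (a₁ * i) B
    · rw [if_pos hc, expand_cond (a₁ * i) hc h (n₂ + 1) (fun v =>
        ((p (Real.log v) * q (Real.log a₁ + Real.log i + Real.log v) : ℝ) : ℂ)),
        mul_left_comm, Finset.mul_sum]
      congr 1
      refine Finset.sum_congr rfl fun κ _ => ?_
      rw [if_pos hc, mul_left_comm, Finset.mul_sum]
      congr 1
      refine Finset.sum_congr rfl fun v _ => ?_
      rw [hΦ]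
      push_cast
      ring
    · rw [if_neg hc]
      simp only [if_neg hc, zero_mul, Finset.sum_const_zero, mul_zero]
  rw [hid, norm_mul, norm_div, norm_one, Complex.norm_natCast]
  have hκ : ∀ κ : ZMod B, κ ≠ 0 → ‖∑ i ∈ range (n₁ + 1),
        (if Nat.Coprime (a₁ * i) B then
          ZMod.stdAddChar (κ * (h : ZMod B) * ((a₁ * i : ℕ) : ZMod B)⁻¹) else 0) *
        ∑ v ∈ range (n₂ + 1), (Φ i v : ℂ) * ZMod.stdAddChar (-κ * (v : ZMod B))‖ ≤
      (2 * |(h : ℝ)| * (B.divisors.card * (B : ℝ) ^ (3 / 4 : ℝ)) * N * ((B : ℝ) / 2) * V) *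
        ((Nat.gcd (-κ).val B : ℝ) * (1 / ((-κ).val : ℝ) + 1 / ((B : ℝ) - (-κ).val))) := by
    intro κ hκ0
    have hK : KK B (κ * (h : ZMod B)) ≤
        2 * |(h : ℝ)| * Nat.gcd (-κ).val B * (B.divisors.card * (B : ℝ) ^ (3 / 4 : ℝ)) := by
      have := KK_le (-κ) (-h) (neg_ne_zero.2 hh)
      push_cast at this
      rw [neg_mul_neg, abs_neg] at this
      exact this
    have h1 := abel2 Φ (fun i => if Nat.Coprime (a₁ * i) B then
          ZMod.stdAddChar (κ * (h : ZMod B) * ((a₁ * i : ℕ) : ZMod B)⁻¹) else 0)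
        (fun v => ZMod.stdAddChar (-κ * (v : ZMod B))) (KK B (κ * (h : ZMod B)) * N)
        ((B : ℝ) / 2 * (1 / ((-κ).val : ℝ) + 1 / ((B : ℝ) - (-κ).val))) V n₁ n₂
        (fun j hj => inc_mult _ a₁ j (n₁ + 1) hj)
        (fun j _ => geom_bound (-κ) (neg_ne_zero.2 hκ0) j)
        (fun j => by rw [hΦ]; simp only; rw [s₂ _ (Or.inr hn₁)]; ring)
        (fun i => by rw [hΦ]; simp only; rw [s₂ _ (Or.inr hn₂)]; ring) hV
    refine h1.trans ?_
    have hval : ((-κ).val : ℝ) < B := Nat.cast_lt.2 (ZMod.val_lt _)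
    have hpos : 0 ≤ 1 / ((-κ).val : ℝ) + 1 / ((B : ℝ) - (-κ).val) := by
      have : 0 < (B : ℝ) - (-κ).val := sub_pos.2 hval
      positivity
    calc KK B (κ * (h : ZMod B)) * N *
          ((B : ℝ) / 2 * (1 / ((-κ).val : ℝ) + 1 / ((B : ℝ) - (-κ).val))) * V
        ≤ (2 * |(h : ℝ)| * Nat.gcd (-κ).val B * (B.divisors.card * (B : ℝ) ^ (3 / 4 : ℝ))) * N *
          ((B : ℝ) / 2 * (1 / ((-κ).val : ℝ) + 1 / ((B : ℝ) - (-κ).val))) * V := by
          gcongr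
      _ = _ := by ring
  calc 1 / (B : ℝ) * ‖∑ κ : ZMod B with κ ≠ 0, ∑ i ∈ range (n₁ + 1),
        (if Nat.Coprime (a₁ * i) B then
          ZMod.stdAddChar (κ * (h : ZMod B) * ((a₁ * i : ℕ) : ZMod B)⁻¹) else 0) *
        ∑ v ∈ range (n₂ + 1), (Φ i v : ℂ) * ZMod.stdAddChar (-κ * (v : ZMod B))‖
      ≤ 1 / (B : ℝ) * ∑ κ : ZMod B with κ ≠ 0,
        (2 * |(h : ℝ)| * (B.divisors.card * (B : ℝ) ^ (3 / 4 : ℝ)) * N * ((B : ℝ) / 2) * V) *
        ((Nat.gcd (-κ).val B : ℝ) * (1 / ((-κ).val : ℝ) + 1 / ((B : ℝ) - (-κ).val))) := by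
        gcongr
        refine (norm_sum_le _ _).trans (Finset.sum_le_sum fun κ hκ' => ?_)
        exact hκ κ (Finset.mem_filter.1 hκ').2
    _ = 1 / (B : ℝ) * ((2 * |(h : ℝ)| * (B.divisors.card * (B : ℝ) ^ (3 / 4 : ℝ)) * N *
        ((B : ℝ) / 2) * V) * ∑ κ : ZMod B with κ ≠ 0,
        ((Nat.gcd κ.val B : ℝ) * (1 / (κ.val : ℝ) + 1 / ((B : ℝ) - κ.val)))) := by
        rw [← Finset.mul_sum]
        congr 2
        refine Finset.sum_bij' (fun κ _ => -κ) (fun κ _ => -κ) ?_ ?_ ?_ ?_ ?_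
        · intro κ hκ'
          rw [Finset.mem_filter] at hκ' ⊢
          exact ⟨Finset.mem_univ _, neg_ne_zero.2 hκ'.2⟩
        · intro κ hκ'
          rw [Finset.mem_filter] at hκ' ⊢
          exact ⟨Finset.mem_univ _, neg_ne_zero.2 hκ'.2⟩
        · intro κ _; exact neg_neg κ
        · intro κ _; exact neg_neg κ
        · intro κ _; rfl
    _ ≤ 1 / (B : ℝ) * ((2 * |(h : ℝ)| * (B.divisors.card * (B : ℝ) ^ (3 / 4 : ℝ)) * N *
        ((B : ℝ) / 2) * V) * (2 * (B.divisors.card * (1 + Real.log B)))) := by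
        have := gcd_sum B
        gcongr
    _ = _ := by
        rw [hN]
        field_simp

end

end Pool.Agent.H4.Crux
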