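import Pool.Agent.Lib.MP_f9aece_nt_h4.NIntA

/-!
Mean values with the short polynomial (module N).
-/

set_option autoImplicit false

namespace Pool.Agent.Lib.J4

open MeasureTheory Set Filter Topology Complex
open scoped ComplexConjugate
open Pool.Agent.Lib.MP_f9aece_nt (DP pair BK K1 ev ev1 evh PP VV Smo expo EE mom ev_apply
  pair_def continuous_ev)
open Pool.Agent.H20.Chi (chi norm_chi continuous_chi)

namespace NInt

lemma Wt_nonneg' (v : ℕ) (s : Finset ℕ) : 0 ≤ Wt v s := by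
  unfold Wt
  refine Finset.prod_nonneg fun g _ => ?_
  have : 0 ≤ Rg v g := by unfold Rg; positivity
  positivity

lemma wInt_nonneg {w : ℝ → ℝ} {θ C : ℝ} (hw : Wgt w θ C) : 0 ≤ ∫ u, w u :=
  integral_nonneg hw.nonneg

/-- the pointwise identity -/
lemma norm_sq_add (χ D : ℂ) (hχ : ‖χ‖ = 1) :
    ‖D + χ ^ 2 * conj D‖ ^ 2 = 2 * ‖D‖ ^ 2 + 2 * (χ ^ 2 * (conj D * conj D)).re := by
  rw [add_comm, ← Complex.normSq_eq_norm_sq, Complex.normSq_add]
  have h1 : Complex.normSq (χ ^ 2 * conj D) = Complex.normSq D := by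
    rw [Complex.normSq_mul, Complex.normSq_conj, Complex.normSq_eq_norm_sq (χ ^ 2), norm_pow, hχ]
    simp
  rw [h1, Complex.normSq_eq_norm_sq]
  have h2 : χ ^ 2 * conj D * conj D = χ ^ 2 * (conj D * conj D) := by ring
  rw [h2]
  ring

end NInt

open NInt

theorem suInt (hM : MVT) (hB : BtLen) (hS : SuSum) : SuInt := by
  obtain ⟨CS, v0, hCS, hS⟩ := hS
  refine ⟨max v0 2, fun w θ C hθ _ hw => ?_⟩
  obtain ⟨C1, hC1, hI⟩ := int_sq_le hM hθ hw
  have hW := wInt_nonneg hw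
  refine ⟨((∫ u, w u) + C1) * CS, by positivity, ?_⟩
  intro v p0 hv hp
  have hv0 : v0 ≤ v := (le_max_left _ _).trans hv
  have hv2 : 2 ≤ v := (le_max_right _ _).trans hv
  have hvr : (2 : ℝ) ≤ v := by exact_mod_cast hv2
  refine ⟨400000 * v, by linarith, fun Λ hΛ => ?_⟩
  have hΛ0 : 0 < Λ := by nlinarith
  refine ⟨Real.exp Λ, Real.one_le_exp hΛ0.le, fun T hT J c hc => ?_⟩
  have hT1 : 1 < T := lt_of_lt_of_le (Real.one_lt_exp_iff.2 hΛ0) hT
  have hT0 : 0 < T := by linarith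
  have hL : Λ ≤ Real.log T := by rwa [Real.le_log_iff_exp_le hT0]
  have hY : 1 ≤ Real.log T / Λ := by rwa [le_div_iff₀ hΛ0, one_mul]
  have h1 := hS v hv0 p0 (Real.log T / Λ) J c hp hY hc
  have hsq : (T ^ (1 / 2 : ℝ)) ^ 2 = T := by
    rw [← Real.rpow_natCast, ← Real.rpow_mul hT0.le]; norm_num
  have h2 : ∀ s ∈ (Finset.range J).powerset, Wt v s * ∫ t : ℝ, w (t / T) *
        ‖ev t (Bt c v p0 (Real.log T / Λ) 0 J s)‖ ^ 2 ≤
      ((∫ u, w u) + C1) * T * (Wt v s * En (Bt c v p0 (Real.log T / Λ) 0 J s)) := by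
    intro s hs
    have hsupp : ∀ n, (Bt c v p0 (Real.log T / Λ) 0 J s).coeff n ≠ 0 → 1 ≤ n ∧ (n : ℝ) ≤ T ^ (1 / 2 : ℝ) :=
      fun n hn => Bt_supp hB hv2 (by omega) hT1 hΛ0 (by linarith) hs hn
    have h3 := hI T (T ^ (1 / 2 : ℝ)) hT1.le (Real.one_le_rpow hT1.le (by norm_num)) _ hsupp
    have hE := En_nonneg fun n hn => (hsupp n hn).1
    rw [hsq, div_mul_cancel₀ _ hT0.ne'] at h3
    have h4 : (T * (∫ u, w u) + C1) * En (Bt c v p0 (Real.log T / Λ) 0 J s) ≤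
        ((∫ u, w u) + C1) * T * En (Bt c v p0 (Real.log T / Λ) 0 J s) := by
      refine mul_le_mul_of_nonneg_right ?_ hE
      nlinarith
    calc Wt v s * ∫ t : ℝ, w (t / T) * ‖ev t (Bt c v p0 (Real.log T / Λ) 0 J s)‖ ^ 2
        ≤ Wt v s * (((∫ u, w u) + C1) * T * En (Bt c v p0 (Real.log T / Λ) 0 J s)) :=
          mul_le_mul_of_nonneg_left (h3.trans h4) (Wt_nonneg' v s)
      _ = _ := by ring
  refine (Finset.sum_le_sum h2).trans ?_
  rw [← Finset.mul_sum]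
  calc ((∫ u, w u) + C1) * T * ∑ s ∈ (Finset.range J).powerset, Wt v s * En (Bt c v p0 (Real.log T / Λ) 0 J s)
      ≤ ((∫ u, w u) + C1) * T * (CS * Real.exp (c ^ 2 * Vs v p0 (Real.log T / Λ) 0 J)) :=
        mul_le_mul_of_nonneg_left h1 (by positivity)
    _ = _ := by ring

namespace NInt

/-- one term of the mean value -/
lemma term_le {w : ℝ → ℝ} {θ C T : ℝ} (hw : Wgt w θ C) (hT : 0 < T)
    (D B : DP) {M E : ℝ}
    (hM : ∫ t : ℝ, w (t / T) * ‖ev t (D * B)‖ ^ 2 ≤ M)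
    (hE : ‖∫ t : ℝ, (w (t / T) : ℂ) * chi t ^ 2 * (conj (ev t D) * conj (ev t D))
        * (ev t B * conj (ev t B))‖ ≤ E) :
    ∫ t : ℝ, w (t / T) * (‖ev t D + chi t ^ 2 * conj (ev t D)‖ ^ 2 * ‖ev t B‖ ^ 2) ≤
      2 * M + 2 * E := by
  have hcw : Continuous fun t : ℝ => w (t / T) := hw.continuous.comp (continuous_id.div_const T)
  have hcs : HasCompactSupport fun t : ℝ => w (t / T) := by
    refine HasCompactSupport.intro (isCompact_Icc (a := θ * T) (b := 2 * T)) fun x hx => ?_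
    exact hw.zero_of_notMem hT hx
  have hc1 : Continuous fun t : ℝ => w (t / T) * ‖ev t (D * B)‖ ^ 2 :=
    hcw.mul ((continuous_ev _).norm.pow 2)
  have hi1 : Integrable fun t : ℝ => w (t / T) * ‖ev t (D * B)‖ ^ 2 :=
    hc1.integrable_of_hasCompactSupport hcs.mul_right
  have hc2 : Continuous fun t : ℝ => (w (t / T) : ℂ) * chi t ^ 2 * (conj (ev t D) * conj (ev t D))
        * (ev t B * conj (ev t B)) := by
    have h1 := continuous_ev D
    have h2 := continuous_ev B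
    have h3 := continuous_chi
    have h4 : Continuous fun t : ℝ => conj (ev t D) := Complex.continuous_conj.comp h1
    have h5 : Continuous fun t : ℝ => conj (ev t B) := Complex.continuous_conj.comp h2
    exact ((((Complex.continuous_ofReal.comp hcw).mul (h3.pow 2)).mul (h4.mul h4))).mul (h2.mul h5)
  have hcs2 : HasCompactSupport fun t : ℝ => (w (t / T) : ℂ) * chi t ^ 2 *
      (conj (ev t D) * conj (ev t D)) * (ev t B * conj (ev t B)) := by
    refine HasCompactSupport.intro (isCompact_Icc (a := θ * T) (b := 2 * T)) fun x hx => ?_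
    rw [hw.zero_of_notMem hT hx]
    simp
  have hi2 := hc2.integrable_of_hasCompactSupport (μ := volume) hcs2
  have hid : ∀ t : ℝ, w (t / T) * (‖ev t D + chi t ^ 2 * conj (ev t D)‖ ^ 2 * ‖ev t B‖ ^ 2) =
      2 * (w (t / T) * ‖ev t (D * B)‖ ^ 2) + 2 * ((w (t / T) : ℂ) * chi t ^ 2 *
        (conj (ev t D) * conj (ev t D)) * (ev t B * conj (ev t B))).re := by
    intro t
    rw [norm_sq_add _ _ (norm_chi t), map_mul, norm_mul]
    have e1 : (w (t / T) : ℂ) * chi t ^ 2 * (conj (ev t D) * conj (ev t D)) *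
        (ev t B * conj (ev t B)) = ((w (t / T) * ‖ev t B‖ ^ 2 : ℝ) : ℂ) *
          (chi t ^ 2 * (conj (ev t D) * conj (ev t D))) := by
      rw [Complex.mul_conj, Complex.normSq_eq_norm_sq]
      push_cast
      ring
    rw [e1, Complex.re_ofReal_mul]
    ring
  simp_rw [hid]
  have hi3 : Integrable fun t : ℝ => ((w (t / T) : ℂ) * chi t ^ 2 *
        (conj (ev t D) * conj (ev t D)) * (ev t B * conj (ev t B))).re := hi2.re
  rw [integral_add (hi1.const_mul 2) (hi3.const_mul 2), integral_const_mul, integral_const_mul]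
  have h6 : ∫ t : ℝ, ((w (t / T) : ℂ) * chi t ^ 2 *
        (conj (ev t D) * conj (ev t D)) * (ev t B * conj (ev t B))).re =
      (∫ t : ℝ, (w (t / T) : ℂ) * chi t ^ 2 *
        (conj (ev t D) * conj (ev t D)) * (ev t B * conj (ev t B))).re := integral_re hi2
  rw [h6]
  have h7 := (Complex.re_le_norm _).trans hE
  linarith

end NInt

theorem mainInt (hM : MVT) (hO : OscSum) (hB : BtLen) (hZ : BtSize) (hD : D2Sum) : MainInt := by
  intro w θ C hθ hθ1 hw v p0 hv hp σ hσ hσ4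
  obtain ⟨C1, hC1, hI⟩ := int_sq_le hM hθ hw
  obtain ⟨C2, hC2, hO⟩ := hO w θ C hθ hθ1 hw
  obtain ⟨K, hK, hDK⟩ := En_Dm_le hD
  obtain ⟨Λ1, hΛ1, hZ⟩ := hZ v p0 hv hp (σ / 2) (by positivity)
  have hW := wInt_nonneg hw
  have hvr : (2 : ℝ) ≤ v := by exact_mod_cast hv
  refine ⟨max Λ1 (400000 * v / σ), hΛ1.trans (le_max_left _ _), fun Λ hΛ δ hδ => ?_⟩
  have hΛ' := (le_max_left _ _).trans hΛ
  have hΛ'' := (le_max_right _ _).trans hΛ
  have hΛ0 : 0 < Λ := by linarith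
  have hτ : 200000 * (v : ℝ) ≤ σ / 2 * Λ := by
    rw [div_le_iff₀ hσ] at hΛ''
    linarith
  obtain ⟨T1, hT1, hZ⟩ := hZ Λ hΛ'
  -- the conditions on T
  set K0 : ℝ := max (max (12 * Real.pi ^ 2 / θ ^ 2) (2 * C1 / δ))
    (2 * C2 * K * (1 + 16 / σ) ^ 4 / δ) with hK0
  have hev : ∀ᶠ T : ℝ in atTop, K0 ≤ T ^ (σ / 4) ∧ max T1 2 ≤ T :=
    ((tendsto_rpow_atTop (by positivity : (0:ℝ) < σ / 4)).eventually (eventually_ge_atTop K0)).and
      (eventually_ge_atTop _)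
  obtain ⟨T2, hT2⟩ := eventually_atTop.1 hev
  refine ⟨max T2 1, le_max_right _ _, fun T hT J hJ c hc => ?_⟩
  obtain ⟨hTK, hTT⟩ := hT2 T ((le_max_left _ _).trans hT)
  have hTT1 : T1 ≤ T := (le_max_left _ _).trans hTT
  have hT2' : 2 ≤ T := (le_max_right _ _).trans hTT
  have hT1' : 1 < T := by linarith
  have hT0 : 0 < T := by linarith
  have hL : 0 < Real.log T := Real.log_pos hT1'
  have k1 : 12 * Real.pi ^ 2 / θ ^ 2 ≤ T ^ (σ / 4) :=
    ((le_max_left _ _).trans (le_max_left _ _)).trans hTK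
  have k2 : 2 * C1 / δ ≤ T ^ (σ / 4) := ((le_max_right _ _).trans (le_max_left _ _)).trans hTK
  have k3 : 2 * C2 * K * (1 + 16 / σ) ^ 4 / δ ≤ T ^ (σ / 4) := (le_max_right _ _).trans hTK
  have hpow : ∀ x : ℝ, 0 < T ^ x := fun x => Real.rpow_pos_of_pos hT0 x
  have hmono : ∀ x y : ℝ, x ≤ y → T ^ x ≤ T ^ y := fun x y h => Real.rpow_le_rpow_of_exponent_le hT1'.le h
  have hmul : ∀ x y : ℝ, T ^ x * T ^ y = T ^ (x + y) := fun x y => (Real.rpow_add hT0 x y).symm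
  -- first condition
  have c1 : T ^ (1 - σ) * T ^ (1 - σ) * T ^ (σ / 2) ≤ (θ * T / (2 * Real.pi)) ^ 2 / 3 := by
    have e1 : T ^ (1 - σ) * T ^ (1 - σ) * T ^ (σ / 2) * T ^ (σ / 4) ≤ T ^ 2 := by
      rw [hmul, hmul, hmul, ← Real.rpow_natCast T 2]
      refine hmono _ _ ?_
      push_cast
      linarith
    have e2 : T ^ (1 - σ) * T ^ (1 - σ) * T ^ (σ / 2) * (12 * Real.pi ^ 2 / θ ^ 2) ≤ T ^ 2 :=
      (mul_le_mul_of_nonneg_left k1 (by positivity)).trans e1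
    have hpi := Real.pi_pos
    have e3 : (θ * T / (2 * Real.pi)) ^ 2 / 3 = T ^ 2 / (12 * Real.pi ^ 2 / θ ^ 2) := by
      field_simp
      ring
    rw [e3, le_div_iff₀ (by positivity)]
    exact e2
  -- second condition
  have c2 : C1 / T * (T ^ (1 - σ / 2)) ^ 2 ≤ δ / 2 * T := by
    have e1 : (T ^ (1 - σ / 2)) ^ 2 = T ^ (2 - σ) := by
      rw [← Real.rpow_natCast, ← Real.rpow_mul hT0.le]
      congr 1
      push_cast
      ring
    rw [e1, div_mul_eq_mul_div, div_le_iff₀ hT0]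
    have e2 : 2 * C1 / δ * T ^ (2 - σ) ≤ T * T := by
      calc 2 * C1 / δ * T ^ (2 - σ) ≤ T ^ (σ / 4) * T ^ (2 - σ) :=
            mul_le_mul_of_nonneg_right k2 (hpow _).le
        _ ≤ T ^ (2 : ℝ) := by
            rw [hmul]
            exact hmono _ _ (by linarith)
        _ = T * T := by rw [Real.rpow_two]; ring
    have e3 : 2 * C1 / δ * T ^ (2 - σ) = (C1 * T ^ (2 - σ)) * (2 / δ) := by ring
    rw [e3] at e2
    have e4 : C1 * T ^ (2 - σ) = (C1 * T ^ (2 - σ)) * (2 / δ) * (δ / 2) := by field_simp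
    rw [e4]
    calc (C1 * T ^ (2 - σ)) * (2 / δ) * (δ / 2) ≤ T * T * (δ / 2) :=
          mul_le_mul_of_nonneg_right e2 (by positivity)
      _ = _ := by ring
  -- third condition
  have c3 : 2 * (C2 * (T ^ (1 - σ) * (K * (1 + Real.log T) ^ 4))) * T ^ (σ / 2) ≤ δ * T := by
    have e1 : 1 + Real.log T ≤ (1 + 16 / σ) * T ^ (σ / 16) := by
      have h1 := Real.log_le_rpow_div hT0.le (by positivity : 0 < σ / 16)
      have h2 : 1 ≤ T ^ (σ / 16) := Real.one_le_rpow hT1'.le (by positivity)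
      have h3 : T ^ (σ / 16) / (σ / 16) = 16 / σ * T ^ (σ / 16) := by field_simp
      rw [h3] at h1
      linarith
    have e2 : (1 + Real.log T) ^ 4 ≤ (1 + 16 / σ) ^ 4 * T ^ (σ / 4) := by
      calc (1 + Real.log T) ^ 4 ≤ ((1 + 16 / σ) * T ^ (σ / 16)) ^ 4 :=
            pow_le_pow_left₀ (by linarith) e1 4
        _ = _ := by
            rw [mul_pow, ← Real.rpow_natCast (T ^ (σ / 16)), ← Real.rpow_mul hT0.le]
            congr 2
            push_cast
            ring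
    have e3 : 2 * C2 * K * (1 + 16 / σ) ^ 4 ≤ δ * T ^ (σ / 4) := by
      rw [div_le_iff₀ hδ] at k3
      linarith
    calc 2 * (C2 * (T ^ (1 - σ) * (K * (1 + Real.log T) ^ 4))) * T ^ (σ / 2)
        ≤ 2 * (C2 * (T ^ (1 - σ) * (K * ((1 + 16 / σ) ^ 4 * T ^ (σ / 4))))) * T ^ (σ / 2) := by
          have := (hpow (1 - σ)).le
          have := (hpow (σ / 2)).le
          gcongr
      _ = 2 * C2 * K * (1 + 16 / σ) ^ 4 * (T ^ (1 - σ) * T ^ (σ / 4) * T ^ (σ / 2)) := by ring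
      _ ≤ δ * T ^ (σ / 4) * (T ^ (1 - σ) * T ^ (σ / 4) * T ^ (σ / 2)) :=
          mul_le_mul_of_nonneg_right e3 (by positivity)
      _ = δ * (T ^ (1 - σ) * T ^ (σ / 4) * T ^ (σ / 2) * T ^ (σ / 4)) := by ring
      _ = δ * T ^ (1 : ℝ) := by
          rw [hmul, hmul, hmul]
          congr 2
          ring
      _ = δ * T := by rw [Real.rpow_one]
  -- supports
  set D := Dm σ T with hDdef
  set Bs : Finset ℕ → DP := fun s => Bt c v p0 (Real.log T / Λ) 0 J s with hBs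
  have hDs : ∀ n, D.coeff n ≠ 0 → 1 ≤ n ∧ (n : ℝ) ≤ T ^ (1 - σ) := fun n hn => Dm_supp hσ hT1' hn
  have hBsupp : ∀ s ∈ (Finset.range J).powerset, ∀ n, (Bs s).coeff n ≠ 0 → 1 ≤ n ∧ (n : ℝ) ≤ T ^ (σ / 2) :=
    fun s hs n hn => Bt_supp hB hv (by omega) hT1' hΛ0 hτ hs hn
  have hDB : ∀ s ∈ (Finset.range J).powerset, ∀ n, (D * Bs s).coeff n ≠ 0 →
      1 ≤ n ∧ (n : ℝ) ≤ T ^ (1 - σ / 2) := by
    intro s hs n hn
    obtain ⟨a, b, ha, hb, rfl⟩ := coeff_mul_ne hn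
    have h1 := hDs a ha
    have h2 := hBsupp s hs b hb
    refine ⟨Nat.one_le_iff_ne_zero.2 (Nat.mul_ne_zero (by omega) (by omega)), ?_⟩
    push_cast
    calc (a : ℝ) * b ≤ T ^ (1 - σ) * T ^ (σ / 2) := mul_le_mul h1.2 h2.2 (by positivity) (hpow _).le
      _ = _ := by rw [hmul]; congr 1; ring
  have hDevha : evha D * evha D ≤ T ^ (1 - σ) * (K * (1 + Real.log T) ^ 4) := by
    rw [← sq]
    exact (evha_sq_le (hpow _).le hDs).trans
      (mul_le_mul_of_nonneg_left (hDK σ T hσ hT1') (hpow _).le)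
  have hone : ∀ x : ℝ, 0 ≤ x → 1 ≤ T ^ x := fun x hx => Real.one_le_rpow hT1'.le hx
  have hterm : ∀ s ∈ (Finset.range J).powerset, Wt v s * ∫ t : ℝ, w (t / T) *
        (‖ev t D + chi t ^ 2 * conj (ev t D)‖ ^ 2 * ‖ev t (Bs s)‖ ^ 2) ≤
      (2 * (∫ u, w u) + δ) * T * (Wt v s * En (D * Bs s)) +
        2 * (C2 * (T ^ (1 - σ) * (K * (1 + Real.log T) ^ 4))) * (Wt v s * evha (Bs s) ^ 2) := by
    intro s hs
    have hWs := Wt_nonneg' v s
    have hE0 := En_nonneg fun n hn => (hDB s hs n hn).1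
    have hB0 := evha_nonneg (Bs s)
    have hD0 := evha_nonneg D
    have m1 := hI T (T ^ (1 - σ / 2)) hT1'.le (hone _ (by linarith)) (D * Bs s) (hDB s hs)
    have m2 := hO T (T ^ (1 - σ)) (T ^ (1 - σ)) (T ^ (σ / 2)) hT1'.le (hone _ (by linarith))
      (hone _ (by linarith)) (hone _ (by positivity)) c1 D D (Bs s) (Bs s) hDs hDs
      (fun n hn => (hBsupp s hs n hn).1) (hBsupp s hs)
    have m3 := term_le hw hT0 D (Bs s) m1 m2
    have m4 : 2 * ((T * (∫ u, w u) + C1 / T * (T ^ (1 - σ / 2)) ^ 2) * En (D * Bs s)) ≤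
        (2 * (∫ u, w u) + δ) * T * En (D * Bs s) := by
      rw [← mul_assoc]
      refine mul_le_mul_of_nonneg_right ?_ hE0
      linarith
    have m5 : 2 * (C2 * (evha D * evha D * (evha (Bs s) * evha (Bs s)))) ≤
        2 * (C2 * (T ^ (1 - σ) * (K * (1 + Real.log T) ^ 4))) * evha (Bs s) ^ 2 := by
      have : 0 ≤ evha (Bs s) * evha (Bs s) := mul_nonneg hB0 hB0
      calc 2 * (C2 * (evha D * evha D * (evha (Bs s) * evha (Bs s))))
          ≤ 2 * (C2 * (T ^ (1 - σ) * (K * (1 + Real.log T) ^ 4) * (evha (Bs s) * evha (Bs s)))) := by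
            gcongr
        _ = _ := by ring
    calc Wt v s * ∫ t : ℝ, w (t / T) *
        (‖ev t D + chi t ^ 2 * conj (ev t D)‖ ^ 2 * ‖ev t (Bs s)‖ ^ 2)
        ≤ Wt v s * ((2 * (∫ u, w u) + δ) * T * En (D * Bs s) +
          2 * (C2 * (T ^ (1 - σ) * (K * (1 + Real.log T) ^ 4))) * evha (Bs s) ^ 2) :=
          mul_le_mul_of_nonneg_left (m3.trans (add_le_add m4 m5)) hWs
      _ = _ := by ring
  refine (Finset.sum_le_sum hterm).trans ?_
  rw [Finset.sum_add_distrib, ← Finset.mul_sum, ← Finset.mul_sum]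
  refine add_le_add le_rfl ?_
  have h9 := hZ T hTT1 J hJ c hc
  refine (mul_le_mul_of_nonneg_left h9 (by positivity)).trans c3

end Pool.Agent.Lib.J4
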