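import Pool.Agent.Lib.MP_f9aece_nt_h4.Weight
import Pool.Agent.Lib.MP_f9aece_nt_h4.Abel2

/-!
Cut-off functions on the logarithmic scale.
-/

set_option autoImplicit false

open Real

namespace Pool.Agent.H4.Crux

/-- `ρ` is a `C²` cut-off with derivatives `ρ'`, `ρ''`, all bounded by `1`, supported in
`[lo, hi]`. -/
structure Cut (ρ ρ' ρ'' : ℝ → ℝ) (lo hi : ℝ) : Prop where
  d1 : ∀ x, HasDerivAt ρ (ρ' x) x
  d2 : ∀ x, HasDerivAt ρ' (ρ'' x) x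
  b0 : ∀ x, |ρ x| ≤ 1
  b1 : ∀ x, |ρ' x| ≤ 1
  b2 : ∀ x, |ρ'' x| ≤ 1
  supp : ∀ x, x < lo ∨ hi < x → ρ x = 0

variable {ρ ρ' ρ'' : ℝ → ℝ} {lo hi : ℝ}

lemma zero_deriv_of_lt {f f' : ℝ → ℝ} (hd : ∀ x, HasDerivAt f (f' x) x) {a : ℝ}
    (h : ∀ x, x < a → f x = 0) : ∀ x, x < a → f' x = 0 := by
  intro x hx
  have h7 : HasDerivAt f 0 x := by
    refine (hasDerivAt_const x (0 : ℝ)).congr_of_eventuallyEq ?_
    filter_upwards [Iio_mem_nhds hx] with y hy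
    exact h y hy
  exact (hd x).unique h7

lemma zero_deriv_of_gt {f f' : ℝ → ℝ} (hd : ∀ x, HasDerivAt f (f' x) x) {a : ℝ}
    (h : ∀ x, a < x → f x = 0) : ∀ x, a < x → f' x = 0 := by
  intro x hx
  have h7 : HasDerivAt f 0 x := by
    refine (hasDerivAt_const x (0 : ℝ)).congr_of_eventuallyEq ?_
    filter_upwards [Ioi_mem_nhds hx] with y hy
    exact h y hy
  exact (hd x).unique h7

/-- `p x = ρ x e^{-x/2}` -/
noncomputable def pf (ρ : ℝ → ℝ) (x : ℝ) : ℝ := ρ x * exp (-x / 2)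

/-- its derivative -/
noncomputable def pf' (ρ ρ' : ℝ → ℝ) (x : ℝ) : ℝ := (ρ' x - ρ x / 2) * exp (-x / 2)

/-- its second derivative -/
noncomputable def pf'' (ρ ρ' ρ'' : ℝ → ℝ) (x : ℝ) : ℝ :=
  (ρ'' x - ρ' x + ρ x / 4) * exp (-x / 2)

namespace Cut

variable (hc : Cut ρ ρ' ρ'' lo hi)
include hc

lemma z1 : ∀ x, x < lo → ρ' x = 0 :=
  zero_deriv_of_lt hc.d1 fun x hx => hc.supp x (Or.inl hx)

lemma z2 : ∀ x, x < lo → ρ'' x = 0 := zero_deriv_of_lt hc.d2 hc.z1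

lemma z1' : ∀ x, hi < x → ρ' x = 0 :=
  zero_deriv_of_gt hc.d1 fun x hx => hc.supp x (Or.inr hx)

lemma hasDerivAt_pf (x : ℝ) : HasDerivAt (pf ρ) (pf' ρ ρ' x) x := by
  have h1 : HasDerivAt (fun x : ℝ => exp (-x / 2)) (exp (-x / 2) * (-1 / 2)) x :=
    ((hasDerivAt_neg x).div_const 2).exp
  refine ((hc.d1 x).mul h1).congr_deriv ?_
  unfold pf'
  ring

lemma hasDerivAt_pf' (x : ℝ) : HasDerivAt (pf' ρ ρ') (pf'' ρ ρ' ρ'' x) x := by
  have h1 : HasDerivAt (fun x : ℝ => exp (-x / 2)) (exp (-x / 2) * (-1 / 2)) x :=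
    ((hasDerivAt_neg x).div_const 2).exp
  refine (((hc.d2 x).sub ((hc.d1 x).div_const 2)).mul h1).congr_deriv ?_
  unfold pf''
  simp only [Pi.sub_apply]
  ring

lemma exp_le {x : ℝ} (hx : lo ≤ x) : exp (-x / 2) ≤ exp (-lo / 2) :=
  exp_le_exp.2 (by linarith)

lemma pf_le (x : ℝ) : |pf ρ x| ≤ exp (-lo / 2) := by
  unfold pf
  rcases lt_or_ge x lo with h | h
  · rw [hc.supp x (Or.inl h), zero_mul, abs_zero]; positivity
  · rw [abs_mul, abs_of_pos (exp_pos _)]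
    calc |ρ x| * exp (-x / 2) ≤ 1 * exp (-lo / 2) :=
          mul_le_mul (hc.b0 x) (exp_le hc h) (exp_pos _).le zero_le_one
      _ = _ := one_mul _

lemma pf'_le (x : ℝ) : |pf' ρ ρ' x| ≤ 3 * exp (-lo / 2) := by
  unfold pf'
  rcases lt_or_ge x lo with h | h
  · rw [hc.supp x (Or.inl h), hc.z1 x h]
    simp only [zero_div, sub_zero, zero_mul, abs_zero]; positivity
  · rw [abs_mul, abs_of_pos (exp_pos _)]
    refine mul_le_mul ?_ (exp_le hc h) (exp_pos _).le (by norm_num)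
    have e1 := abs_le.1 (hc.b0 x)
    have e2 := abs_le.1 (hc.b1 x)
    rw [abs_le]
    constructor <;> linarith [e1.1, e1.2, e2.1, e2.2]

lemma pf''_le (x : ℝ) : |pf'' ρ ρ' ρ'' x| ≤ 3 * exp (-lo / 2) := by
  unfold pf''
  rcases lt_or_ge x lo with h | h
  · rw [hc.supp x (Or.inl h), hc.z1 x h, hc.z2 x h]
    simp only [zero_div, sub_zero, add_zero, zero_mul, abs_zero]; positivity
  · rw [abs_mul, abs_of_pos (exp_pos _)]
    refine mul_le_mul ?_ (exp_le hc h) (exp_pos _).le (by norm_num)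
    have e1 := abs_le.1 (hc.b0 x)
    have e2 := abs_le.1 (hc.b1 x)
    have e3 := abs_le.1 (hc.b2 x)
    rw [abs_le]
    constructor <;> linarith [e1.1, e1.2, e2.1, e2.2, e3.1, e3.2]

lemma pf_le3 (x : ℝ) : |pf ρ x| ≤ 3 * exp (-lo / 2) :=
  (hc.pf_le x).trans (by linarith [exp_pos (-lo / 2)])

lemma pf_zero {x : ℝ} (h : x < lo ∨ hi < x) : pf ρ x = 0 := by
  unfold pf
  rw [hc.supp x h, zero_mul]

lemma pf'_zero {x : ℝ} (h : x < lo ∨ hi < x) : pf' ρ ρ' x = 0 := by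
  unfold pf'
  rcases h with h | h
  · rw [hc.supp x (Or.inl h), hc.z1 x h]; ring
  · rw [hc.supp x (Or.inr h), hc.z1' x h]; ring

end Cut

/-- the function `q` of the logarithm of `A v` -/
noncomputable def qf (ρ : ℝ → ℝ) (T c lB : ℝ) (z : ℝ) : ℝ :=
  T * (pf ρ (z - lB) * W (c * exp (-z)))

noncomputable def qf' (ρ ρ' : ℝ → ℝ) (T c lB : ℝ) (z : ℝ) : ℝ :=
  T * (pf' ρ ρ' (z - lB) * W (c * exp (-z)) - pf ρ (z - lB) * W1 (c * exp (-z)))

noncomputable def qf'' (ρ ρ' ρ'' : ℝ → ℝ) (T c lB : ℝ) (z : ℝ) : ℝ :=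
  T * (pf'' ρ ρ' ρ'' (z - lB) * W (c * exp (-z)) - 2 * (pf' ρ ρ' (z - lB) * W1 (c * exp (-z))) +
    pf ρ (z - lB) * W2 (c * exp (-z)))

namespace Cut

variable (hc : Cut ρ ρ' ρ'' lo hi)
include hc

lemma hasDerivAt_qf (T c lB z : ℝ) : HasDerivAt (qf ρ T c lB) (qf' ρ ρ' T c lB z) z := by
  have h1 : HasDerivAt (fun z => pf ρ (z - lB)) (pf' ρ ρ' (z - lB)) z :=
    HasDerivAt.comp_sub_const z lB (hc.hasDerivAt_pf (z - lB))
  have h2 := hasDerivAt_W_comp c z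
  refine ((h1.mul h2).const_mul T).congr_deriv ?_
  unfold qf'
  ring

lemma hasDerivAt_qf' (T c lB z : ℝ) :
    HasDerivAt (qf' ρ ρ' T c lB) (qf'' ρ ρ' ρ'' T c lB z) z := by
  have h1 : HasDerivAt (fun z => pf ρ (z - lB)) (pf' ρ ρ' (z - lB)) z :=
    HasDerivAt.comp_sub_const z lB (hc.hasDerivAt_pf (z - lB))
  have h1' : HasDerivAt (fun z => pf' ρ ρ' (z - lB)) (pf'' ρ ρ' ρ'' (z - lB)) z :=
    HasDerivAt.comp_sub_const z lB (hc.hasDerivAt_pf' (z - lB))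
  have h2 := hasDerivAt_W_comp c z
  have h3 := hasDerivAt_W1_comp c z
  refine (((h1'.mul h2).sub (h1.mul h3)).const_mul T).congr_deriv ?_
  unfold qf''
  ring

/-- bounds for `q`, `q'`, `q''` in terms of a bound for `W`, `W1`, `W2` -/
lemma qf_bounds {T : ℝ} (hT : 0 ≤ T) (c lB z : ℝ) {K : ℝ} (hK0 : |W (c * exp (-z))| ≤ K)
    (hK1 : |W1 (c * exp (-z))| ≤ K) (hK2 : |W2 (c * exp (-z))| ≤ K) :
    |qf ρ T c lB z| ≤ T * (12 * exp (-lo / 2) * K) ∧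
    |qf' ρ ρ' T c lB z| ≤ T * (12 * exp (-lo / 2) * K) ∧
    |qf'' ρ ρ' ρ'' T c lB z| ≤ T * (12 * exp (-lo / 2) * K) := by
  set μ := exp (-lo / 2) with hμ
  have hμ0 : 0 < μ := exp_pos _
  have hK : 0 ≤ K := (abs_nonneg _).trans hK0
  have a0 := hc.pf_le3 (z - lB)
  have a1 := hc.pf'_le (z - lB)
  have a2 := hc.pf''_le (z - lB)
  rw [← hμ] at a0 a1 a2
  have m : ∀ x y : ℝ, |x| ≤ 3 * μ → |y| ≤ K → |x * y| ≤ 3 * μ * K := by
    intro x y hx hy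
    rw [abs_mul]
    exact mul_le_mul hx hy (abs_nonneg _) (by positivity)
  have hμK : 0 ≤ μ * K := by positivity
  refine ⟨?_, ?_, ?_⟩
  · unfold qf
    rw [abs_mul, abs_of_nonneg hT]
    refine mul_le_mul_of_nonneg_left ((m _ _ a0 hK0).trans ?_) hT
    nlinarith
  · unfold qf'
    rw [abs_mul, abs_of_nonneg hT]
    refine mul_le_mul_of_nonneg_left ?_ hT
    refine (abs_sub _ _).trans ?_
    have i1 := m _ _ a1 hK0
    have i2 := m _ _ a0 hK1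
    nlinarith
  · unfold qf''
    rw [abs_mul, abs_of_nonneg hT]
    refine mul_le_mul_of_nonneg_left ?_ hT
    have i1 := m _ _ a2 hK0
    have i2 := m _ _ a1 hK1
    have i3 := m _ _ a0 hK2
    rw [abs_le] at i1 i2 i3 ⊢
    constructor <;> nlinarith [i1.1, i1.2, i2.1, i2.2, i3.1, i3.2]

end Cut

end Pool.Agent.H4.Crux
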