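import Mathlib

/-!
The weight `w x = exp (-x^2) - exp (-2 x^2)` and its Fourier transform `W`.
-/

set_option autoImplicit false

open Real

namespace Pool.Agent.H4.Crux

/-- the weight -/
noncomputable def w (x : ℝ) : ℝ := exp (-x ^ 2) - exp (-(2 * x ^ 2))

/-- its Fourier transform -/
noncomputable def W (y : ℝ) : ℝ :=
  √π * exp (-(π * y) ^ 2) - √(π / 2) * exp (-((π * y) ^ 2 / 2))

/-- derivative of `W` -/
noncomputable def dW (y : ℝ) : ℝ :=
  √π * (exp (-(π * y) ^ 2) * (-(2 * π ^ 2 * y))) -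
    √(π / 2) * (exp (-((π * y) ^ 2 / 2)) * (-(π ^ 2 * y)))

/-- `W1 ξ = ξ W'(ξ)` -/
noncomputable def W1 (y : ℝ) : ℝ :=
  √π * (exp (-(π * y) ^ 2) * (-(2 * (π * y) ^ 2))) -
    √(π / 2) * (exp (-((π * y) ^ 2 / 2)) * (-(2 * ((π * y) ^ 2 / 2))))

/-- `W2 ξ = ξ W1'(ξ)` -/
noncomputable def W2 (y : ℝ) : ℝ :=
  √π * (exp (-(π * y) ^ 2) * (4 * ((π * y) ^ 2) ^ 2 - 4 * (π * y) ^ 2)) -
    √(π / 2) * (exp (-((π * y) ^ 2 / 2)) * (4 * ((π * y) ^ 2 / 2) ^ 2 - 4 * ((π * y) ^ 2 / 2)))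

lemma w_nonneg (x : ℝ) : 0 ≤ w x := by
  unfold w
  have : exp (-(2 * x ^ 2)) ≤ exp (-x ^ 2) := by
    apply exp_le_exp.2
    nlinarith [sq_nonneg x]
  linarith

lemma w_zero : w 0 = 0 := by simp [w]

lemma w_le (x : ℝ) (hx : x ≠ 0) : w x ≤ 1 / x ^ 2 := by
  have h1 : w x ≤ exp (-x ^ 2) := by
    unfold w
    have := exp_pos (-(2 * x ^ 2))
    linarith
  refine h1.trans ?_
  have hx2 : 0 < x ^ 2 := by positivity
  rw [exp_neg, one_div]
  apply inv_anti₀ hx2
  have := add_one_le_exp (x ^ 2)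
  linarith

lemma w_lower (x : ℝ) (h1 : 1 / 2 ≤ |x|) (h2 : |x| ≤ 2) : exp (-4) - exp (-8) ≤ w x ∨
    exp (-(1 / 4)) - exp (-(1 / 2)) ≤ w x := by
  -- with `u = exp (-x^2)`, `w = u (1 - u)` and `u ∈ [exp (-4), exp (-1/4)]`
  have hu : w x = exp (-x ^ 2) * (1 - exp (-x ^ 2)) := by
    unfold w
    rw [mul_sub, mul_one, ← exp_add]
    congr 2
    ring
  have hx1 : 1 / 4 ≤ x ^ 2 := by
    rw [← sq_abs]; nlinarith [abs_nonneg x]
  have hx2 : x ^ 2 ≤ 4 := by
    rw [← sq_abs]; nlinarith [abs_nonneg x]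
  have h3 : exp (-4) ≤ exp (-x ^ 2) := exp_le_exp.2 (by linarith)
  have h4 : exp (-x ^ 2) ≤ exp (-(1 / 4)) := exp_le_exp.2 (by linarith)
  have e1 : exp (-8) = exp (-4) * exp (-4) := by rw [← exp_add]; norm_num
  have e2 : exp (-(1 / 2)) = exp (-(1 / 4)) * exp (-(1 / 4)) := by rw [← exp_add]; norm_num
  set u := exp (-x ^ 2)
  set p := exp (-4 : ℝ)
  set r := exp (-(1 / 4) : ℝ)
  rw [hu, e1, e2]
  -- concavity of `u (1 - u)`
  by_cases hc : u ≤ 1 / 2
  · left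
    nlinarith
  · right
    push Not at hc
    nlinarith

lemma one_add_pow_mul_exp (n : ℕ) (z : ℝ) (hz : 0 ≤ z) :
    (1 + z) ^ n * exp (-z) ≤ n.factorial * exp 1 := by
  have h1 := pow_div_factorial_le_exp (1 + z) (by linarith) n
  have hf : (0 : ℝ) < n.factorial := Nat.cast_pos.2 (Nat.factorial_pos n)
  rw [div_le_iff₀ hf] at h1
  calc (1 + z) ^ n * exp (-z) ≤ (exp (1 + z) * n.factorial) * exp (-z) := by gcongr
    _ = n.factorial * (exp (1 + z) * exp (-z)) := by ring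
    _ = n.factorial * exp 1 := by rw [← exp_add]; congr 2; ring

/-- the constant in the decay bounds -/
noncomputable def CW (n : ℕ) : ℝ := 24 * ((n + 2).factorial * exp 1)

lemma CW_pos (n : ℕ) : 0 < CW n := by
  unfold CW
  have := Nat.factorial_pos (n + 2)
  positivity

lemma sqrt_pi_le : √π ≤ 2 := by
  rw [Real.sqrt_le_left (by norm_num)]
  have := Real.pi_lt_four
  linarith

lemma sqrt_pi2_le : √(π / 2) ≤ 2 := by
  rw [Real.sqrt_le_left (by norm_num)]
  have := Real.pi_lt_four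
  linarith

/-- generic decay of the three functions -/
lemma decay_aux (n : ℕ) (y : ℝ) (P : ℝ → ℝ) (hP : ∀ z, 0 ≤ z → |P z| ≤ 6 * (1 + z) ^ 2) :
    (1 + y ^ 2) ^ n * |√π * (exp (-(π * y) ^ 2) * P ((π * y) ^ 2)) -
      √(π / 2) * (exp (-((π * y) ^ 2 / 2)) * P ((π * y) ^ 2 / 2))| ≤ CW n := by
  have hpi : 3 < π := Real.pi_gt_three
  have key : ∀ z : ℝ, y ^ 2 ≤ z → (1 + y ^ 2) ^ n * (exp (-z) * |P z|) ≤
      6 * ((n + 2).factorial * exp 1) := by
    intro z hz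
    have hz0 : 0 ≤ z := (sq_nonneg y).trans hz
    calc (1 + y ^ 2) ^ n * (exp (-z) * |P z|)
        ≤ (1 + z) ^ n * (exp (-z) * (6 * (1 + z) ^ 2)) := by
          gcongr
          exact hP z hz0
      _ = 6 * ((1 + z) ^ (n + 2) * exp (-z)) := by ring
      _ ≤ 6 * ((n + 2).factorial * exp 1) :=
          mul_le_mul_of_nonneg_left (one_add_pow_mul_exp (n + 2) z hz0) (by norm_num)
  have hpi9 : 9 < π ^ 2 := by nlinarith
  have h1 := key ((π * y) ^ 2) (by rw [mul_pow]; nlinarith [sq_nonneg y])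
  have h2 := key ((π * y) ^ 2 / 2) (by rw [mul_pow]; nlinarith [sq_nonneg y])
  set a := exp (-(π * y) ^ 2) * P ((π * y) ^ 2) with ha
  set b := exp (-((π * y) ^ 2 / 2)) * P ((π * y) ^ 2 / 2) with hb
  have ha' : (1 + y ^ 2) ^ n * |a| ≤ 6 * ((n + 2).factorial * exp 1) := by
    rw [ha, abs_mul, abs_of_pos (exp_pos _)]
    exact h1
  have hb' : (1 + y ^ 2) ^ n * |b| ≤ 6 * ((n + 2).factorial * exp 1) := by
    rw [hb, abs_mul, abs_of_pos (exp_pos _)]
    exact h2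
  have hn : 0 ≤ (1 + y ^ 2) ^ n := by positivity
  calc (1 + y ^ 2) ^ n * |√π * a - √(π / 2) * b|
      ≤ (1 + y ^ 2) ^ n * (√π * |a| + √(π / 2) * |b|) := by
        refine mul_le_mul_of_nonneg_left ?_ hn
        refine (abs_sub _ _).trans (le_of_eq ?_)
        rw [abs_mul (√π) a, abs_mul (√(π / 2)) b, abs_of_nonneg (sqrt_nonneg π),
          abs_of_nonneg (sqrt_nonneg (π / 2))]
    _ = √π * ((1 + y ^ 2) ^ n * |a|) + √(π / 2) * ((1 + y ^ 2) ^ n * |b|) := by ring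
    _ ≤ 2 * (6 * ((n + 2).factorial * exp 1)) + 2 * (6 * ((n + 2).factorial * exp 1)) := by
        gcongr
        · exact sqrt_pi_le
        · exact sqrt_pi2_le
    _ = CW n := by unfold CW; ring

lemma W_decay (n : ℕ) (y : ℝ) : (1 + y ^ 2) ^ n * |W y| ≤ CW n := by
  have h := decay_aux n y (fun _ => 1) (fun z hz => by
    rw [abs_one]; nlinarith)
  simpa [W] using h

lemma W1_decay (n : ℕ) (y : ℝ) : (1 + y ^ 2) ^ n * |W1 y| ≤ CW n := by
  have h := decay_aux n y (fun z => -(2 * z)) (fun z hz => by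
    rw [abs_neg, abs_of_nonneg (by linarith)]; nlinarith)
  simpa [W1] using h

lemma W2_decay (n : ℕ) (y : ℝ) : (1 + y ^ 2) ^ n * |W2 y| ≤ CW n := by
  have h := decay_aux n y (fun z => 4 * z ^ 2 - 4 * z) (fun z hz => by
    rw [abs_le]; constructor <;> nlinarith)
  simpa [W2] using h

lemma W_bound (y : ℝ) : |W y| ≤ CW 0 := by simpa using W_decay 0 y
lemma W1_bound (y : ℝ) : |W1 y| ≤ CW 0 := by simpa using W1_decay 0 y
lemma W2_bound (y : ℝ) : |W2 y| ≤ CW 0 := by simpa using W2_decay 0 y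

lemma W_even (y : ℝ) : W (-y) = W y := by simp [W]

lemma W1_eq (y : ℝ) : W1 y = y * dW y := by
  unfold W1 dW
  ring

lemma hasDerivAt_W (y : ℝ) : HasDerivAt W (dW y) y := by
  have h1 : HasDerivAt (fun y : ℝ => -(π * y) ^ 2) (-(2 * π ^ 2 * y)) y := by
    have := (((hasDerivAt_id y).const_mul π).pow 2).neg
    refine this.congr_deriv ?_
    simp
    ring
  have h2 : HasDerivAt (fun y : ℝ => -((π * y) ^ 2 / 2)) (-(π ^ 2 * y)) y := by
    have := ((((hasDerivAt_id y).const_mul π).pow 2).div_const 2).neg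
    refine this.congr_deriv ?_
    simp
    ring
  exact (h1.exp.const_mul _).sub (h2.exp.const_mul _)

lemma hasDerivAt_W_comp (c s : ℝ) :
    HasDerivAt (fun s : ℝ => W (c * exp (-s))) (-W1 (c * exp (-s))) s := by
  have h1 : HasDerivAt (fun s : ℝ => c * exp (-s)) (-(c * exp (-s))) s := by
    have := ((hasDerivAt_neg s).exp).const_mul c
    refine this.congr_deriv ?_
    ring
  have h2 := (hasDerivAt_W (c * exp (-s))).comp s h1
  refine h2.congr_deriv ?_
  rw [W1_eq]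
  ring

lemma hasDerivAt_W1_comp (c s : ℝ) :
    HasDerivAt (fun s : ℝ => W1 (c * exp (-s))) (-W2 (c * exp (-s))) s := by
  have h0 : HasDerivAt (fun s : ℝ => (π * (c * exp (-s))) ^ 2)
      (-(2 * (π * (c * exp (-s))) ^ 2)) s := by
    have h1 : HasDerivAt (fun s : ℝ => π * (c * exp (-s))) (-(π * (c * exp (-s)))) s := by
      have := (((hasDerivAt_neg s).exp).const_mul c).const_mul π
      refine this.congr_deriv ?_
      ring
    refine (h1.pow 2).congr_deriv ?_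
    push_cast
    ring
  have e1 := (h0.neg.exp).mul ((h0.const_mul 2).neg)
  have e2 := ((h0.div_const 2).neg.exp).mul (((h0.div_const 2).const_mul 2).neg)
  have e3 := (e1.const_mul (√π)).sub (e2.const_mul (√(π / 2)))
  refine e3.congr_deriv ?_
  unfold W2
  simp only [Pi.neg_apply]
  ring

end Pool.Agent.H4.Crux
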